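import Pool.Agent.Lib.MP_a5a405_co.Energy

/-!
The counting lemma for a general binary form on pairs that lie in one cell.
-/

open Finset Complex
open scoped Classical

namespace Pool.Agent.Lib.MP_a5a405_co.PR.G

lemma count2 {κ : Type} (Cs : Finset κ) {k₁ k₂ α β L R : ℕ} (hk₁ : 0 < k₁) (hk₂ : 0 < k₂)
    (hα : 0 < α) (hβ : 0 < β) (hR : 0 < R) (hL : 0 < L) (base : κ → ℕ) (a b : κ → ℕ → ℝ)
    (ha : ∀ c u, |a c u| ≤ 1) (hb : ∀ c u, |b c u| ≤ 1)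
    (hlt : ∀ c ∈ Cs, ∀ u < k₁, ∀ v < k₂, base c + α * u + β * v < L)
    (hrep : ∀ t, ((Cs ×ˢ range k₁ ×ˢ range k₂).filter
      fun x => t = base x.1 + α * x.2.1 + β * x.2.2).card ≤ R)
    {c c' : ℕ → ℝ} (hc : ∀ n, |c n| ≤ 1) {δ η τ : ℝ} (hδ : 0 < δ) (hτ : 0 < τ)
    (hnear : ∀ ζ : ℂ, ‖ζ‖ = 1 → δ * L ≤ ‖fs c L ζ‖ → ‖fs c L ζ - fs c' L ζ‖ ≤ η * L) :
    |∑ x ∈ Cs ×ˢ range k₁ ×ˢ range k₂,
      a x.1 x.2.1 * b x.1 x.2.2 * c (base x.1 + α * x.2.1 + β * x.2.2)|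
      ≤ τ / 2 * (Cs.card * (k₁ * k₂)) + R / τ * (∑ t ∈ range L, c' t ^ 2 + η ^ 2 / δ ^ 2 * L)
        + δ * L * (Cs.card * (k₁ + k₂)) := by
  set X := Cs ×ˢ range k₁ ×ˢ range k₂ with hX
  set e : κ × ℕ × ℕ → ℕ := fun x => base x.1 + α * x.2.1 + β * x.2.2 with he
  set w : κ × ℕ × ℕ → ℝ := fun x => a x.1 x.2.1 * b x.1 x.2.2 with hw
  have hw1 : ∀ x, |w x| ≤ 1 := fun x => by
    rw [hw, abs_mul]; exact mul_le_one₀ (ha _ _) (abs_nonneg _) (hb _ _)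
  have heL : ∀ x ∈ X, e x < L := by
    intro x hx
    obtain ⟨h1, h2⟩ := mem_product.1 hx
    obtain ⟨h2, h3⟩ := mem_product.1 h2
    exact hlt _ h1 _ (mem_range.1 h2) _ (mem_range.1 h3)
  have hR' : (0 : ℝ) < R := by exact_mod_cast hR
  have hL0 : (0 : ℝ) < L := by exact_mod_cast hL
  set T := ∑ x ∈ X, w x * c (e x) with hT
  set Rr : ℕ → ℂ := fun j => FS X e w (rt L ^ j) with hRr
  set C : ℕ → ℂ := fun j => fs c L (rt L ^ j) with hC
  have h1 : ∑ j ∈ range L, Rr j * (starRingEnd ℂ) (C j) = ((L * T : ℝ) : ℂ) := by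
    rw [hRr, hC]
    refine (bilinear X (range L) e id w c heL (fun y hy => mem_range.1 hy)).trans ?_
    congr 2
    refine sum_congr rfl fun x hx => ?_
    simp only [id, sum_ite_eq, mem_range, if_pos (heL x hx)]
  have h2 : L * |T| ≤ ∑ j ∈ range L, ‖Rr j‖ * ‖C j‖ := by
    have h3 := norm_sum_le (range L) fun j => Rr j * (starRingEnd ℂ) (C j)
    rw [h1, norm_real, Real.norm_eq_abs, abs_mul, Nat.abs_cast] at h3
    simpa only [norm_mul, RCLike.norm_conj] using h3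
  set S := (range L).filter fun j => δ * L ≤ ‖C j‖ with hS
  have hR2 : ∑ j ∈ range L, ‖Rr j‖ ^ 2 ≤ L * (Cs.card * (k₁ * k₂) * R) := by
    rw [hRr, parseval X _ _ heL]
    refine mul_le_mul_of_nonneg_left ?_ (Nat.cast_nonneg _)
    have h3 : ∀ x ∈ X, ∑ y ∈ X, (if e x = e y then w x * w y else 0) ≤ R := by
      intro x _
      refine le_trans ?_ (Nat.cast_le.2 (hrep (e x)))
      rw [card_filter]
      push_cast
      refine sum_le_sum fun y _ => ?_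
      split_ifs
      · refine (le_abs_self _).trans ?_
        rw [abs_mul]
        exact mul_le_one₀ (hw1 _) (abs_nonneg _) (hw1 _)
      · exact le_rfl
    refine (sum_le_sum h3).trans (le_of_eq ?_)
    simp [hX]
  have hR1 : ∑ j ∈ range L, ‖Rr j‖ ≤ Cs.card * (L * (k₁ + k₂)) := by
    have h3 : ∀ j, Rr j = ∑ r ∈ Cs, (rt L ^ j) ^ base r * (FS (range k₁) (α * ·) (a r) (rt L ^ j)
        * FS (range k₂) (β * ·) (b r) (rt L ^ j)) := by
      intro j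
      simp only [hRr, FS, hX, sum_product, he, hw, pow_add]
      refine sum_congr rfl fun r _ => ?_
      rw [sum_mul_sum, mul_sum]
      refine sum_congr rfl fun u _ => ?_
      rw [mul_sum]
      refine sum_congr rfl fun v _ => ?_
      push_cast
      ring
    have h4 : ∀ r ∈ Cs, ∑ j ∈ range L, ‖(rt L ^ j) ^ base r * (FS (range k₁) (α * ·) (a r)
        (rt L ^ j) * FS (range k₂) (β * ·) (b r) (rt L ^ j))‖ ≤ L * (k₁ + k₂) := by
      intro r hr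
      have h5 := parseval_inj (P := L) (range k₁) (α * ·) (a r)
        (fun x hx => by have := hlt r hr x (mem_range.1 hx) 0 hk₂; omega)
        (fun x _ y _ h => mul_left_cancel₀ hα.ne' h)
      have h6 := parseval_inj (P := L) (range k₂) (β * ·) (b r)
        (fun x hx => by have := hlt r hr 0 hk₁ x (mem_range.1 hx); omega)
        (fun x _ y _ h => mul_left_cancel₀ hβ.ne' h)
      have h7 := sum_sq_le (ha r) k₁
      have h8 := sum_sq_le (hb r) k₂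
      calc _ ≤ ∑ j ∈ range L, (‖FS (range k₁) (α * ·) (a r) (rt L ^ j)‖ ^ 2
            + ‖FS (range k₂) (β * ·) (b r) (rt L ^ j)‖ ^ 2) :=
            sum_le_sum fun j _ => by
              rw [norm_mul, norm_pow, norm_rt_pow, one_pow, one_mul, norm_mul]
              nlinarith [sq_nonneg (‖FS (range k₁) (α * ·) (a r) (rt L ^ j)‖
                - ‖FS (range k₂) (β * ·) (b r) (rt L ^ j)‖),
                sq_nonneg ‖FS (range k₁) (α * ·) (a r) (rt L ^ j)‖,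
                sq_nonneg ‖FS (range k₂) (β * ·) (b r) (rt L ^ j)‖]
        _ ≤ _ := by
          rw [sum_add_distrib, h5, h6, mul_add]
          exact add_le_add (mul_le_mul_of_nonneg_left h7 hL0.le)
            (mul_le_mul_of_nonneg_left h8 hL0.le)
    simp only [h3]
    refine (sum_le_sum fun j _ => norm_sum_le _ _).trans ?_
    rw [sum_comm]
    simpa using sum_le_sum h4
  have hSc : (S.card : ℝ) * (δ * L) ^ 2 ≤ L * L := card_large_le le_rfl hc (by positivity)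
  have hC2 : ∑ j ∈ S, ‖C j‖ ^ 2 ≤ 2 * L * (∑ t ∈ range L, c' t ^ 2 + η ^ 2 / δ ^ 2 * L) := by
    have h3 : ∀ j ∈ S, ‖C j‖ ^ 2 ≤ 2 * ‖fs c' L (rt L ^ j)‖ ^ 2 + 2 * (η * L) ^ 2 := by
      intro j hj
      have h4 := hnear _ (norm_rt_pow L j) (mem_filter.1 hj).2
      have h5 := norm_sub_norm_le (fs c L (rt L ^ j)) (fs c' L (rt L ^ j))
      have h6 : ‖C j‖ ≤ ‖fs c' L (rt L ^ j)‖ + η * L := by simp only [hC]; linarith
      have h7 := pow_le_pow_left₀ (norm_nonneg _) h6 2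
      nlinarith [sq_nonneg (‖fs c' L (rt L ^ j)‖ - η * L)]
    refine (sum_le_sum h3).trans ?_
    rw [sum_add_distrib, ← mul_sum, sum_const, nsmul_eq_mul]
    have h4 : ∑ j ∈ S, ‖fs c' L (rt L ^ j)‖ ^ 2 ≤ L * ∑ t ∈ range L, c' t ^ 2 := by
      rw [← parseval_fs le_rfl]
      exact sum_le_sum_of_subset_of_nonneg (filter_subset _ _) fun _ _ _ => sq_nonneg _
    have h5 : (S.card : ℝ) * (η * L) ^ 2 ≤ L * (η ^ 2 / δ ^ 2 * L) := by
      calc (S.card : ℝ) * (η * L) ^ 2 = η ^ 2 / δ ^ 2 * (S.card * (δ * L) ^ 2) := by field_simp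
        _ ≤ η ^ 2 / δ ^ 2 * (L * L) := mul_le_mul_of_nonneg_left hSc (by positivity)
        _ = _ := by ring
    linarith
  have h3 : ∑ j ∈ range L, ‖Rr j‖ * ‖C j‖ ≤ ∑ j ∈ range L, (τ / R / 2 * ‖Rr j‖ ^ 2
      + R / τ / 2 * (if j ∈ S then ‖C j‖ ^ 2 else 0) + δ * L * ‖Rr j‖) := by
    refine sum_le_sum fun j hj => ?_
    have h4 : 0 ≤ δ * L * ‖Rr j‖ := by positivity
    split_ifs with h5
    · have h6 : τ / R / 2 * ‖Rr j‖ ^ 2 + R / τ / 2 * ‖C j‖ ^ 2 - ‖Rr j‖ * ‖C j‖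
          = R / τ / 2 * (τ / R * ‖Rr j‖ - ‖C j‖) ^ 2 := by field_simp; ring
      have h7 : 0 ≤ R / τ / 2 * (τ / R * ‖Rr j‖ - ‖C j‖) ^ 2 := by positivity
      linarith
    · have h6 : ‖C j‖ ≤ δ * L := by
        by_contra hc
        exact h5 (mem_filter.2 ⟨hj, (not_le.1 hc).le⟩)
      have h7 : 0 ≤ τ / R / 2 * ‖Rr j‖ ^ 2 := by positivity
      nlinarith [mul_le_mul_of_nonneg_left h6 (norm_nonneg (Rr j))]
  rw [sum_add_distrib, sum_add_distrib, ← mul_sum, ← mul_sum, ← mul_sum, sum_ite_mem,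
    inter_eq_right.2 (filter_subset _ _)] at h3
  refine le_of_mul_le_mul_left (h2.trans (h3.trans ?_)) hL0
  calc _ ≤ τ / R / 2 * (L * (Cs.card * (k₁ * k₂) * R))
        + R / τ / 2 * (2 * L * (∑ t ∈ range L, c' t ^ 2 + η ^ 2 / δ ^ 2 * L))
        + δ * L * (Cs.card * (L * (k₁ + k₂))) := by gcongr
    _ = _ := by field_simp

lemma near_major {M M' C L : ℕ} [NeZero M] (hM' : 0 < M') (hL0 : 0 < L) (hML : M ^ 2 ∣ L)
    {g : ℕ → ℝ} (hg : ∀ n, 0 ≤ g n ∧ g n ≤ 1) {δ : ℝ} (hδ : 0 < δ) (hMC : M ≤ C)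
    (hδC : 4 * (M : ℝ) ^ 2 / δ ≤ C) (hdvd : ∀ m, 1 ≤ m → m ≤ C → m ∣ M * M')
    (hmaj : ∀ ζ : ℂ, ‖ζ‖ = 1 → δ / 2 * L ≤ ‖fs g L ζ‖ →
      ∃ m, 1 ≤ m ∧ m ≤ C ∧ ‖ζ ^ m - 1‖ ≤ C / L) (ζ : ℂ) (hζ : ‖ζ‖ = 1)
    (hl : δ * L ≤ ‖fs (fun t => g t - cav M L g (cell M L t)) L ζ‖) :
    ‖fs (fun t => g t - cav M L g (cell M L t)) L ζ - fs (fun t =>
      cav (M * M') L g (cell (M * M') L t) - cav M L g (cell M L t)) L ζ‖
      ≤ C / (M * M' : ℕ) * L := by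
  have hM : 0 < M := Nat.pos_of_ne_zero (NeZero.ne M)
  have hL' : (0 : ℝ) < L := by exact_mod_cast hL0
  have hG : ∀ c, 0 ≤ cav M L g c ∧ cav M L g c ≤ 1 := ce_mem _ _ hg
  have h2 : ∃ m, 1 ≤ m ∧ m ≤ C ∧ ‖ζ ^ m - 1‖ ≤ C / L := by
    by_cases h3 : δ / 2 * L ≤ ‖fs g L ζ‖
    · exact hmaj ζ hζ h3
    · rw [fs_sub] at hl
      have h4 := norm_sub_le (fs g L ζ) (fs (fun t => cav M L g (cell M L t)) L ζ)
      have h5 : δ / 2 * L ≤ ‖fs (fun t => cav M L g (cell M L t)) L ζ‖ := by linarith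
      obtain ⟨k', hk'⟩ := hML
      have hk0 : 0 < k' := Nat.pos_of_mul_pos_left (hk' ▸ hL0)
      have h6 := fs_cell_le hk0 (G := cav M L g)
        (fun c => by rw [abs_of_nonneg (hG c).1]; exact (hG c).2) hζ
      rw [← hk'] at h6
      refine ⟨M, hM, hMC, ?_⟩
      rw [le_div_iff₀ hL']
      refine le_trans ?_ hδC
      rw [le_div_iff₀ hδ]
      nlinarith [mul_le_mul_of_nonneg_right h5 (norm_nonneg (ζ ^ M - 1))]
  obtain ⟨m, hm1, hm2, hm3⟩ := h2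
  rw [← fs_sub]
  simp only [sub_sub_sub_cancel_right]
  exact fs_major_le (by positivity) hL0 (hdvd m hm1 hm2) hm1 hg hζ hm3

/-- An orientation of an interval. -/
def ori (A : ℤ) (k u : ℕ) : ℕ := if A < 0 then k - 1 - u else u

lemma ori_lt (A : ℤ) {k u : ℕ} (h : u < k) : ori A k u < k := by
  unfold ori; split_ifs <;> omega

lemma ori_mul (A : ℤ) {k u : ℕ} (h : u < k) :
    A * ori A k u = A * ori A k 0 + A.natAbs * u := by
  unfold ori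
  split_ifs with h1
  · obtain ⟨l, rfl⟩ : ∃ l, k = l + u + 1 := ⟨k - 1 - u, by omega⟩
    rw [show l + u + 1 - 1 - u = l by omega, show l + u + 1 - 1 - 0 = l + u by omega,
      Int.ofNat_natAbs_of_nonpos h1.le]
    push_cast
    ring
  · rw [Int.natAbs_of_nonneg (not_lt.1 h1)]
    simp

lemma sum_ori (A : ℤ) (k : ℕ) (f : ℕ → ℝ) : ∑ u ∈ range k, f (ori A k u) = ∑ u ∈ range k, f u := by
  unfold ori
  split_ifs
  · exact sum_range_reflect f k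
  · rfl

lemma sum_mod (M l : ℕ) (f : ℕ → ℝ) : ∑ n ∈ range (M * l), f (n % l) = M * ∑ x ∈ range l, f x := by
  induction M with
  | zero => simp
  | succ M ih =>
    have h : ∀ x ∈ range l, f ((M * l + x) % l) = f x := fun x hx => by
      rw [mul_comm, Nat.mul_add_mod, Nat.mod_eq_of_lt (mem_range.1 hx)]
    rw [add_mul, one_mul, sum_range_add, ih, sum_congr rfl h]
    push_cast
    ring

lemma geo {A B : ℤ} {E Q Q' d₁ d₂ e₂ k₁ k₂ ρ₁ ρ₂ l g C₀ : ℕ} (hE : 0 < E) (hρ₁ : 0 < ρ₁)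
    (hρ₂ : 0 < ρ₂) (hQ : Q = E * Q') (hcong : A * d₁ + B * d₂ ≡ E * g [ZMOD Q])
    (hN : d₁ * k₁ = e₂ * k₂) (hl : ρ₂ * l = ρ₁ * (d₁ * (Q * k₁)))
    (harch : (e₂ = d₂ ∧ ρ₂ * (A + B) = ρ₁ * E) ∨ (d₂ * Q ≤ e₂ ∧ ρ₂ * A = ρ₁ * E))
    (hC : (A.natAbs + B.natAbs) * ρ₂ ≤ C₀) {r j u v : ℕ} (hr : r < Q) (hj : j < Q) (hu : u < k₁)
    (hv : v < k₂) : ∃ t : ℤ, A * d₁ * (r + Q * (j * k₁ + u) : ℕ)
      + B * d₂ * (r + Q * (j * k₂ + v) : ℕ) = E * t ∧ |t - j * l| ≤ C₀ * l ∧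
      t ≡ g * r [ZMOD Q'] := by
  obtain ⟨w, hw⟩ := hcong.symm.dvd
  have hE' : (0 : ℤ) < E := by exact_mod_cast hE
  have hQ' : (Q : ℤ) = E * Q' := by exact_mod_cast hQ
  set t : ℤ := g * r + Q' * (w * r + A * d₁ * (j * k₁ + u) + B * d₂ * (j * k₂ + v)) with ht
  have h1 : A * d₁ * (r + Q * (j * k₁ + u) : ℕ) + B * d₂ * (r + Q * (j * k₂ + v) : ℕ) = E * t := by
    push_cast
    rw [ht]
    linear_combination r * hw + (w * r + A * d₁ * (j * k₁ + u) + B * d₂ * (j * k₂ + v)) * hQ'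
  refine ⟨t, h1, ?_, Int.modEq_iff_dvd.2
    ⟨-(w * r + A * d₁ * (j * k₁ + u) + B * d₂ * (j * k₂ + v)), by rw [ht]; ring⟩⟩
  have hb : ∀ {k x : ℕ}, x < k → r + Q * x ≤ Q * k := fun {k x} h => by
    have := Nat.mul_le_mul_left Q (Nat.succ_le_of_lt h)
    rw [Nat.mul_succ] at this
    omega
  have hx₁ : d₁ * (r + Q * u) ≤ d₁ * (Q * k₁) := Nat.mul_le_mul_left _ (hb hu)
  have hN' : (d₁ : ℤ) * k₁ = e₂ * k₂ := by exact_mod_cast hN
  have hl' : (ρ₂ : ℤ) * l = ρ₁ * (d₁ * (Q * k₁)) := by exact_mod_cast hl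
  obtain ⟨x, hx, h2⟩ : ∃ x : ℕ, x ≤ d₁ * (Q * k₁) ∧
      E * (t - j * l) = A * (d₁ * (r + Q * u) : ℕ) + B * x := by
    rcases harch with ⟨rfl, h3⟩ | ⟨h2, h3⟩
    · refine ⟨e₂ * (r + Q * v), ?_, ?_⟩
      · rw [mul_left_comm, hN, mul_left_comm]
        exact Nat.mul_le_mul_left _ (hb hv)
      · apply mul_left_cancel₀ (show (ρ₂ : ℤ) ≠ 0 by exact_mod_cast hρ₂.ne')
        push_cast at h1 ⊢
        linear_combination (-ρ₂ : ℤ) * h1 - E * j * hl' + (d₁ * Q * k₁ * j : ℤ) * h3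
          - (ρ₂ * B * Q * j : ℤ) * hN'
    · refine ⟨d₂ * (r + Q * (j * k₂ + v)), ?_, ?_⟩
      · have h4 : j * k₂ + v < Q * k₂ := by
          have := Nat.mul_le_mul_right k₂ (Nat.succ_le_of_lt hj)
          rw [Nat.succ_mul] at this
          omega
        calc _ ≤ d₂ * (Q * (Q * k₂)) := Nat.mul_le_mul_left _ (hb h4)
          _ = d₂ * Q * (Q * k₂) := by ring
          _ ≤ e₂ * (Q * k₂) := Nat.mul_le_mul_right _ h2
          _ = _ := by rw [mul_left_comm, ← hN, mul_left_comm]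
      · apply mul_left_cancel₀ (show (ρ₂ : ℤ) ≠ 0 by exact_mod_cast hρ₂.ne')
        push_cast at h1 ⊢
        linear_combination (-ρ₂ : ℤ) * h1 - E * j * hl' + (d₁ * Q * k₁ * j : ℤ) * h3
  have h3 : d₁ * (Q * k₁) ≤ ρ₂ * l := by rw [hl]; exact Nat.le_mul_of_pos_left _ hρ₁
  have h4 : A.natAbs * (d₁ * (r + Q * u)) + B.natAbs * x ≤ C₀ * l :=
    calc _ ≤ A.natAbs * (ρ₂ * l) + B.natAbs * (ρ₂ * l) :=
          add_le_add (Nat.mul_le_mul_left _ (hx₁.trans h3)) (Nat.mul_le_mul_left _ (hx.trans h3))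
      _ = (A.natAbs + B.natAbs) * ρ₂ * l := by ring
      _ ≤ _ := Nat.mul_le_mul_right _ hC
  calc |t - j * l| ≤ |E * (t - j * l)| := by
        rw [abs_mul, abs_of_pos hE']
        exact le_mul_of_one_le_left (abs_nonneg _) hE'
    _ ≤ (A.natAbs * (d₁ * (r + Q * u)) + B.natAbs * x : ℕ) := by
        rw [h2]
        refine (abs_add_le _ _).trans (le_of_eq ?_)
        rw [abs_mul, abs_mul, Nat.abs_cast, Nat.abs_cast, Nat.cast_add, Nat.cast_mul A.natAbs,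
          Nat.cast_mul B.natAbs, Int.natCast_natAbs, Int.natCast_natAbs]
    _ ≤ _ := by exact_mod_cast h4

end Pool.Agent.Lib.MP_a5a405_co.PR.G
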