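import Pool.Agent.Lib.MP_a5a405_co.Couple

/-!
The coupling of squarefree numbers with an arbitrary prescribed ratio.
-/

open Finset Filter Topology
open scoped Classical

namespace Pool.Agent.Lib.MP_a5a405_co.PR.G

/-- The coupling map with ratio `t`. -/
noncomputable def Couple_phi (t : ℝ) (Q g k : ℕ) : ℕ :=
  Q * ⌈t * ((k / Q : ℕ) + 1 : ℝ)⌉₊ + g * k % Q

lemma Couple_modEq (t : ℝ) (Q g k : ℕ) : Couple_phi t Q g k ≡ g * k [MOD Q] := by
  unfold Couple_phi Nat.ModEq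
  simp

lemma Couple_inj {t : ℝ} (hs : 1 ≤ t) {Q g : ℕ} (hQ : 0 < Q) (hg : g.Coprime Q) :
    Function.Injective (Couple_phi t Q g) := by
  intro k k' h
  have h1 : k ≡ k' [MOD Q] := by
    refine Nat.ModEq.cancel_left_of_coprime hg.symm ?_
    exact (Couple_modEq t Q g k).symm.trans (h ▸ Couple_modEq t Q g k')
  have h2 : g * k % Q = g * k' % Q := h1.mul_left g
  unfold Couple_phi at h
  rw [h2, add_left_inj, mul_right_inj' hQ.ne'] at h
  have key : ∀ a b : ℕ, a < b → ⌈t * (a + 1 : ℝ)⌉₊ < ⌈t * (b + 1 : ℝ)⌉₊ := by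
    intro a b hab
    have h3 : (a : ℝ) + 1 ≤ b := by exact_mod_cast hab
    have h4 : ⌈t * (a + 1 : ℝ) + 1⌉₊ ≤ ⌈t * (b + 1 : ℝ)⌉₊ := Nat.ceil_mono (by nlinarith)
    rw [Nat.ceil_add_one (by positivity)] at h4
    omega
  have h3 : k / Q = k' / Q := by
    rcases lt_trichotomy (k / Q) (k' / Q) with h3 | h3 | h3
    · exact absurd h (key _ _ h3).ne
    · exact h3
    · exact absurd h (key _ _ h3).ne'
  rw [← Nat.div_add_mod k Q, ← Nat.div_add_mod k' Q, h3, h1]

lemma Couple_bounds {t : ℝ} (hs : 1 ≤ t) {Q : ℕ} (hQ : 0 < Q) (g k : ℕ) :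
    t * k ≤ Couple_phi t Q g k ∧ (Couple_phi t Q g k : ℝ) ≤ t * k + (t + 2) * Q := by
  have h1 : (k : ℝ) = Q * (k / Q : ℕ) + (k % Q : ℕ) := by exact_mod_cast (Nat.div_add_mod k Q).symm
  have h2 : ((k % Q : ℕ) : ℝ) ≤ Q := by exact_mod_cast (Nat.mod_lt k hQ).le
  have h3 : ((g * k % Q : ℕ) : ℝ) ≤ Q := by exact_mod_cast (Nat.mod_lt _ hQ).le
  have h4 := Nat.le_ceil (t * ((k / Q : ℕ) + 1 : ℝ))
  have h5 := (Nat.ceil_lt_add_one (a := t * ((k / Q : ℕ) + 1 : ℝ)) (by positivity)).le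
  have hQ' : (0 : ℝ) ≤ Q := Nat.cast_nonneg _
  have h6 := mul_le_mul_of_nonneg_left h4 hQ'
  have h7 := mul_le_mul_of_nonneg_left h5 hQ'
  have h8 : (0 : ℝ) ≤ (k % Q : ℕ) := Nat.cast_nonneg _
  have h9 : (0 : ℝ) ≤ (g * k % Q : ℕ) := Nat.cast_nonneg _
  have ht0 : (0 : ℝ) ≤ t := by linarith
  have h10 := mul_le_mul_of_nonneg_left h2 ht0
  have h11 := mul_nonneg ht0 h8
  have h12 : t * k = t * (Q * (k / Q : ℕ)) + t * (k % Q : ℕ) := by rw [← mul_add, ← h1]
  unfold Couple_phi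
  rw [Nat.cast_add, Nat.cast_mul]
  constructor <;> nlinarith

lemma Couple_eventually {t : ℝ} (hs : 1 ≤ t) {N : ℕ} (hN : t < N) {Q : ℕ} (hQ : 0 < Q) (g : ℕ)
    {η : ℝ} (hη : 0 < η) :
    ∃ K0 : ℕ, 0 < K0 ∧ ∀ k, K0 ≤ k → Couple_phi t Q g k ≤ N * k ∧ t * k ≤ Couple_phi t Q g k ∧
      (Couple_phi t Q g k : ℝ) ≤ (1 + η) * (t * k) := by
  have h1 : Tendsto (fun k : ℕ => t + (t + 2) * (Q : ℝ) / k) atTop (𝓝 (t + 0)) :=
    tendsto_const_nhds.add (tendsto_const_div_atTop_nhds_zero_nat _)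
  rw [add_zero] at h1
  have h2 := h1.eventually (gt_mem_nhds (by nlinarith : t < (1 + η) * t))
  have h3 := h1.eventually (gt_mem_nhds hN)
  obtain ⟨K0, hK0⟩ := eventually_atTop.1 (h2.and h3)
  refine ⟨K0 + 1, Nat.succ_pos _, fun k hk => ?_⟩
  obtain ⟨h4, h5⟩ := hK0 k (by omega)
  obtain ⟨h6, h7⟩ := Couple_bounds hs hQ g k
  have hk0 : (0 : ℝ) < k := by exact_mod_cast (by omega : 0 < k)
  have h8 : (Couple_phi t Q g k : ℝ) ≤ (t + (t + 2) * (Q : ℝ) / k) * k := by
    rw [add_mul, div_mul_cancel₀ _ hk0.ne']; exact h7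
  refine ⟨?_, h6, ?_⟩
  · have : (Couple_phi t Q g k : ℝ) ≤ N * k := h8.trans (mul_le_mul_of_nonneg_right h5.le hk0.le)
    exact_mod_cast this
  · rw [← mul_assoc]
    exact h8.trans (mul_le_mul_of_nonneg_right h4.le hk0.le)

theorem Couple_main {t : ℝ} (ht : 1 ≤ t) {N : ℕ} (hN : t < N) {Q : ℕ} (hQ0 : 0 < Q)
    (hQ : ∀ p, p.Prime → p ≤ 100 * N ^ 2 → p ∣ Q) {g : ℕ}
    (hg : g.Coprime Q) {η : ℝ} (hη : 0 < η) :
    ∃ σ : ℝ, 1 ≤ σ ∧ ∃ P : Finset ℕ, (∀ p ∈ P, p.Prime ∧ p.Coprime Q) ∧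
      ∀ G : Finset ℕ → Prop,
        wsum (fun p => (p : ℝ) ^ (-σ)) P (fun T => if G T then 0 else 1)
          ≤ 1 / (20 * (N : ℝ) ^ 2) * wsum (fun p => (p : ℝ) ^ (-σ)) P (fun _ => 1) →
        ∃ T ⊆ P, ∃ T' ⊆ P, G T ∧ G T' ∧ ∏ p ∈ T', p ≡ g * ∏ p ∈ T, p [MOD Q] ∧
          t * ((∏ p ∈ T, p : ℕ) : ℝ) ≤ ((∏ p ∈ T', p : ℕ) : ℝ) ∧
          ((∏ p ∈ T', p : ℕ) : ℝ) ≤ (1 + η) * (t * ((∏ p ∈ T, p : ℕ) : ℝ)) := by
  have hN1 : (1 : ℝ) ≤ N := ht.trans hN.le
  have hN1' : 1 ≤ N := by exact_mod_cast hN1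
  have hD1 : (1 : ℝ) ≤ (N : ℝ) ^ 2 := one_le_pow₀ hN1
  have hD1' : 1 ≤ N ^ 2 := Nat.one_le_pow _ _ hN1'
  obtain ⟨K0, hK0, hK⟩ := Couple_eventually ht hN hQ0 g hη
  obtain ⟨σ, hσ1, hσ2, hZ⟩ := uw_large hQ0 (10 * K0)
  have hsum := uw_summable Q hσ1
  set u := uw Q σ with hu
  set Z := ∑' k, u k with hZdef
  have hK0' : (0 : ℝ) < K0 := by exact_mod_cast hK0
  have hZ0 : 0 < Z := by linarith
  obtain ⟨X, hX, hXK⟩ := ((hsum.hasSum.tendsto_sum_nat.eventually
    (lt_mem_nhds (by linarith : 9 / 10 * Z < Z))).and (eventually_ge_atTop K0)).exists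
  have hle : ∀ s : Finset ℕ, ∑ k ∈ s, u k ≤ Z := fun s =>
    hsum.sum_le_tsum s fun k _ => uw_nonneg Q σ k
  set P := (range (N * X)).filter fun p => p.Prime ∧ p.Coprime Q with hP
  have hPp : ∀ p ∈ P, p.Prime ∧ p.Coprime Q := fun p hp => (mem_filter.1 hp).2
  refine ⟨σ, hσ1.le, P, hPp, fun G hG => ?_⟩
  have h0 : u 0 = 0 := by
    rw [hu, uw, if_neg]
    rw [Nat.coprime_zero_left]
    rintro rfl
    simpa using hQ 2 Nat.prime_two (by omega)
  have hpf : ∀ k < N * X, k.Coprime Q → k.primeFactors ⊆ P := by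
    intro k hk hc p hp
    exact mem_filter.2 ⟨mem_range.2 ((Nat.le_of_mem_primeFactors hp).trans_lt hk),
      Nat.prime_of_mem_primeFactors hp, hc.coprime_dvd_left (Nat.dvd_of_mem_primeFactors hp)⟩
  have hZsq : wsum (fun p => (p : ℝ) ^ (-σ)) P (fun _ => 1) ≤ Z := by
    refine le_trans (le_of_eq ?_) (hle (P.powerset.image fun T => ∏ p ∈ T, p))
    rw [sum_image]
    · refine sum_congr rfl fun T hT => ?_
      rw [mul_one, prod_rpow_neg, hu, uw, if_pos]
      exact Nat.Coprime.prod_left fun p hp => (hPp p (mem_powerset.1 hT hp)).2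
    · intro T hT T' hT' h
      have h1 := Nat.primeFactors_prod fun p hp => (hPp p (mem_powerset.1 hT hp)).1
      have h2 := Nat.primeFactors_prod fun p hp => (hPp p (mem_powerset.1 hT' hp)).1
      dsimp only at h
      rw [← h1, ← h2, h]
  set bad : ℕ → ℝ := fun k => if Squarefree k ∧ G k.primeFactors then 0 else u k with hbad
  have hbad0 : ∀ k, 0 ≤ bad k := fun k => by
    simp only [hbad]; split_ifs; exacts [le_rfl, uw_nonneg _ _ _]
  have hβ : ∑ k ∈ range (N * X), bad k ≤ 7 / 100 * (Z / (N : ℝ) ^ 2) := by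
    have h1 : ∀ k ∈ range (N * X), bad k ≤ (∑ n ∈ Ioo (100 * N ^ 2) (N * X), if n * n ∣ k then u k else 0)
        + (if Squarefree k ∧ k.Coprime Q ∧ ¬ G k.primeFactors then u k else 0) := by
      intro k hk
      have h2 : ∀ n ∈ Ioo (100 * N ^ 2) (N * X), 0 ≤ if n * n ∣ k then u k else 0 := fun n _ => by
        split_ifs; exacts [uw_nonneg _ _ _, le_rfl]
      have h3 := sum_nonneg h2
      have h4 : 0 ≤ if Squarefree k ∧ k.Coprime Q ∧ ¬ G k.primeFactors then u k else 0 := by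
        split_ifs; exacts [uw_nonneg _ _ _, le_rfl]
      by_cases hc : k.Coprime Q
      swap
      · have : bad k = 0 := by simp [hbad, hu, uw, hc]
        linarith
      rcases Nat.eq_zero_or_pos k with rfl | hk0
      · have : bad 0 = 0 := by simp [hbad, h0]
        linarith
      by_cases hs : Squarefree k
      · by_cases hGk : G k.primeFactors
        · have : bad k = 0 := by simp [hbad, hs, hGk]
          linarith
        · rw [if_pos ⟨hs, hc, hGk⟩]
          have : bad k = u k := by simp [hbad, hGk]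
          linarith
      · have h5 : bad k = u k := by simp [hbad, hs]
        rw [Nat.squarefree_iff_prime_squarefree] at hs
        push Not at hs
        obtain ⟨p, hp, hpk⟩ := hs
        have h6 : p ∣ k := (dvd_mul_right p p).trans hpk
        have h7 : p ∈ Ioo (100 * N ^ 2) (N * X) := by
          refine mem_Ioo.2 ⟨?_, (Nat.le_of_dvd hk0 h6).trans_lt (mem_range.1 hk)⟩
          by_contra h8
          exact hp.one_lt.ne' (Nat.eq_one_of_dvd_coprimes hc h6 (hQ p hp (not_lt.1 h8)))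
        have h8 := single_le_sum h2 h7
        rw [if_pos hpk] at h8
        linarith
    refine (sum_le_sum h1).trans ?_
    rw [sum_add_distrib, sum_comm]
    have h2 : ∀ n ∈ Ioo (100 * N ^ 2) (N * X), ∑ k ∈ range (N * X), (if n * n ∣ k then u k else 0)
        ≤ ((n : ℝ) ^ 2)⁻¹ * Z := by
      intro n hn
      have hn0 : 0 < n := by have := (mem_Ioo.1 hn).1; omega
      have hn1 : (1 : ℝ) ≤ n := by exact_mod_cast hn0
      rw [← sum_filter]
      refine le_trans ?_ (mul_le_mul_of_nonneg_left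
        (hle (((range (N * X)).filter (n * n ∣ ·)).image (· / (n * n)))) (by positivity))
      rw [sum_image, mul_sum]
      · refine sum_le_sum fun k hk => ?_
        obtain ⟨j, rfl⟩ := (mem_filter.1 hk).2
        rw [Nat.mul_div_cancel_left _ (by positivity)]
        simp only [hu, uw]
        split_ifs with h3 h4
        · push_cast
          rw [Real.mul_rpow (by positivity) (by positivity)]
          refine mul_le_mul_of_nonneg_right ?_ (by positivity)
          rw [← Real.rpow_neg_one, sq]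
          exact Real.rpow_le_rpow_of_exponent_le (by nlinarith) (by linarith)
        · exact absurd (h3.coprime_dvd_left (dvd_mul_left _ _)) h4
        · positivity
        · simp
      · intro a ha b hb h
        obtain ⟨a', rfl⟩ := (mem_filter.1 ha).2
        obtain ⟨b', rfl⟩ := (mem_filter.1 hb).2
        dsimp only at h
        rw [Nat.mul_div_cancel_left _ (by positivity), Nat.mul_div_cancel_left _ (by positivity)] at h
        rw [h]
    have h3 := sum_le_sum h2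
    rw [← sum_mul] at h3
    have h4 := mul_le_mul_of_nonneg_right (sum_Ioo_inv_sq_le (α := ℝ) (100 * N ^ 2) (N * X)) hZ0.le
    have h5 : ∑ k ∈ range (N * X), (if Squarefree k ∧ k.Coprime Q ∧ ¬ G k.primeFactors then u k else 0)
        ≤ wsum (fun p => (p : ℝ) ^ (-σ)) P (fun T => if G T then 0 else 1) := by
      rw [← sum_filter]
      unfold wsum
      beta_reduce
      set Y := (range (N * X)).filter
        fun k => Squarefree k ∧ k.Coprime Q ∧ ¬ G k.primeFactors with hY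
      refine le_trans (le_of_eq ?_) (sum_le_sum_of_subset_of_nonneg (s := Y.image Nat.primeFactors)
        ?_ fun T _ _ => mul_nonneg (prod_nonneg fun p _ => by positivity) (by split_ifs <;> simp))
      · rw [sum_image]
        · refine sum_congr rfl fun k hk => ?_
          obtain ⟨-, h6, h7, h8⟩ := mem_filter.1 hk
          rw [if_neg h8, mul_one, prod_rpow_neg, Nat.prod_primeFactors_of_squarefree h6, hu, uw,
            if_pos h7]
        · intro a ha b hb h
          rw [← Nat.prod_primeFactors_of_squarefree (mem_filter.1 ha).2.1,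
            ← Nat.prod_primeFactors_of_squarefree (mem_filter.1 hb).2.1, h]
      · intro T hT
        obtain ⟨k, hk, rfl⟩ := mem_image.1 hT
        obtain ⟨h6, -, h7, -⟩ := mem_filter.1 hk
        exact mem_powerset.2 (hpf k (mem_range.1 h6) h7)
    have h6 : 2 / (((100 * N ^ 2 : ℕ) : ℝ) + 1) * Z ≤ 2 / 100 * (Z / (N : ℝ) ^ 2) := by
      rw [show 2 / 100 * (Z / (N : ℝ) ^ 2) = 2 / (100 * (N : ℝ) ^ 2) * Z by field_simp]
      refine mul_le_mul_of_nonneg_right ?_ hZ0.le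
      push_cast
      exact div_le_div_of_nonneg_left (by norm_num) (by positivity) (by linarith)
    have h7 : 1 / (20 * (N : ℝ) ^ 2) * wsum (fun p => (p : ℝ) ^ (-σ)) P (fun _ => 1)
        ≤ 1 / 20 * (Z / (N : ℝ) ^ 2) := by
      rw [show 1 / 20 * (Z / (N : ℝ) ^ 2) = 1 / (20 * (N : ℝ) ^ 2) * Z by field_simp]
      exact mul_le_mul_of_nonneg_left hZsq (by positivity)
    linarith
  by_contra hcon
  have h1 : ∀ k ∈ Ico K0 X, u k ≤ bad k + (N : ℝ) ^ 2 * bad (Couple_phi t Q g k) := by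
    intro k hk
    obtain ⟨hk1, hk2⟩ := mem_Ico.1 hk
    obtain ⟨h2, h3, h4⟩ := hK k hk1
    have h5 := hbad0 k
    have h6 := mul_nonneg (zero_le_one.trans hD1) (hbad0 (Couple_phi t Q g k))
    have hkN : k < N * X := lt_of_lt_of_le hk2 (Nat.le_mul_of_pos_left _ hN1')
    have hkN' : Couple_phi t Q g k < N * X := lt_of_le_of_lt h2 (Nat.mul_lt_mul_of_pos_left hk2 hN1')
    by_cases hc : k.Coprime Q
    swap
    · have : u k = 0 := by simp [hu, uw, hc]
      linarith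
    have hc' : (Couple_phi t Q g k).Coprime Q := by
      rw [Nat.coprime_iff_gcd_eq_one, (Couple_modEq t Q g k).gcd_eq]
      exact Nat.Coprime.mul_left hg hc
    by_cases h7 : Squarefree k ∧ G k.primeFactors
    swap
    · have : bad k = u k := by simp only [hbad, if_neg h7]
      linarith
    by_cases h8 : Squarefree (Couple_phi t Q g k) ∧ G (Couple_phi t Q g k).primeFactors
    · refine absurd ⟨_, hpf k hkN hc, _, hpf _ hkN' hc', h7.2, h8.2, ?_⟩ hcon
      rw [Nat.prod_primeFactors_of_squarefree h7.1, Nat.prod_primeFactors_of_squarefree h8.1]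
      exact ⟨Couple_modEq t Q g k, h3, h4⟩
    · have h9 : bad (Couple_phi t Q g k) = u (Couple_phi t Q g k) := by simp only [hbad, if_neg h8]
      have hk0 : (0 : ℝ) < k := by exact_mod_cast (by omega : 0 < k)
      have h10 : (0 : ℝ) < Couple_phi t Q g k := lt_of_lt_of_le (by positivity) h3
      have h11 : ((N : ℝ) * k) ^ (-σ) ≤ (Couple_phi t Q g k : ℝ) ^ (-σ) :=
        Real.rpow_le_rpow_of_nonpos h10 (by exact_mod_cast h2) (by linarith)
      have h12 : (N : ℝ) ^ (-2 : ℝ) ≤ (N : ℝ) ^ (-σ) :=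
        Real.rpow_le_rpow_of_exponent_le hN1 (by linarith)
      rw [Real.mul_rpow (by positivity) hk0.le] at h11
      have h13 : (N : ℝ) ^ (-2 : ℝ) = ((N : ℝ) ^ 2)⁻¹ := by
        rw [Real.rpow_neg (by positivity)]; norm_num
      have h14 : (0 : ℝ) ≤ (k : ℝ) ^ (-σ) := by positivity
      rw [h9]
      simp only [hu, uw, if_pos hc, if_pos hc']
      rw [h13] at h12
      have h15 := mul_le_mul_of_nonneg_left ((mul_le_mul_of_nonneg_right h12 h14).trans h11)
        (zero_le_one.trans hD1)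
      rw [← mul_assoc, mul_inv_cancel₀ (by positivity), one_mul] at h15
      linarith
  have h2 := sum_le_sum h1
  rw [sum_add_distrib, ← mul_sum, sum_Ico_eq_sub _ hXK] at h2
  have h3 : ∑ k ∈ Ico K0 X, bad k ≤ ∑ k ∈ range (N * X), bad k :=
    sum_le_sum_of_subset_of_nonneg (fun k hk => mem_range.2
      (lt_of_lt_of_le (mem_Ico.1 hk).2 (Nat.le_mul_of_pos_left _ hN1')))
      fun k _ _ => hbad0 k
  have h4 : ∑ k ∈ Ico K0 X, bad (Couple_phi t Q g k) ≤ ∑ k ∈ range (N * X), bad k := by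
    rw [← sum_image (s := Ico K0 X) (g := Couple_phi t Q g) fun a _ b _ h => Couple_inj ht hQ0 hg h]
    refine sum_le_sum_of_subset_of_nonneg (fun k hk => ?_) fun k _ _ => hbad0 k
    obtain ⟨j, hj, rfl⟩ := mem_image.1 hk
    exact mem_range.2 (lt_of_le_of_lt (hK j (mem_Ico.1 hj).1).1
      (Nat.mul_lt_mul_of_pos_left (mem_Ico.1 hj).2 hN1'))
  have h5 : ∑ k ∈ range K0, u k ≤ K0 := by
    have : ∀ k ∈ range K0, u k ≤ 1 := by
      intro k _
      rcases Nat.eq_zero_or_pos k with rfl | hk0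
      · rw [h0]; exact zero_le_one
      · exact (uw_le _ _ _).trans
          (Real.rpow_le_one_of_one_le_of_nonpos (by exact_mod_cast hk0) (by linarith))
    simpa using sum_le_sum this
  have h6 : (N : ℝ) ^ 2 * ∑ k ∈ Ico K0 X, bad (Couple_phi t Q g k) ≤ 7 / 100 * Z := by
    refine (mul_le_mul_of_nonneg_left (h4.trans hβ) (zero_le_one.trans hD1)).trans (le_of_eq ?_)
    field_simp
  have h7 : Z / (N : ℝ) ^ 2 ≤ Z := div_le_self hZ0.le hD1
  linarith

theorem Couple_ge {Ω ι : Type} [Fintype ι] (E : Mean Ω) (V : ι → ℕ → ℕ → Ω → ℝ)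
    (hV : ∀ i a b, Bdd (V i a b)) {M : ℕ} (hM : 0 < M)
    (hinv : ∀ i a b a' b' c d, 0 < c → 0 < d → d.Coprime M →
      E.m (fun x => (V i (a * c) (b * d) x - V i (a' * c) (b' * d) x) ^ 2)
        = E.m (fun x => (V i a b x - V i a' b' x) ^ 2))
    (htk : ∀ i (P : Finset ℕ), (∀ p ∈ P, p.Prime ∧ p.Coprime M) →
      ∑ p ∈ P, E.m (fun x => (V i p 1 x - V i 1 p x) ^ 2) / p ≤ 1)
    {g : ℕ} (hg : g.Coprime M) {t η γ : ℝ} (ht : 1 ≤ t) (hη : 0 < η) (hγ : 0 < γ) :
    ∃ a b : ℕ, 0 < a ∧ 0 < b ∧ b.Coprime M ∧ a ≡ g * b [MOD M] ∧ t * b ≤ a ∧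
      (a : ℝ) ≤ (1 + η) * (t * b) ∧ ∀ i, E.nrm (fun x => V i a b x - V i b a x) ≤ γ := by
  obtain ⟨N, hN⟩ := exists_nat_gt t
  have hN0 : (0 : ℝ) < N := by linarith
  set e : ι → ℕ → ℝ := fun i p => E.m (fun x => (V i p 1 x - V i 1 p x) ^ 2) with he
  have he0 : ∀ i p, 0 ≤ e i p := fun i p => E.sq_nonneg' ((hV _ _ _).sub (hV _ _ _))
  set f : ℕ → ℝ := fun p => if p.Prime ∧ p.Coprime M then ∑ i, e i p / p else 0 with hf
  have hf0 : ∀ p, 0 ≤ f p := fun p => by
    simp only [hf]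
    split_ifs
    exacts [sum_nonneg fun i _ => div_nonneg (he0 i p) (Nat.cast_nonneg _), le_rfl]
  have hsum : Summable f := by
    refine summable_of_sum_le (c := Fintype.card ι) hf0 fun u => ?_
    rw [← sum_filter, sum_comm]
    simpa using sum_le_sum (s := univ) fun i _ =>
      htk i (u.filter fun p => p.Prime ∧ p.Coprime M) fun p hp => (mem_filter.1 hp).2
  obtain ⟨s, hs⟩ := summable_iff_vanishing_norm.1 hsum ((γ / 2) ^ 2 / (20 * (N : ℝ) ^ 2))
    (by positivity)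
  set B := max (100 * N ^ 2) (s.sup id) with hB
  set Q := M * B.factorial with hQ
  have hQ0 : 0 < Q := mul_pos hM (Nat.factorial_pos _)
  have hBQ : ∀ p, p.Prime → p ≤ B → p ∣ Q := fun p hp h =>
    (Nat.dvd_factorial hp.pos h).mul_left _
  obtain ⟨g', hg1, hg2, hg3⟩ := Nat.forall_exists_prime_gt_and_modEq Q hM.ne' hg
  obtain ⟨σ, hσ, P, hP, hG⟩ := Couple_main ht hN hQ0
    (fun p hp h => hBQ p hp (h.trans (le_max_left _ _)))
    (g := g') ((Nat.Prime.coprime_iff_not_dvd hg2).2 fun h => (Nat.le_of_dvd hQ0 h).not_gt hg1) hη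
  have hPM : ∀ p ∈ P, p.Coprime M := fun p hp => (hP p hp).2.coprime_dvd_right (dvd_mul_right _ _)
  have hpos : ∀ T ⊆ P, 0 < ∏ p ∈ T, p := fun T hT => prod_pos fun p hp => (hP p (hT hp)).1.pos
  have hco : ∀ T ⊆ P, (∏ p ∈ T, p).Coprime M := fun T hT =>
    Nat.Coprime.prod_left fun p hp => hPM p (hT hp)
  set w : ℕ → ℝ := fun p => (p : ℝ) ^ (-σ) with hw
  have hw0 : ∀ p, 0 ≤ w p := fun p => by simp only [hw]; positivity
  set Z := wsum w P (fun _ => 1) with hZ
  have hZ0 : 0 < Z := one_pos.trans_le (wsum_pos hw0 P)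
  set F : ι → Finset ℕ → Ω → ℝ := fun i T => V i (∏ p ∈ T, p) (∏ p ∈ P \ T, p) with hF
  have hFb : ∀ i T, Bdd (F i T) := fun i T => hV _ _ _
  set c : ι → Ω → ℝ := fun i x => wsum w P (fun T => F i T x) / Z with hc
  have hcb : ∀ i, Bdd (c i) := fun i => (bdd_wsum w P (hFb i)).div_const _
  set v : ι → Finset ℕ → ℝ := fun i T => E.m (fun x => (F i T x - c i x) ^ 2) with hv
  have hv0 : ∀ i T, 0 ≤ v i T := fun i T => E.sq_nonneg' ((hFb i T).sub (hcb i))
  have h1 : ∀ i, wsum w P (v i) ≤ Z * ∑ p ∈ P, e i p / p := by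
    intro i
    have h2 := E.mono (bdd_wsum w P fun T => ((hFb i T).sub (hcb i)).pow 2)
      (Bdd.sum P fun p => (Bdd.const (w p)).mul (bdd_wsum w (P.erase p) fun T =>
        ((hFb i (insert p T)).sub (hFb i T)).pow 2)) fun x => es' hw0 P fun T => F i T x
    rw [m_wsum, E.sum] at h2
    refine h2.trans ?_
    rw [mul_sum]
    refine sum_le_sum fun p hp => ?_
    rw [E.const_mul, m_wsum, mul_comm]
    have hp1 : (1 : ℝ) ≤ p := by exact_mod_cast (hP p hp).1.pos
    have h3 : wsum w (P.erase p) (fun T => E.m fun x => (F i (insert p T) x - F i T x) ^ 2)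
        ≤ Z * e i p := by
      have h4 : ∀ T ⊆ P.erase p, (E.m fun x => (F i (insert p T) x - F i T x) ^ 2) ≤ e i p := by
        intro T hT
        have h5 : p ∉ T := fun h => by simpa using hT h
        have h6 : P \ T = insert p (P \ insert p T) := by
          ext q
          by_cases h : q = p
          · subst h; simp [hp, h5]
          · simp [h]
        have h7 := hinv i p 1 1 p _ _ (hpos T (hT.trans (erase_subset _ _)))
          (hpos (P \ insert p T) sdiff_subset) (hco (P \ insert p T) sdiff_subset)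
        simp only [one_mul] at h7
        simp only [hF]
        rw [prod_insert h5, h6, prod_insert (by simp), h7]
      refine (wsum_mono hw0 _ h4).trans ?_
      have h5 : wsum w (P.erase p) (fun _ => e i p) = wsum w (P.erase p) (fun _ => 1) * e i p := by
        simp [wsum, sum_mul]
      rw [h5]
      refine mul_le_mul_of_nonneg_right ?_ (he0 i p)
      exact sum_le_sum_of_subset_of_nonneg (powerset_mono.2 (erase_subset _ _))
        fun T _ _ => mul_nonneg (prod_nonneg fun p _ => hw0 p) zero_le_one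
    have h4 : w p ≤ 1 / p := by
      rw [one_div, ← Real.rpow_neg_one]
      exact Real.rpow_le_rpow_of_exponent_le hp1 (by linarith)
    calc _ ≤ Z * e i p * (1 / p) :=
          mul_le_mul h3 h4 (hw0 p) (mul_nonneg hZ0.le (he0 i p))
      _ = _ := by ring
  have h2 : ∑ i, ∑ p ∈ P, e i p / p ≤ (γ / 2) ^ 2 / (20 * (N : ℝ) ^ 2) := by
    have h3 := hs P (disjoint_left.2 fun p hp hps => (hP p hp).1.one_lt.ne'
      (Nat.eq_one_of_dvd_coprimes (hP p hp).2 dvd_rfl
        (hBQ p (hP p hp).1 ((le_sup (f := id) hps).trans (le_max_right _ _)))))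
    rw [sum_comm]
    refine le_trans (le_of_eq ?_) ((le_abs_self _).trans h3.le)
    exact sum_congr rfl fun p hp => by simp only [hf]; rw [if_pos ⟨(hP p hp).1, hPM p hp⟩]
  obtain ⟨T, hT, T', hT', hG1, hG2, h3, h4, h5⟩ := hG (fun T => ∑ i, v i T ≤ (γ / 2) ^ 2) (by
    have h6 : wsum w P (fun T => if ∑ i, v i T ≤ (γ / 2) ^ 2 then 0 else 1)
        ≤ wsum w P (fun T => (∑ i, v i T) / (γ / 2) ^ 2) := by
      refine wsum_mono hw0 P fun T _ => ?_
      split_ifs with h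
      · exact div_nonneg (sum_nonneg fun i _ => hv0 i T) (sq_nonneg _)
      · rw [le_div_iff₀ (by positivity), one_mul]; exact (not_le.1 h).le
    have h7 : wsum w P (fun T => (∑ i, v i T) / (γ / 2) ^ 2) = (∑ i, wsum w P (v i)) / (γ / 2) ^ 2 := by
      unfold wsum
      rw [sum_comm, sum_div]
      exact sum_congr rfl fun T _ => by rw [← mul_sum, mul_div_assoc]
    have h8 := sum_le_sum (s := univ) fun i _ => h1 i
    rw [← mul_sum] at h8
    refine le_trans (le_of_eq (by congr)) (h6.trans ?_)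
    rw [h7, div_le_iff₀ (by positivity)]
    refine (h8.trans (mul_le_mul_of_nonneg_left h2 hZ0.le)).trans (le_of_eq ?_)
    ring)
  refine ⟨_, _, hpos T' hT', hpos T hT, hco T hT,
    (h3.of_dvd (dvd_mul_right _ _)).trans (hg3.mul_right _), h4, h5, fun i => ?_⟩
  have h6 : ∀ T, ∑ i, v i T ≤ (γ / 2) ^ 2 → E.nrm (fun x => F i T x - c i x) ≤ γ / 2 := by
    intro T h
    rw [Mean.nrm, Real.sqrt_le_left (by positivity)]
    exact (single_le_sum (fun j _ => hv0 j T) (mem_univ i)).trans h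
  have h7 := E.nrm_sub_le (hFb i T') (hcb i) (hFb i T)
  rw [E.nrm_sub_comm (c i)] at h7
  have h8 : E.nrm (fun x => V i (∏ p ∈ T', p) (∏ p ∈ T, p) x - V i (∏ p ∈ T, p) (∏ p ∈ T', p) x)
      = E.nrm (fun x => F i T' x - F i T x) := by
    unfold Mean.nrm
    rw [← hinv i _ _ _ _ 1 _ one_pos (hpos P subset_rfl) (hco P subset_rfl),
      ← hinv i _ (∏ p ∈ P \ T', p) _ (∏ p ∈ P \ T, p) 1 _ one_pos
        (mul_pos (hpos T hT) (hpos T' hT')) (Nat.Coprime.mul_left (hco T hT) (hco T' hT'))]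
    have e1 : (∏ p ∈ P \ T', p) * ((∏ p ∈ T, p) * ∏ p ∈ T', p) = (∏ p ∈ T, p) * ∏ p ∈ P, p := by
      rw [← prod_sdiff hT']; ring
    have e2 : (∏ p ∈ P \ T, p) * ((∏ p ∈ T, p) * ∏ p ∈ T', p) = (∏ p ∈ T', p) * ∏ p ∈ P, p := by
      rw [← prod_sdiff hT]; ring
    rw [e1, e2]
  linarith [h6 T hG1, h6 T' hG2]

theorem couple_mean {Ω ι : Type} [Fintype ι] (E : Mean Ω) (V : ι → ℕ → ℕ → Ω → ℝ)
    (hV : ∀ i a b, Bdd (V i a b)) {M : ℕ} (hM : 0 < M)
    (hinv : ∀ i a b a' b' c d, 0 < c → 0 < d → d.Coprime M →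
      E.m (fun x => (V i (a * c) (b * d) x - V i (a' * c) (b' * d) x) ^ 2)
        = E.m (fun x => (V i a b x - V i a' b' x) ^ 2))
    (htk : ∀ i (P : Finset ℕ), (∀ p ∈ P, p.Prime ∧ p.Coprime M) →
      ∑ p ∈ P, E.m (fun x => (V i p 1 x - V i 1 p x) ^ 2) / p ≤ 1)
    {g : ℕ} (hg : g.Coprime M) {t η γ : ℝ} (ht : 0 < t) (hη : 0 < η) (hγ : 0 < γ) :
    ∃ a b : ℕ, 0 < a ∧ 0 < b ∧ b.Coprime M ∧ a ≡ g * b [MOD M] ∧
      ((t * b ≤ a ∧ (a : ℝ) ≤ (1 + η) * (t * b)) ∨ ((a : ℝ) ≤ t * b ∧ t * b ≤ (1 + η) * a)) ∧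
      ∀ i, E.nrm (fun x => V i a b x - V i b a x) ≤ γ := by
  rcases le_total 1 t with h1 | h1
  · obtain ⟨a, b, k1, k2, k3, k4, k5, k6, k7⟩ := Couple_ge E V hV hM hinv htk hg h1 hη hγ
    exact ⟨a, b, k1, k2, k3, k4, Or.inl ⟨k5, k6⟩, k7⟩
  · have hg' : (g ^ (M.totient - 1)).Coprime M := hg.pow_left _
    have hinvg : g * g ^ (M.totient - 1) ≡ 1 [MOD M] := by
      rw [← pow_succ', Nat.sub_add_cancel (Nat.totient_pos.2 hM)]
      exact Nat.ModEq.pow_totient hg
    obtain ⟨a, b, k1, k2, k3, k4, k5, k6, k7⟩ := Couple_ge E V hV hM hinv htk hg'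
      ((one_le_inv₀ ht).2 h1) hη hγ
    refine ⟨b, a, k2, k1, ?_, ?_, Or.inr ⟨?_, ?_⟩, fun i => ?_⟩
    · rw [Nat.coprime_iff_gcd_eq_one, k4.gcd_eq]
      exact Nat.Coprime.mul_left hg' k3
    · have h2 := k4.mul_left g
      have h3 := hinvg.mul_right b
      rw [one_mul] at h3
      rw [← mul_assoc] at h2
      exact (h2.trans h3).symm
    · have h2 := mul_le_mul_of_nonneg_left k5 ht.le
      rwa [← mul_assoc, mul_inv_cancel₀ ht.ne', one_mul] at h2
    · refine (mul_le_mul_of_nonneg_left k6 ht.le).trans (le_of_eq ?_)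
      field_simp
    · rw [E.nrm_sub_comm]
      exact k7 i

end Pool.Agent.Lib.MP_a5a405_co.PR.G
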