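import Pool.Agent.Lib.MP_a5a405_co.G.Count

/-!
The deterministic inequality: if there is no solution, the main term is small.
-/

open Finset Complex
open scoped Classical

namespace Pool.Agent.Lib.MP_a5a405_co.PR.G

lemma cav_ori {Q k : ℕ} [NeZero Q] (hk : 0 < k) (A : ℤ) (f : ℕ → ℝ) {c : ZMod Q × ℕ}
    (hc : c.2 < Q) : ∑ u ∈ range k, f (c.1.val + Q * (c.2 * k + ori A k u))
      = k * cav Q (Q ^ 2 * k) f c := by
  obtain ⟨r, j⟩ := c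
  have hk' : (k : ℝ) ≠ 0 := by exact_mod_cast hk.ne'
  rw [sum_ori A k fun u => f (r.val + Q * (j * k + u)), cav_def, card_fib hk r hc,
    sum_fib hk r hc, sum_Ico_eq_sum_range, mul_div_cancel₀ _ hk', add_mul, one_mul,
    Nat.add_sub_cancel_left]

lemma rep2 {Q Q' E k₁ k' d₁ d₂ a b g l C₀ : ℕ} [NeZero Q] (hQ : Q = E * Q') (ha : 0 < a)
    (hb : 0 < b) (hd₁ : 0 < d₁) (hco : d₁.Coprime d₂) (hg : g.Coprime Q') (hl : 0 < l)
    (Cs : Finset (ZMod Q × ℕ)) (base : ZMod Q × ℕ → ℕ)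
    (h : ∀ c ∈ Cs, ∀ u < k₁, ∀ v < d₁ * k',
      |((base c + Q' * a * d₁ * u + Q' * b * d₂ * v : ℕ) : ℤ) - c.2 * l| ≤ C₀ * l ∧
      ((base c + Q' * a * d₁ * u + Q' * b * d₂ * v : ℕ) : ℤ) ≡ g * c.1.val [ZMOD Q']) (t : ℕ) :
    ((Cs ×ˢ range k₁ ×ˢ range (d₁ * k')).filter
      fun x => t = base x.1 + Q' * a * d₁ * x.2.1 + Q' * b * d₂ * x.2.2).card
      ≤ E * (2 * C₀ + 1) * (b * k') := by
  have hQ0 : 0 < Q := Nat.pos_of_ne_zero (NeZero.ne Q)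
  have hQ' : 0 < Q' := Nat.pos_of_mul_pos_left (hQ ▸ hQ0)
  refine le_trans (card_le_card_of_injOn (t := range E ×ˢ range (2 * C₀ + 1) ×ˢ range (b * k'))
    (fun x => (x.1.1.val / Q', x.1.2 + C₀ - t / l, b * x.2.2 / d₁)) ?_ ?_) (by simp [mul_assoc])
  all_goals
    have key : ∀ x ∈ (Cs ×ˢ range k₁ ×ˢ range (d₁ * k')).filter
        fun x => t = base x.1 + Q' * a * d₁ * x.2.1 + Q' * b * d₂ * x.2.2,
        x.2.2 < d₁ * k' ∧ t / l ≤ x.1.2 + C₀ ∧ x.1.2 ≤ t / l + C₀ ∧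
          t ≡ g * x.1.1.val [MOD Q'] := by
      intro x hx
      obtain ⟨h1, h2⟩ := mem_filter.1 hx
      obtain ⟨h1, h3⟩ := mem_product.1 h1
      obtain ⟨h3, h4⟩ := mem_product.1 h3
      obtain ⟨h5, h6⟩ := h _ h1 _ (mem_range.1 h3) _ (mem_range.1 h4)
      rw [← h2] at h5 h6
      obtain ⟨h7, h8⟩ := abs_le.1 h5
      refine ⟨mem_range.1 h4, Nat.div_le_of_le_mul ?_, ?_, ?_⟩
      · zify
        linarith
      · rw [← Nat.add_mul_div_right _ _ hl, Nat.le_div_iff_mul_le hl]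
        zify
        linarith
      · exact_mod_cast h6
  · intro x hx
    obtain ⟨h1, h2, h3, -⟩ := key x hx
    refine mem_coe.2 (mem_product.2 ⟨mem_range.2 ?_, mem_product.2 ⟨mem_range.2 ?_,
      mem_range.2 ?_⟩⟩)
    · rw [Nat.div_lt_iff_lt_mul hQ', ← hQ]
      exact ZMod.val_lt _
    · dsimp only
      omega
    · rw [Nat.div_lt_iff_lt_mul hd₁, mul_assoc, mul_comm k']
      exact Nat.mul_lt_mul_of_pos_left h1 hb
  · rintro ⟨⟨r, j⟩, u, v⟩ hx ⟨⟨r', j'⟩, u', v'⟩ hx' e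
    obtain ⟨-, h2, -, h4⟩ := key _ hx
    obtain ⟨-, h2', -, h4'⟩ := key _ hx'
    have h5 := (mem_filter.1 hx).2
    have h5' := (mem_filter.1 hx').2
    simp only [Prod.mk.injEq] at e h2 h2' h4 h4' h5 h5'
    obtain ⟨e1, e2, e3⟩ := e
    obtain rfl : j = j' := by omega
    obtain rfl : r = r' := by
      apply ZMod.val_injective
      rw [← Nat.div_add_mod r.val Q', ← Nat.div_add_mod r'.val Q', e1,
        Nat.ModEq.cancel_left_of_coprime hg.symm (h4.symm.trans h4')]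
    have h6 : a * d₁ * u + b * d₂ * v = a * d₁ * u' + b * d₂ * v' := by
      apply mul_left_cancel₀ hQ'.ne'
      have := h5.symm.trans h5'
      linarith
    have h7 : b * v ≡ b * v' [MOD d₁] := by
      refine Nat.ModEq.cancel_left_of_coprime (c := d₂) hco ?_
      have h8 : d₂ * (b * v) + d₁ * (a * u) = d₂ * (b * v') + d₁ * (a * u') := by linarith
      have h9 := congrArg (· % d₁) h8
      simp only [Nat.add_mul_mod_self_left] at h9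
      exact h9
    obtain rfl : v = v' := by
      apply mul_left_cancel₀ hb.ne'
      rw [← Nat.div_add_mod (b * v) d₁, ← Nat.div_add_mod (b * v') d₁, e3, h7]
    obtain rfl : u = u' := mul_left_cancel₀ (mul_pos ha hd₁).ne' (add_right_cancel h6)
    rfl

/-- The coarse cell predicted by a fine cell. -/
def prd (M M₁ g : ℕ) {Q : ℕ} (c : ZMod Q × ℕ) : ZMod M × ℕ := ((g * c.1.val : ℕ), c.2 / M₁)

theorem det2 {A B : ℤ} {E M M₁ M₂ M' Q d₁ d₂ e₂ k₁ k₂ k' ρ₁ ρ₂ l L γ C₀ C : ℕ} [NeZero M] [NeZero Q]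
    (hA : A ≠ 0) (hB : B ≠ 0) (hρ₁ : 0 < ρ₁) (hρ₂ : 0 < ρ₂) (hM₁ : M₁ = E * M₂) (hQ : Q = M * M₁)
    (hd₁ : 0 < d₁) (hd₂ : 0 < d₂) (hco : d₁.Coprime d₂) (hγ : γ.Coprime Q)
    (hcong : A * d₁ + B * d₂ ≡ E * γ [ZMOD Q]) (hk₁ : 0 < k₁) (hk' : 0 < k') (hk₂ : k₂ = d₁ * k')
    (hN : d₁ * k₁ = e₂ * k₂) (hl : ρ₂ * l = ρ₁ * (d₁ * (Q * k₁))) (hL : L = Q * l)
    (harch : (e₂ = d₂ ∧ ρ₂ * (A + B) = ρ₁ * E) ∨ (d₂ * Q ≤ e₂ ∧ ρ₂ * A = ρ₁ * E))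
    (hC₀ : (A.natAbs + B.natAbs) * ρ₂ ≤ C₀) (hM' : 0 < M') (hML : M ^ 2 ∣ L)
    {a b g : ℕ → ℝ} (ha : ∀ n, 0 ≤ a n ∧ a n ≤ 1) (hb : ∀ n, 0 ≤ b n ∧ b n ≤ 1)
    (hg : ∀ n, 0 ≤ g n ∧ g n ≤ 1)
    (hno : ∀ n m t : ℕ, A * d₁ * n + B * d₂ * m = E * t → a n * b m * g t = 0)
    {δ τ : ℝ} (hδ : 0 < δ) (hτ : 0 < τ) (hMC : M ≤ C) (hδC : 4 * (M : ℝ) ^ 2 / δ ≤ C)
    (hdvd : ∀ m, 1 ≤ m → m ≤ C → m ∣ M * M')
    (hmaj : ∀ ζ : ℂ, ‖ζ‖ = 1 → δ / 2 * L ≤ ‖fs g L ζ‖ →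
      ∃ m, 1 ≤ m ∧ m ≤ C ∧ ‖ζ ^ m - 1‖ ≤ C / L) :
    (∑ c ∈ cells Q, cav Q (Q ^ 2 * k₁) a c * cav Q (Q ^ 2 * k₂) b c * cav M L g (prd M M₁ γ c))
      / (cells Q).card ≤ 2 * C₀ / M₁ + τ / 2 + (E * (2 * C₀ + 1) * B.natAbs * ρ₁ : ℕ) / τ
        * (inc M M' g L + (C / (M * M' : ℕ)) ^ 2 / δ ^ 2) + δ * (ρ₁ * Q ^ 2 * (d₁ + e₂) : ℕ) := by
  have hM : 0 < M := Nat.pos_of_ne_zero (NeZero.ne M)
  have hQ0 : 0 < Q := Nat.pos_of_ne_zero (NeZero.ne Q)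
  have hM₁0 : 0 < M₁ := Nat.pos_of_mul_pos_left (hQ ▸ hQ0)
  have hE : 0 < E := Nat.pos_of_mul_pos_right (hM₁ ▸ hM₁0)
  have hM₂ : 0 < M₂ := Nat.pos_of_mul_pos_left (hM₁ ▸ hM₁0)
  have hk₂0 : 0 < k₂ := hk₂ ▸ mul_pos hd₁ hk'
  have hl0 : 0 < l := Nat.pos_of_mul_pos_left (a := ρ₂) (by rw [hl]; positivity)
  have hL0 : 0 < L := hL ▸ mul_pos hQ0 hl0
  have hQ' : Q = E * (M * M₂) := by rw [hQ, hM₁]; ring
  have hG : ∀ c, 0 ≤ cav M L g c ∧ cav M L g c ≤ 1 := ce_mem _ _ hg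
  set Cs := (cells Q).filter fun c => C₀ ≤ c.2 % M₁ ∧ c.2 % M₁ + C₀ < M₁ with hCs
  have hc2 : ∀ c ∈ cells Q, c.2 < Q := fun c hc => mem_range.1 (mem_product.1 hc).2
  set nn : ZMod Q × ℕ → ℕ → ℕ := fun c u => c.1.val + Q * (c.2 * k₁ + ori A k₁ u) with hnn
  set mm : ZMod Q × ℕ → ℕ → ℕ := fun c v => c.1.val + Q * (c.2 * k₂ + ori B k₂ v) with hmm
  set base : ZMod Q × ℕ → ℕ := fun c => ((A * d₁ * nn c 0 + B * d₂ * mm c 0) / E).toNat with hbase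
  set α := M * M₂ * A.natAbs * d₁ with hα
  set β := M * M₂ * B.natAbs * d₂ with hβ
  have hgeo : ∀ c ∈ Cs, ∀ u < k₁, ∀ v < k₂, ∃ t : ℤ, A * d₁ * nn c u + B * d₂ * mm c v = E * t ∧
      |t - c.2 * l| ≤ C₀ * l ∧ t ≡ γ * c.1.val [ZMOD (M * M₂ : ℕ)] := fun c hc u hu v hv =>
    geo hE hρ₁ hρ₂ hQ' hcong hN hl harch hC₀ (ZMod.val_lt _) (hc2 c (mem_filter.1 hc).1)
      (ori_lt A hu) (ori_lt B hv)
  have hE' : (E : ℤ) ≠ 0 := by exact_mod_cast hE.ne'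
  have key : ∀ c ∈ Cs, ∀ u < k₁, ∀ v < k₂,
      A * d₁ * nn c u + B * d₂ * mm c v = E * (base c + α * u + β * v : ℕ) := by
    intro c hc u hu v hv
    obtain ⟨t, h1, h2, -⟩ := hgeo c hc 0 hk₁ 0 hk₂0
    have h3 : (C₀ : ℤ) ≤ c.2 := by exact_mod_cast (mem_filter.1 hc).2.1.trans (Nat.mod_le _ _)
    have h4 : 0 ≤ t := by
      have := mul_le_mul_of_nonneg_right h3 (Nat.cast_nonneg (α := ℤ) l)
      linarith [(abs_le.1 h2).1]
    have h5 : (base c : ℤ) = t := by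
      rw [hbase]
      dsimp only
      rw [h1, Int.mul_ediv_cancel_left _ hE', Int.toNat_of_nonneg h4]
    have h6 := ori_mul A hu
    have h7 := ori_mul B hv
    have h8 : (Q : ℤ) = E * (M * M₂) := by exact_mod_cast hQ'
    simp only [hnn, hmm, hα, hβ, Nat.cast_add, Nat.cast_mul, h5] at h1 ⊢
    linear_combination h1 + d₁ * Q * h6 + d₂ * Q * h7
      + (A.natAbs * d₁ * u + B.natAbs * d₂ * v : ℤ) * h8
  have key2 : ∀ c ∈ Cs, ∀ u < k₁, ∀ v < k₂,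
      |((base c + α * u + β * v : ℕ) : ℤ) - c.2 * l| ≤ C₀ * l ∧
      ((base c + α * u + β * v : ℕ) : ℤ) ≡ γ * c.1.val [ZMOD (M * M₂ : ℕ)] := by
    intro c hc u hu v hv
    obtain ⟨t, h1, h2⟩ := hgeo c hc u hu v hv
    rwa [mul_left_cancel₀ hE' ((key c hc u hu v hv).symm.trans h1)]
  have key3 : ∀ c ∈ Cs, ∀ u < k₁, ∀ v < k₂, base c + α * u + β * v < L ∧
      cell M L (base c + α * u + β * v) = prd M M₁ γ c := by
    intro c hc u hu v hv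
    obtain ⟨h1, h2⟩ := key2 c hc u hu v hv
    obtain ⟨h3, h4, h5⟩ := mem_filter.1 hc
    generalize base c + α * u + β * v = t at h1 h2
    obtain ⟨h6, h7⟩ := abs_le.1 h1
    have h8 := Nat.div_add_mod c.2 M₁
    have h9 : t / (M₁ * l) = c.2 / M₁ := by
      refine Nat.div_eq_of_lt_le ?_ ?_
      · have := Nat.mul_le_mul_right l (show M₁ * (c.2 / M₁) + C₀ ≤ c.2 by omega)
        zify at this ⊢
        linarith
      · have := Nat.mul_lt_mul_of_pos_right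
          (show c.2 + C₀ < M₁ * (c.2 / M₁) + M₁ by omega) hl0
        zify at this ⊢
        linarith
    have hL' : L = M₁ * l * M := by rw [hL, hQ]; ring
    constructor
    · have h10 : c.2 / M₁ < M := by rw [Nat.div_lt_iff_lt_mul hM₁0, ← hQ]; exact hc2 c h3
      rw [← h9, Nat.div_lt_iff_lt_mul (mul_pos hM₁0 hl0)] at h10
      rwa [hL', mul_comm]
    · refine Prod.ext ((ZMod.natCast_eq_natCast_iff _ _ _).2 ?_) ?_
      · refine Nat.ModEq.of_mul_right M₂ ?_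
        exact_mod_cast h2
      · dsimp only [cell, prd]
        rw [hL', Nat.mul_div_mul_right _ _ hM, h9]
  have habs : ∀ {f : ℕ → ℝ}, (∀ n, 0 ≤ f n ∧ f n ≤ 1) → ∀ n, |f n| ≤ 1 := fun hf n =>
    abs_of_mem hf n
  have hAa : 0 < A.natAbs := Int.natAbs_pos.2 hA
  have hBa : 0 < B.natAbs := Int.natAbs_pos.2 hB
  have h1 := count2 Cs (α := α) (β := β) (R := E * (2 * C₀ + 1) * (B.natAbs * k')) hk₁ hk₂0
    (by positivity) (by positivity) (by positivity) hL0 base (fun c u => a (nn c u))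
    (fun c v => b (mm c v)) (fun _ _ => habs ha _) (fun _ _ => habs hb _)
    (fun c hc u hu v hv => (key3 c hc u hu v hv).1)
    (by
      subst hk₂
      exact rep2 hQ' hAa hBa hd₁ hco (hγ.coprime_dvd_right ⟨E, by rw [hQ']; ring⟩) hl0 Cs base key2)
    (c := fun t => g t - cav M L g (cell M L t))
    (c' := fun t => cav (M * M') L g (cell (M * M') L t) - cav M L g (cell M L t))
    (fun t => by
      rw [abs_le]
      constructor <;> linarith [(hg t).1, (hg t).2, (hG (cell M L t)).1, (hG (cell M L t)).2])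
    hδ hτ (near_major hM' hL0 hML hg hδ hMC hδC hdvd hmaj)
  have h2 : ∑ x ∈ Cs ×ˢ range k₁ ×ˢ range k₂, a (nn x.1 x.2.1) * b (mm x.1 x.2.2) *
      (g (base x.1 + α * x.2.1 + β * x.2.2) - cav M L g (cell M L (base x.1 + α * x.2.1 + β * x.2.2)))
      = -(k₁ * k₂ * ∑ c ∈ Cs, cav Q (Q ^ 2 * k₁) a c * cav Q (Q ^ 2 * k₂) b c
        * cav M L g (prd M M₁ γ c)) := by
    rw [sum_product, mul_sum, ← sum_neg_distrib]
    refine sum_congr rfl fun c hc => ?_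
    have h3 := hc2 c (mem_filter.1 hc).1
    calc _ = ∑ x ∈ range k₁ ×ˢ range k₂, a (nn c x.1) * b (mm c x.2) * -cav M L g (prd M M₁ γ c) := by
          refine sum_congr rfl fun x hx => ?_
          have hu := mem_range.1 (mem_product.1 hx).1
          have hv := mem_range.1 (mem_product.1 hx).2
          rw [mul_sub, hno _ _ _ (key c hc _ hu _ hv), (key3 c hc _ hu _ hv).2]
          ring
      _ = _ := by
          rw [← sum_mul, sum_product' (f := fun u v => a (nn c u) * b (mm c v)), ← sum_mul_sum,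
            cav_ori hk₁ A a h3, cav_ori hk₂0 B b h3]
          ring
  rw [h2, abs_neg] at h1
  replace h1 := (le_abs_self _).trans h1
  have h3 : ∑ c ∈ (cells Q).filter (fun c => ¬ (C₀ ≤ c.2 % M₁ ∧ c.2 % M₁ + C₀ < M₁)),
      cav Q (Q ^ 2 * k₁) a c * cav Q (Q ^ 2 * k₂) b c * cav M L g (prd M M₁ γ c)
      ≤ Q * (M * (2 * C₀)) := by
    refine (sum_le_sum (g := fun _ => 1) fun c _ => ?_).trans ?_
    · have p1 := ce_mem (range (Q ^ 2 * k₁)) (cell Q (Q ^ 2 * k₁)) ha c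
      have p2 := ce_mem (range (Q ^ 2 * k₂)) (cell Q (Q ^ 2 * k₂)) hb c
      exact mul_le_one₀ (mul_le_one₀ p1.2 p2.1 p2.2) (hG _).1 (hG _).2
    rw [sum_filter, cells, sum_product]
    refine (sum_le_card_nsmul _ _ (M * (2 * C₀) : ℝ) fun x _ => ?_).trans (by simp)
    have h0 := sum_mod M M₁ fun x => if ¬ (C₀ ≤ x ∧ x + C₀ < M₁) then 1 else 0
    rw [← hQ] at h0
    refine (le_of_eq (by convert h0 using 2)).trans
      (mul_le_mul_of_nonneg_left ?_ (Nat.cast_nonneg _))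
    rw [← sum_filter, sum_const, nsmul_eq_mul, mul_one]
    have h4 : ((range M₁).filter fun x => ¬ (C₀ ≤ x ∧ x + C₀ < M₁))
        ⊆ range C₀ ∪ Ico (M₁ - C₀) M₁ := fun x hx => by
      have := mem_filter.1 hx
      simp only [mem_union, mem_range, mem_Ico] at this ⊢
      omega
    have h5 := (card_le_card h4).trans (card_union_le _ _)
    rw [card_range, Nat.card_Ico] at h5
    exact_mod_cast h5.trans (by omega)
  have hQr : (0 : ℝ) < Q := by exact_mod_cast hQ0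
  have hk1r : (0 : ℝ) < k₁ := by exact_mod_cast hk₁
  have hk2r : (0 : ℝ) < k₂ := by exact_mod_cast hk₂0
  have hLr : (0 : ℝ) < L := by exact_mod_cast hL0
  have hM1r : (0 : ℝ) < M₁ := by exact_mod_cast hM₁0
  have hcard : (Cs.card : ℝ) ≤ Q ^ 2 := by
    exact_mod_cast (card_filter_le _ _).trans (card_cells Q).le
  have hL1 : L ≤ ρ₁ * (d₁ * (Q ^ 2 * k₁)) :=
    calc L ≤ Q * (ρ₂ * l) := by rw [hL]; exact Nat.mul_le_mul_left _ (Nat.le_mul_of_pos_left _ hρ₂)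
      _ = _ := by rw [hl]; ring
  have h4 : E * (2 * C₀ + 1) * (B.natAbs * k') * L
      ≤ E * (2 * C₀ + 1) * B.natAbs * ρ₁ * (Q ^ 2 * (k₁ * k₂)) :=
    (Nat.mul_le_mul_left _ hL1).trans (le_of_eq (by rw [hk₂]; ring))
  have h5 : L * (k₁ + k₂) ≤ ρ₁ * Q ^ 2 * (d₁ + e₂) * (k₁ * k₂) :=
    calc _ ≤ ρ₁ * (d₁ * (Q ^ 2 * k₁)) * (k₁ + k₂) := Nat.mul_le_mul_right _ hL1
      _ = ρ₁ * Q ^ 2 * (d₁ * k₁ * k₁ + d₁ * k₁ * k₂) := by ring
      _ = _ := by nth_rewrite 1 [hN]; ring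
  set I := inc M M' g L + (C / (M * M' : ℕ)) ^ 2 / δ ^ 2 with hI
  have hI0 : 0 ≤ I := add_nonneg (inc_mem M M' hg L).1 (by positivity)
  have h6 : ∑ t ∈ range L, (cav (M * M') L g (cell (M * M') L t) - cav M L g (cell M L t)) ^ 2
      + (C / (M * M' : ℕ)) ^ 2 / δ ^ 2 * L = L * I := by
    rw [hI, inc]
    field_simp
  rw [h6] at h1
  have h7 : ((E * (2 * C₀ + 1) * (B.natAbs * k') : ℕ) : ℝ) / τ * (L * I) ≤
      (E * (2 * C₀ + 1) * B.natAbs * ρ₁ : ℕ) / τ * I * (Q ^ 2 * (k₁ * k₂)) := by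
    have h8 : ((E * (2 * C₀ + 1) * (B.natAbs * k') : ℕ) : ℝ) * L
        ≤ (E * (2 * C₀ + 1) * B.natAbs * ρ₁ : ℕ) * (Q ^ 2 * (k₁ * k₂)) := by exact_mod_cast h4
    calc _ = ((E * (2 * C₀ + 1) * (B.natAbs * k') : ℕ) : ℝ) * L * (I / τ) := by ring
      _ ≤ _ := mul_le_mul_of_nonneg_right h8 (by positivity)
      _ = _ := by ring
  have h8 : δ * L * (Cs.card * (k₁ + k₂)) ≤
      δ * (ρ₁ * Q ^ 2 * (d₁ + e₂) : ℕ) * (Q ^ 2 * (k₁ * k₂)) := by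
    have h9 : (L : ℝ) * (k₁ + k₂) ≤ (ρ₁ * Q ^ 2 * (d₁ + e₂) : ℕ) * (k₁ * k₂) := by exact_mod_cast h5
    calc _ = δ * (Cs.card * (L * (k₁ + k₂))) := by ring
      _ ≤ δ * (Q ^ 2 * ((ρ₁ * Q ^ 2 * (d₁ + e₂) : ℕ) * (k₁ * k₂))) := by gcongr
      _ = _ := by ring
  have h9 : τ / 2 * (Cs.card * (k₁ * k₂)) ≤ τ / 2 * (Q ^ 2 * (k₁ * k₂)) := by gcongr
  have h10 : (Q : ℝ) * (M * (2 * C₀)) = 2 * C₀ / M₁ * Q ^ 2 := by
    rw [sq, ← mul_assoc, hQ]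
    push_cast
    field_simp
  rw [← sum_filter_add_sum_filter_not _ (fun c => C₀ ≤ c.2 % M₁ ∧ c.2 % M₁ + C₀ < M₁), card_cells,
    Nat.cast_pow, div_le_iff₀ (by positivity)]
  refine le_of_mul_le_mul_left ?_ (mul_pos hk1r hk2r)
  have h11 := mul_le_mul_of_nonneg_left (h3.trans_eq h10) (mul_pos hk1r hk2r).le
  linarith

end Pool.Agent.Lib.MP_a5a405_co.PR.G
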