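import Mathlib

/-!
From local powers to congruences.
-/

open Finset

namespace Pool.Agent.Lib.MP_a5a405_co.PR.G

theorem Local_norm_one {p : ℕ} [Fact p.Prime] {q : ℚ} (h : ¬ p ∣ q.num.natAbs * q.den) :
    ‖(q : ℚ_[p])‖ = 1 := by
  have h1 : ‖((q.num : ℤ) : ℚ_[p])‖ = 1 := by
    refine le_antisymm (Padic.norm_int_le_one _) (not_lt.1 fun h2 => h ?_)
    exact Dvd.dvd.mul_right (Int.natCast_dvd.1 (Padic.norm_intCast_lt_one_iff.1 h2)) _
  have h2 : ‖(((q.den : ℕ) : ℤ) : ℚ_[p])‖ = 1 := by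
    refine le_antisymm (Padic.norm_int_le_one _) (not_lt.1 fun h2 => h ?_)
    exact Dvd.dvd.mul_left (Int.natCast_dvd_natCast.1 (Padic.norm_intCast_lt_one_iff.1 h2)) _
  rw [Int.cast_natCast] at h2
  rw [Rat.cast_def, norm_div, h1, h2, div_one]

theorem Local_lam (S : Finset ℕ) (hS : ∀ p ∈ S, p.Prime) (v : ℕ → ℤ) (r : ℕ) [Fact r.Prime] :
    ‖((∏ p ∈ S, (p : ℚ) ^ v p : ℚ) : ℚ_[r])‖ = if r ∈ S then (r : ℝ) ^ (-v r) else 1 := by
  have h1 : ∀ p ∈ S, p ≠ r → ‖(p : ℚ_[r]) ^ v p‖ = 1 := fun p hp hne => by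
    have h2 : ‖((p : ℚ) : ℚ_[r])‖ = 1 := Local_norm_one (by
      simpa using fun h => hne ((Nat.prime_dvd_prime_iff_eq Fact.out (hS p hp)).1 h).symm)
    rw [Rat.cast_natCast] at h2
    rw [norm_zpow, h2, one_zpow]
  push_cast
  rw [norm_prod]
  split_ifs with h
  · rw [prod_eq_single_of_mem r h fun p hp hne => h1 p hp hne, norm_zpow, Padic.norm_p, inv_zpow',]
  · exact prod_eq_one fun p hp => h1 p hp fun e => h (e ▸ hp)

theorem Local_appr {p : ℕ} [Fact p.Prime] {n e : ℕ} (he : 0 < e) {u : ℚ_[p]} (hu : ‖u‖ = 1) :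
    ∃ g : ℕ, ¬ p ∣ g ∧ ∀ (E : ℕ) (S : ℤ), (S : ℚ_[p]) = E * u ^ n →
      S ≡ E * g ^ n [ZMOD (p ^ e : ℕ)] := by
  let U : ℤ_[p] := ⟨u, hu.le⟩
  have h1 : (p : ℤ_[p]) ^ e ∣ U - U.appr e := Ideal.mem_span_singleton.1 (U.appr_spec e)
  refine ⟨U.appr e, fun h => ?_, fun E S hS => ?_⟩
  · have h2 : (p : ℤ_[p]) ∣ U := by
      have h3 : (p : ℤ_[p]) ∣ (U.appr e : ℕ) := Nat.cast_dvd_cast h
      simpa using ((dvd_pow_self _ he.ne').trans h1).add h3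
    have h3 : ‖U‖ < 1 := (PadicInt.norm_lt_one_iff_dvd U).2 h2
    exact absurd hu (ne_of_lt h3)
  · have h2 : (S : ℤ_[p]) = E * U ^ n := Subtype.ext (by simpa using hS)
    have h3 : (p : ℤ_[p]) ^ e ∣ ((S - E * (U.appr e : ℕ) ^ n : ℤ) : ℤ_[p]) := by
      push_cast
      rw [h2, ← mul_sub]
      exact (h1.trans (sub_dvd_pow_sub_pow _ _ n)).mul_left _
    have h4 := (PadicInt.pow_p_dvd_int_iff e _).1 h3
    refine (Int.modEq_iff_dvd.2 ?_).symm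
    exact_mod_cast h4

theorem Local_pow {Q p j : ℕ} (hQ : 0 < Q) (hp : p.Prime) (hj : 0 < j) (S : Finset ℕ)
    (hS : ∀ r ∈ S, r.Prime) :
    ((((∏ r ∈ S, r) ^ (Q * Q.totient) : ℕ) : ℤ)) ^ j ≡ (if p ∈ S then 0 else 1)
      [ZMOD (p ^ Q.factorization p : ℕ)] := by
  have h0 : ((∏ r ∈ S, r) ^ (Q * Q.totient)) ^ j ≡ (if p ∈ S then 0 else 1)
      [MOD p ^ Q.factorization p] := by
    split_ifs with h
    · refine Nat.modEq_zero_iff_dvd.2 (Dvd.dvd.trans ?_ (dvd_pow_self _ hj.ne'))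
      refine pow_dvd_pow_of_dvd_of_le (dvd_prod_of_mem _ h) ?_
      exact (Nat.factorization_lt p hQ.ne').le.trans
        (Nat.le_mul_of_pos_right _ (Nat.totient_pos.2 hQ))
    · have h1 : (∏ r ∈ S, r).Coprime (p ^ Q.factorization p) :=
        Nat.Coprime.pow_right _ (Nat.Coprime.prod_left fun r hr =>
          (Nat.coprime_primes (hS r hr) hp).2 fun e => h (e ▸ hr))
      obtain ⟨k, hk⟩ := Nat.totient_dvd_of_dvd (Nat.ordProj_dvd Q p)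
      have h2 := (Nat.ModEq.pow_totient h1).pow (k * Q * j)
      rw [one_pow, ← pow_mul] at h2
      rw [← pow_mul, hk]
      convert h2 using 2
      ring
  have h1 := Int.natCast_modEq_iff.2 h0
  push_cast at h1 ⊢
  exact h1

theorem Local_den (r : ℚ) {E : ℕ} (h : r.den ∣ E) : ∃ A : ℤ, (A : ℚ) = E * r := by
  obtain ⟨k, rfl⟩ := h
  refine ⟨k * r.num, ?_⟩
  push_cast
  rw [← Rat.mul_den_eq_num]
  ring

theorem local_data {ι : Type} [Fintype ι] [Nonempty ι] {n : ℕ} (hn : 0 < n) (α β : ι → ℚ)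
    (hα : ∀ i, α i ≠ 0) (hβ : ∀ i, β i ≠ 0) (hγ : ∀ i, α i + β i ≠ 0)
    (h : ∀ (p : ℕ) [Fact p.Prime], ∃ q : ℚ, (∃ t : ℚ_[p], t ^ n = q) ∧
      ∀ i, q = α i ∨ q = β i ∨ q = α i + β i) :
    ∃ (l₁ l₂ E : ℕ) (A B : ι → ℤ), 0 < l₁ ∧ 0 < l₂ ∧ 0 < E ∧
      (∀ i, (A i : ℚ) * l₁ ^ n = E * α i * l₂ ^ n ∧ (B i : ℚ) * l₁ ^ n = E * β i * l₂ ^ n) ∧
      ∀ Q : ℕ, 0 < Q → ∃ g : ℕ, g.Coprime Q ∧ ∀ i, ∃ D₁ D₂ : ℕ, 0 < D₁ ∧ 0 < D₂ ∧
        D₁.Coprime D₂ ∧ ∀ j j' : ℕ, 0 < j → 0 < j' →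
          A i * D₁ ^ j + B i * D₂ ^ j' ≡ E * g ^ n [ZMOD Q] := by
  classical
  obtain ⟨i₀⟩ := ‹Nonempty ι›
  have h' : ∀ p : ℕ, ∃ (q : ℚ) (v : ℤ), ∀ [Fact p.Prime],
      (∃ t : ℚ_[p], t ^ n = q ∧ ‖t‖ = (p : ℝ) ^ (-v)) ∧
        ∀ i, q = α i ∨ q = β i ∨ q = α i + β i := fun p => by
    by_cases hp : p.Prime
    · have := Fact.mk hp
      obtain ⟨q, ⟨t, ht⟩, hq⟩ := h p
      have hq0 : q ≠ 0 := by
        rcases hq i₀ with e | e | e <;> rw [e]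
        exacts [hα _, hβ _, hγ _]
      have ht0 : t ≠ 0 := by
        rintro rfl
        rw [zero_pow hn.ne'] at ht
        exact hq0 (by exact_mod_cast ht.symm)
      exact ⟨q, t.valuation, ⟨t, ht, Padic.norm_eq_zpow_neg_valuation ht0⟩, hq⟩
    · exact ⟨0, 0, fun {hf} => absurd hf.out hp⟩
  choose q v hq using h'
  obtain ⟨N, hN0, hN⟩ : ∃ N : ℕ, N ≠ 0 ∧ ∀ r : ℚ, (r = α i₀ ∨ r = β i₀ ∨ r = α i₀ + β i₀) →
      r.num.natAbs * r.den ∣ N := by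
    have h0 : ∀ r : ℚ, r ≠ 0 → r.num.natAbs * r.den ≠ 0 := fun r hr =>
      mul_ne_zero (Int.natAbs_ne_zero.2 (Rat.num_ne_zero.2 hr)) r.den_nz
    refine ⟨_, mul_ne_zero (mul_ne_zero (h0 _ (hα i₀)) (h0 _ (hβ i₀))) (h0 _ (hγ i₀)), ?_⟩
    rintro r (rfl | rfl | rfl)
    exacts [(dvd_mul_right _ _).mul_right _, (dvd_mul_left _ _).mul_right _, dvd_mul_left _ _]
  obtain ⟨lam, hlam⟩ : ∃ lam : ℚ, lam = ∏ p ∈ N.primeFactors, (p : ℚ) ^ v p := ⟨_, rfl⟩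
  have hl0 : 0 < lam := by
    rw [hlam]
    exact prod_pos fun p hp => zpow_pos (by exact_mod_cast (Nat.prime_of_mem_primeFactors hp).pos) _
  have hu : ∀ (p : ℕ) [Fact p.Prime], ∃ u : ℚ_[p], ‖u‖ = 1 ∧ u ^ n = (q p / lam ^ n : ℚ) := by
    intro p _
    obtain ⟨⟨t, ht, hv⟩, hi⟩ := hq p
    have h1 := Local_lam N.primeFactors (fun p hp => Nat.prime_of_mem_primeFactors hp) v p
    rw [← hlam] at h1
    refine ⟨t / lam, ?_, by rw [div_pow, ht]; push_cast; rfl⟩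
    rw [norm_div, h1]
    split_ifs with hp
    · rw [hv]
      exact div_self (zpow_ne_zero _ (by exact_mod_cast (Fact.out : p.Prime).ne_zero))
    · have h2 : ‖(q p : ℚ_[p])‖ = 1 := Local_norm_one fun hd =>
        hp (Nat.mem_primeFactors.2 ⟨Fact.out, hd.trans (hN _ (hi i₀)), hN0⟩)
      rw [← ht, norm_pow] at h2
      rw [(pow_eq_one_iff_of_nonneg (norm_nonneg _) hn.ne').1 h2, div_one]
  obtain ⟨E, hE⟩ : ∃ E : ℕ, E = ∏ i, (α i / lam ^ n).den * (β i / lam ^ n).den := ⟨_, rfl⟩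
  have hEd : ∀ i, (α i / lam ^ n).den * (β i / lam ^ n).den ∣ E := fun i =>
    hE ▸ dvd_prod_of_mem _ (mem_univ i)
  choose A hA using fun i => Local_den _ ((dvd_mul_right _ _).trans (hEd i))
  choose B hB using fun i => Local_den _ ((dvd_mul_left _ _).trans (hEd i))
  have hnum : 0 < lam.num := Rat.num_pos.2 hl0
  have hl : ((lam.num.natAbs : ℕ) : ℚ) = lam * lam.den := by
    rw [Rat.mul_den_eq_num, ← Int.cast_natCast, Int.natAbs_of_nonneg hnum.le]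
  refine ⟨lam.num.natAbs, lam.den, E, A, B, Int.natAbs_pos.2 hnum.ne', lam.den_pos,
    hE ▸ prod_pos fun i _ => mul_pos (Rat.den_pos _) (Rat.den_pos _), fun i => ?_,
    fun Q hQ => ?_⟩
  · rw [hA, hB, hl, mul_pow]
    constructor <;> field_simp
  have hg : ∀ p : ℕ, ∃ g : ℕ, p ∈ Q.primeFactors → ¬ p ∣ g ∧
      ∀ S : ℤ, (S : ℚ) = E * (q p / lam ^ n) →
        S ≡ E * g ^ n [ZMOD (p ^ Q.factorization p : ℕ)] := fun p => by
    by_cases hp : p ∈ Q.primeFactors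
    · have := Fact.mk (Nat.prime_of_mem_primeFactors hp)
      obtain ⟨u, hu1, hu2⟩ := hu p
      obtain ⟨g, hg1, hg2⟩ := Local_appr (n := n) (Nat.Prime.factorization_pos_of_dvd Fact.out
        hQ.ne' (Nat.dvd_of_mem_primeFactors hp)) hu1
      refine ⟨g, fun _ => ⟨hg1, fun S hS => hg2 E S ?_⟩⟩
      rw [hu2]
      exact_mod_cast congrArg (fun x : ℚ => (x : ℚ_[p])) hS
    · exact ⟨0, fun h => absurd h hp⟩
  choose gp hgp using hg
  obtain ⟨g, hg⟩ := Nat.chineseRemainderOfFinset gp (fun p => p ^ Q.factorization p)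
    Q.primeFactors (fun p hp => pow_ne_zero _ (Nat.prime_of_mem_primeFactors hp).ne_zero)
    fun p hp r hr hne => Nat.coprime_pow_primes _ _ (Nat.prime_of_mem_primeFactors hp)
      (Nat.prime_of_mem_primeFactors hr) hne
  refine ⟨g, Nat.coprime_of_dvd fun p hp h1 h2 => ?_, fun i => ?_⟩
  · have hm : p ∈ Q.primeFactors := Nat.mem_primeFactors.2 ⟨hp, h2, hQ.ne'⟩
    refine (hgp p hm).1 (((hg p hm).dvd_iff (dvd_pow_self p ?_)).1 h1)
    exact (hp.factorization_pos_of_dvd hQ.ne' h2).ne'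
  have p1 : ∀ r ∈ Q.primeFactors.filter fun p => q p = β i ∧ q p ≠ α i, r.Prime :=
    fun r hr => Nat.prime_of_mem_primeFactors (mem_filter.1 hr).1
  have p2 : ∀ r ∈ Q.primeFactors.filter fun p => q p = α i, r.Prime :=
    fun r hr => Nat.prime_of_mem_primeFactors (mem_filter.1 hr).1
  refine ⟨(∏ r ∈ Q.primeFactors.filter fun p => q p = β i ∧ q p ≠ α i, r) ^ (Q * Q.totient),
    (∏ r ∈ Q.primeFactors.filter fun p => q p = α i, r) ^ (Q * Q.totient),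
    pow_pos (prod_pos fun r hr => (p1 r hr).pos) _, pow_pos (prod_pos fun r hr => (p2 r hr).pos) _,
    Nat.Coprime.pow _ _ (Nat.Coprime.prod_left fun r hr => Nat.Coprime.prod_right fun s hs =>
      (Nat.coprime_primes (p1 r hr) (p2 s hs)).2 fun e =>
        (mem_filter.1 hr).2.2 (e ▸ (mem_filter.1 hs).2)), fun j j' hj hj' => ?_⟩
  refine Int.modEq_iff_dvd.2 (Int.natCast_dvd.2
    ((Nat.dvd_iff_prime_pow_dvd_dvd _ _).2 fun p k hp hk => ?_))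
  rcases Nat.eq_zero_or_pos k with rfl | hk0
  · simp
  have hm : p ∈ Q.primeFactors :=
    Nat.mem_primeFactors.2 ⟨hp, (dvd_pow_self p hk0.ne').trans hk, hQ.ne'⟩
  refine (pow_dvd_pow p ((hp.pow_dvd_iff_le_factorization hQ.ne').1 hk)).trans
    (Int.natCast_dvd.1 (Int.modEq_iff_dvd.1 ?_))
  have := Fact.mk hp
  have e1 := ((Local_pow hQ hp hj _ p1).mul_left (A i)).add
    ((Local_pow hQ hp hj' _ p2).mul_left (B i))
  have e2 : (E : ℤ) * (gp p : ℤ) ^ n ≡ E * g ^ n [ZMOD (p ^ Q.factorization p : ℕ)] :=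
    ((Int.natCast_modEq_iff.2 (hg p hm)).symm.pow n).mul_left _
  refine e1.trans (((hgp p hm).2 _ ?_).trans e2)
  simp only [mem_filter, hm, true_and]
  by_cases c1 : q p = α i
  · simp [c1, hA]
  by_cases c2 : q p = β i
  · rw [if_pos ⟨c2, c1⟩, if_neg c1, c2]
    simp [hB]
  · have c3 : q p = α i + β i := ((hq p).2 i).resolve_left c1 |>.resolve_left c2
    rw [if_neg fun h => c2 h.1, if_neg c1, c3]
    push_cast
    rw [hA, hB]
    ring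

end Pool.Agent.Lib.MP_a5a405_co.PR.G
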