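import Mathlib

/-!
The local obstruction to partition regularity.
-/

open Filter Topology

namespace Pool.Agent.Lib.MP_a5a405_co.PR.G

section

variable {p : ℕ} [hp : Fact p.Prime]

/-- Up to a power of `p ^ V`, the number `r` is within `e` of one. -/
def NecH (V : ℕ) (e : ℝ) (r : ℚ_[p]) : Prop :=
  ∃ (j : ℤ) (u : ℚ_[p]), ‖u - 1‖ ≤ e ∧ r = (p : ℚ_[p]) ^ (j * V) * u

theorem Nec_p_ne : (p : ℚ_[p]) ≠ 0 := Nat.cast_ne_zero.2 hp.1.ne_zero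

theorem Nec_one_lt : (1 : ℝ) < p := by exact_mod_cast hp.1.one_lt

theorem Nec_norm {u : ℚ_[p]} {e : ℝ} (he : e < 1) (h : ‖u - 1‖ ≤ e) : ‖u‖ = 1 := by
  have h1 : ‖u - 1‖ < ‖(1 : ℚ_[p])‖ := by rw [norm_one]; linarith
  have h2 := IsUltrametricDist.norm_add_eq_max_of_norm_ne_norm h1.ne
  rwa [sub_add_cancel, max_eq_right h1.le, norm_one] at h2

theorem NecH.mono {V : ℕ} {e e' : ℝ} {r : ℚ_[p]} (h : NecH V e r) (he : e ≤ e') : NecH V e' r := by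
  obtain ⟨j, u, h1, h2⟩ := h
  exact ⟨j, u, h1.trans he, h2⟩

theorem NecH.of_near {V : ℕ} {e : ℝ} {r : ℚ_[p]} (h : ‖r - 1‖ ≤ e) : NecH V e r :=
  ⟨0, r, h, by simp⟩

theorem NecH.mul {V : ℕ} {e : ℝ} (he : e < 1) {r s : ℚ_[p]} (h : NecH V e r) (h' : NecH V e s) :
    NecH V e (r * s) := by
  obtain ⟨j, u, h1, rfl⟩ := h
  obtain ⟨k, v, h2, rfl⟩ := h'
  refine ⟨j + k, u * v, ?_, ?_⟩
  · have e1 : u * v - 1 = u * (v - 1) + (u - 1) := by ring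
    rw [e1]
    refine (IsUltrametricDist.norm_add_le_max _ _).trans (max_le ?_ h1)
    rwa [norm_mul, Nec_norm he h1, one_mul]
  · rw [add_mul, zpow_add₀ Nec_p_ne]; ring

theorem NecH.inv {V : ℕ} {e : ℝ} (he : e < 1) {r : ℚ_[p]} (h : NecH V e r) : NecH V e r⁻¹ := by
  obtain ⟨j, u, h1, rfl⟩ := h
  have h2 := Nec_norm he h1
  have h3 : u ≠ 0 := fun h => by simp [h] at h2
  refine ⟨-j, u⁻¹, ?_, ?_⟩
  · have e1 : u⁻¹ - 1 = u⁻¹ * -(u - 1) := by field_simp; ring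
    rwa [e1, norm_mul, norm_inv, h2, inv_one, one_mul, norm_neg]
  · rw [neg_mul, zpow_neg, mul_inv]

theorem NecH.pow {V : ℕ} {e : ℝ} (he : e < 1) {r : ℚ_[p]} (h : NecH V e r) (m : ℕ) :
    NecH V e (r ^ m) := by
  induction m with
  | zero =>
    obtain ⟨j, u, h1, -⟩ := h
    exact NecH.of_near (by simpa using (norm_nonneg _).trans h1)
  | succ m ih => rw [pow_succ]; exact ih.mul he h

theorem Nec_tendsto : Tendsto (fun V : ℕ => (p : ℝ) ^ (-V : ℤ)) atTop (𝓝 0) := by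
  have h := tendsto_pow_atTop_nhds_zero_of_lt_one (r := (p : ℝ)⁻¹) (by positivity)
    (inv_lt_one_of_one_lt₀ (Nec_one_lt (p := p)))
  simpa [zpow_neg] using h

theorem Nec_small (C : ℝ) {e : ℝ} (he : 0 < e) :
    ∀ᶠ V : ℕ in atTop, C * (p : ℝ) ^ (-V : ℤ) < e := by
  have h := (Nec_tendsto (p := p)).const_mul C
  rw [mul_zero] at h
  exact h.eventually (gt_mem_nhds he)

theorem Nec_pos_norm {V : ℕ} {j : ℤ} (hj : 0 < j) :
    ‖(p : ℚ_[p]) ^ (j * V)‖ ≤ (p : ℝ) ^ (-V : ℤ) := by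
  rw [Padic.norm_p_zpow]
  refine zpow_le_zpow_right₀ (Nec_one_lt (p := p)).le ?_
  have : (0 : ℤ) ≤ V := Int.natCast_nonneg V
  nlinarith

/-- Separation: a fixed number other than zero and one is eventually not in the subgroup. -/
theorem Nec_sep {q : ℚ_[p]} (h0 : q ≠ 0) (h1 : q ≠ 1) :
    ∀ᶠ e : ℝ in 𝓝[>] 0, ∀ᶠ V : ℕ in atTop, ¬ NecH V e q := by
  have hq : 0 < ‖q‖ := norm_pos_iff.2 h0
  have hq1 : 0 < ‖q - 1‖ := norm_pos_iff.2 (sub_ne_zero.2 h1)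
  filter_upwards [Ioo_mem_nhdsGT hq1, Ioo_mem_nhdsGT (zero_lt_one' ℝ)] with e he he'
  filter_upwards [Nec_small (p := p) 1 hq, Nec_small (p := p) 1 (inv_pos.2 hq)] with V a1 a2
  rintro ⟨j, u, b1, b2⟩
  have hu := Nec_norm he'.2 b1
  rw [one_mul] at a1 a2
  rcases lt_trichotomy j 0 with hj | hj | hj
  · have c1 := Nec_pos_norm (p := p) (V := V) (neg_pos.2 hj)
    rw [neg_mul, zpow_neg, norm_inv] at c1
    rw [b2, norm_mul, hu, mul_one] at a2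
    linarith
  · rw [hj, zero_mul, zpow_zero, one_mul] at b2
    rw [← b2] at b1
    linarith [he.2]
  · have c1 := Nec_pos_norm (p := p) (V := V) hj
    rw [b2, norm_mul, hu, mul_one] at a1
    linarith

/-- The dominant term of `a x + b y`. -/
theorem Nec_dom {a b : ℚ_[p]} (ha : a ≠ 0) (hb : b ≠ 0) (hab : a + b ≠ 0) {e : ℝ} (h0 : 0 < e)
    (he : e < 1) : ∀ᶠ V : ℕ in atTop, ∀ r : ℚ_[p], NecH V ((p : ℝ) ^ (-V : ℤ)) r →
      ∃ s, (s = a ∨ s = b ∨ s = a + b) ∧ NecH V e ((a * r + b) / s) := by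
  filter_upwards [Nec_small (p := p) 1 h0, Nec_small (p := p) ‖a / (a + b)‖ h0,
    Nec_small (p := p) ‖a / b‖ h0, Nec_small (p := p) ‖b / a‖ h0] with V a0 a1 a2 a3 r hr
  rw [one_mul] at a0
  have hr' := hr.mono a0.le
  obtain ⟨j, u, b1, b2⟩ := hr
  have hu := Nec_norm (a0.trans he) b1
  have hu0 : u ≠ 0 := fun h => by simp [h] at hu
  rcases lt_trichotomy j 0 with hj | hj | hj
  · have c1 := Nec_pos_norm (p := p) (V := V) (neg_pos.2 hj)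
    rw [neg_mul, zpow_neg] at c1
    have hr0 : r ≠ 0 := by rw [b2]; exact mul_ne_zero (zpow_ne_zero _ Nec_p_ne) hu0
    have e1 : (a * r + b) / a = r * (1 + b / a * r⁻¹) := by field_simp
    refine ⟨a, Or.inl rfl, e1 ▸ hr'.mul he (NecH.of_near ?_)⟩
    rw [add_sub_cancel_left, norm_mul, b2, mul_inv, norm_mul, norm_inv u, hu, inv_one, mul_one]
    exact (mul_le_mul_of_nonneg_left c1 (norm_nonneg _)).trans a3.le
  · rw [hj, zero_mul, zpow_zero, one_mul] at b2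
    refine ⟨a + b, Or.inr (Or.inr rfl), NecH.of_near ?_⟩
    have e1 : (a * r + b) / (a + b) - 1 = a / (a + b) * (u - 1) := by
      rw [b2]; field_simp; ring
    rw [e1, norm_mul]
    exact (mul_le_mul_of_nonneg_left b1 (norm_nonneg _)).trans a1.le
  · have c1 := Nec_pos_norm (p := p) (V := V) hj
    refine ⟨b, Or.inr (Or.inl rfl), NecH.of_near ?_⟩
    have e1 : (a * r + b) / b - 1 = a / b * r := by field_simp; ring
    rw [e1, norm_mul, b2, norm_mul, hu, mul_one]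
    exact (mul_le_mul_of_nonneg_left c1 (norm_nonneg _)).trans a2.le

/-- Elements of the subgroup are `n`-th powers. -/
theorem Nec_root {n N : ℕ} {e : ℝ} (he : e < 1) (hn : e < ‖(n : ℚ_[p])‖ ^ 2) {r : ℚ_[p]}
    (h : NecH (n * N) e r) : ∃ t : ℚ_[p], t ^ n = r := by
  obtain ⟨j, u, h1, rfl⟩ := h
  have hu := Nec_norm he h1
  set U : ℤ_[p] := ⟨u, hu.le⟩ with hU
  have hF : ‖(Polynomial.X ^ n - Polynomial.C U : Polynomial ℤ_[p]).aeval (1 : ℤ_[p])‖ <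
      ‖(Polynomial.X ^ n - Polynomial.C U : Polynomial ℤ_[p]).derivative.aeval (1 : ℤ_[p])‖ ^ 2 := by
    have e1 : (Polynomial.X ^ n - Polynomial.C U : Polynomial ℤ_[p]).aeval (1 : ℤ_[p]) = 1 - U := by
      simp
    have e2 : (Polynomial.X ^ n - Polynomial.C U : Polynomial ℤ_[p]).derivative.aeval (1 : ℤ_[p]) =
        n := by
      simp [Polynomial.derivative_X_pow]
    rw [e1, e2, norm_sub_rev, PadicInt.norm_def, PadicInt.norm_def]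
    exact h1.trans_lt (by simpa using hn)
  obtain ⟨z, hz, -⟩ := hensels_lemma hF
  have hz' : z ^ n = U := by simpa [sub_eq_zero] using hz
  have hz'' : (z : ℚ_[p]) ^ n = u := by
    rw [← PadicInt.coe_pow, hz']
  refine ⟨(p : ℚ_[p]) ^ (j * N) * z, ?_⟩
  rw [mul_pow, hz'', ← zpow_natCast, ← zpow_mul]
  congr 2
  push_cast
  ring

/-- The colouring by the valuation modulo `V` and the last `V` digits. -/
theorem Nec_colour (p : ℕ) [hp : Fact p.Prime] {V : ℕ} (hV : 0 < V) :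
    ∃ (r : ℕ) (χ : ℤ → Fin r), ∀ x y : ℤ, x ≠ 0 → y ≠ 0 → χ x = χ y →
      NecH V ((p : ℝ) ^ (-V : ℤ)) ((x : ℚ_[p]) / (y : ℚ_[p])) := by
  have hpr : Prime (p : ℤ) := Nat.prime_iff_prime_int.1 hp.1
  have hd : ∀ x : ℤ, ∃ (k : ℕ) (x' : ℤ), x ≠ 0 → ¬ (p : ℤ) ∣ x' ∧ x = (p : ℤ) ^ k * x' := by
    intro x
    by_cases hx : x = 0
    · exact ⟨0, 0, fun h => absurd hx h⟩
    · obtain ⟨k, x', h⟩ := WfDvdMonoid.max_power_factor' hx hpr.not_isUnit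
      exact ⟨k, x', fun _ => h⟩
  choose k f hf using hd
  have : NeZero V := ⟨hV.ne'⟩
  have : NeZero (p ^ V) := ⟨pow_ne_zero _ hp.1.ne_zero⟩
  refine ⟨_, fun x => Fintype.equivFin (ZMod V × ZMod (p ^ V)) (((k x : ℤ) : ZMod V), f x), ?_⟩
  intro x y hx hy hxy
  obtain ⟨h1, h2⟩ := Prod.ext_iff.1 ((Fintype.equivFin _).injective hxy)
  obtain ⟨j, hj⟩ := (ZMod.intCast_eq_intCast_iff_dvd_sub _ _ _).1 h1.symm
  have h3 := (ZMod.intCast_eq_intCast_iff_dvd_sub _ _ _).1 h2.symm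
  obtain ⟨-, a2⟩ := hf x hx
  obtain ⟨b1, b2⟩ := hf y hy
  have hn : ‖(f y : ℚ_[p])‖ = 1 :=
    le_antisymm (Padic.norm_int_le_one _) (not_lt.1 fun h => b1 (Padic.norm_intCast_lt_one_iff.1 h))
  have hy0 : (f y : ℚ_[p]) ≠ 0 := fun h => by simp [h] at hn
  refine ⟨j, f x / f y, ?_, ?_⟩
  · have e1 : (f x / f y - 1 : ℚ_[p]) = ((f x - f y : ℤ) : ℚ_[p]) / f y := by
      push_cast; field_simp
    rw [e1, norm_div, hn, div_one, Padic.norm_int_le_pow_iff_dvd]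
    exact_mod_cast h3
  · have c1 : (x : ℚ_[p]) = (p : ℚ_[p]) ^ k x * f x := by exact_mod_cast a2
    have c2 : (y : ℚ_[p]) = (p : ℚ_[p]) ^ k y * f y := by exact_mod_cast b2
    have hp0 := Nec_p_ne (p := p)
    rw [mul_comm j, ← hj, zpow_sub₀ hp0, zpow_natCast, zpow_natCast, c1, c2]
    field_simp

end

theorem necessary {ι : Type} [Fintype ι] {n : ℕ} (hn : 0 < n) (a b c : ι → ℤ)
    (ha : ∀ i, a i ≠ 0) (hb : ∀ i, b i ≠ 0) (hc : ∀ i, c i ≠ 0) (hab : ∀ i, a i + b i ≠ 0)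
    (p : ℕ) [Fact p.Prime]
    (h : ∀ (r : ℕ) (χ : ℤ → Fin r), ∃ (x y w z : ι → ℤ) (col : Fin r),
      ∀ i, x i ≠ 0 ∧ y i ≠ 0 ∧ w i ≠ 0 ∧ z i ≠ 0 ∧
        a i * x i + b i * y i = c i * w i * z i ^ n ∧
        χ (x i) = col ∧ χ (y i) = col ∧ χ (w i) = col ∧ χ (z i) = col) :
    ∃ q : ℚ, (∃ t : ℚ_[p], t ^ n = q) ∧ ∀ i, q = (a i : ℚ) / c i ∨ q = (b i : ℚ) / c i ∨
      q = ((a i : ℚ) + b i) / c i := by
  rcases isEmpty_or_nonempty ι with hι | ⟨⟨i₀⟩⟩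
  · exact ⟨1, ⟨1, by simp⟩, fun i => hι.elim i⟩
  set ρ : ι × Fin 3 → ℚ := fun k => ![(a k.1 : ℚ), b k.1, a k.1 + b k.1] k.2 / c k.1 with hρ
  have hρ0 : ∀ k, ρ k ≠ 0 := by
    rintro ⟨i, k⟩
    have h1 : (a i : ℚ) ≠ 0 := Int.cast_ne_zero.2 (ha i)
    have h2 : (b i : ℚ) ≠ 0 := Int.cast_ne_zero.2 (hb i)
    have h3 : (a i : ℚ) + b i ≠ 0 := by exact_mod_cast hab i
    refine div_ne_zero ?_ (Int.cast_ne_zero.2 (hc i))
    fin_cases k
    exacts [h1, h2, h3]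
  have hsep : ∀ kl : (ι × Fin 3) × (ι × Fin 3), ∀ᶠ e : ℝ in 𝓝[>] 0, ∀ᶠ V : ℕ in atTop,
      NecH V e ((ρ kl.1 : ℚ_[p]) / (ρ kl.2 : ℚ_[p])) → ρ kl.1 = ρ kl.2 := by
    rintro ⟨k, l⟩
    by_cases hkl : ρ k = ρ l
    · exact Eventually.of_forall fun _ => Eventually.of_forall fun _ _ => hkl
    · have h1 : (ρ k : ℚ_[p]) ≠ 0 := Rat.cast_ne_zero.2 (hρ0 k)
      have h2 : (ρ l : ℚ_[p]) ≠ 0 := Rat.cast_ne_zero.2 (hρ0 l)
      have h3 : (ρ k : ℚ_[p]) / ρ l ≠ 1 := fun h =>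
        hkl (Rat.cast_injective (α := ℚ_[p]) ((div_eq_one_iff_eq h2).1 h))
      exact (Nec_sep (div_ne_zero h1 h2) h3).mono fun _ h => h.mono fun _ h h' => absurd h' h
  have hn0 : 0 < ‖(n : ℚ_[p])‖ ^ 2 := pow_pos (norm_pos_iff.2 (Nat.cast_ne_zero.2 hn.ne')) 2
  obtain ⟨e, e1, e2, e3⟩ := ((eventually_all.2 hsep).and
    ((eventually_mem_set.2 (Ioo_mem_nhdsGT hn0)).and
      (eventually_mem_set.2 (Ioo_mem_nhdsGT (zero_lt_one' ℝ))))).exists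
  have hdom := fun i => Nec_dom (p := p) (a := a i) (b := b i) (Int.cast_ne_zero.2 (ha i))
    (Int.cast_ne_zero.2 (hb i)) (by exact_mod_cast hab i) e3.1 e3.2
  obtain ⟨N, hN⟩ := eventually_atTop.1 ((eventually_all.2 e1).and ((eventually_all.2 hdom).and
    ((Nec_small (p := p) 1 e3.1).and (eventually_gt_atTop 0))))
  obtain ⟨f1, f2, f3, f4⟩ := hN (n * N) (Nat.le_mul_of_pos_left N hn)
  rw [one_mul] at f3
  obtain ⟨r, χ, hχ⟩ := Nec_colour p f4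
  obtain ⟨x, y, w, z, col, hs⟩ := h r χ
  have key : ∀ i, ∃ k : Fin 3, NecH (n * N) e ((ρ (i, k) : ℚ_[p]) / (z i : ℚ_[p]) ^ n) := by
    intro i
    obtain ⟨hx, hy, hw, hz, heq, c1, c2, c3, -⟩ := hs i
    obtain ⟨s, hs1, hs2⟩ := f2 i _ (hχ _ _ hx hy (c1.trans c2.symm))
    have g1 := (hs2.mul e3.2 ((hχ _ _ hy hw (c2.trans c3.symm)).mono f3.le)).inv e3.2
    have hy' : (y i : ℚ_[p]) ≠ 0 := Int.cast_ne_zero.2 hy
    have hw' : (w i : ℚ_[p]) ≠ 0 := Int.cast_ne_zero.2 hw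
    have heq' : (a i : ℚ_[p]) * x i + b i * y i = c i * w i * z i ^ n := by exact_mod_cast heq
    have g2 : ((a i : ℚ_[p]) * (x i / y i) + b i) / s * (y i / w i) = c i * z i ^ n / s := by
      have g3 : ((a i : ℚ_[p]) * (x i / y i) + b i) * (y i / w i) = c i * z i ^ n := by
        field_simp
        linear_combination heq'
      rw [← g3]; ring
    rw [g2, inv_div, ← div_div] at g1
    rcases hs1 with rfl | rfl | rfl
    · exact ⟨0, by simpa [hρ] using g1⟩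
    · exact ⟨1, by simpa [hρ] using g1⟩
    · exact ⟨2, by simpa [hρ] using g1⟩
  choose k hk using key
  have hz : ∀ i, (z i : ℚ_[p]) ≠ 0 := fun i => Int.cast_ne_zero.2 (hs i).2.2.2.1
  refine ⟨ρ (i₀, k i₀), ?_, fun i => ?_⟩
  · obtain ⟨t, ht⟩ := Nec_root e3.2 e2.2 (hk i₀)
    refine ⟨t * z i₀, ?_⟩
    rw [mul_pow, ht, div_mul_cancel₀ _ (pow_ne_zero _ (hz i₀))]
  · have g1 := ((hχ _ _ (hs i₀).2.2.2.1 (hs i).2.2.2.1
      ((hs i₀).2.2.2.2.2.2.2.2.trans (hs i).2.2.2.2.2.2.2.2.symm)).mono f3.le).pow e3.2 n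
    have g2 := ((hk i₀).mul e3.2 ((hk i).inv e3.2)).mul e3.2 g1
    have g3 : (ρ (i₀, k i₀) : ℚ_[p]) / (z i₀ : ℚ_[p]) ^ n * ((ρ (i, k i) : ℚ_[p]) / z i ^ n)⁻¹ *
        ((z i₀ : ℚ_[p]) / z i) ^ n = (ρ (i₀, k i₀) : ℚ_[p]) / ρ (i, k i) := by
      have := hz i
      have := hz i₀
      rw [inv_div, div_pow]
      field_simp
    rw [g3] at g2
    rw [f1 ((i₀, k i₀), (i, k i)) g2]
    generalize k i = m
    fin_cases m <;> simp [hρ]

end Pool.Agent.Lib.MP_a5a405_co.PR.G
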