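import Mathlib

/-!
The real place: a finite set of negative rational numbers contains no square at a suitable prime.
-/

namespace Pool.Agent.Lib.MP_a5a405_co.PR.G

theorem Pos_jac {m p : ℕ} (hm : 0 < m) (h : 4 * m ∣ p + 1) : jacobiSym (-(m : ℤ)) p = -1 := by
  obtain ⟨c, hc⟩ := h
  have hc0 : 0 < c := by
    rcases c with _ | c
    · omega
    · omega
  obtain ⟨d, rfl⟩ : ∃ d, c = d + 1 := ⟨c - 1, by omega⟩
  obtain ⟨b, hb⟩ : ∃ b, 4 * m = b + 1 := ⟨4 * m - 1, by omega⟩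
  have hp : p = b + 4 * m * d := by
    have : 4 * m * (d + 1) = 4 * m * d + 4 * m := by ring
    omega
  have h4 : p % 4 = 3 := by
    have : 4 * m * (d + 1) = 4 * (m * (d + 1)) := by ring
    omega
  have hodd : Odd p := Nat.odd_iff.2 (by omega)
  have hbo : Odd b := Nat.odd_iff.2 (by omega)
  have hmod : p % (4 * m) = b := by
    rw [hp, Nat.add_mul_mod_self_left, Nat.mod_eq_of_lt (by omega)]
  have h1 : jacobiSym ((4 : ℤ) * m) b = 1 := by
    rw [← jacobiSym.one_left b]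
    refine jacobiSym.mod_left' ?_
    have : (4 : ℤ) * m = 1 + b := by
      have : ((4 * m : ℕ) : ℤ) = ((b + 1 : ℕ) : ℤ) := by rw [hb]
      push_cast at this
      linarith
    rw [this, Int.add_emod_right]
  rw [jacobiSym.mul_left, jacobiSym.at_four hbo, one_mul] at h1
  rw [jacobiSym.neg _ hodd, jacobiSym.mod_right' m hodd, hmod, h1, mul_one,
    ZMod.χ₄_nat_three_mod_four h4]

theorem exists_prime_nonsquare (T : Finset ℚ) : ∃ (p : ℕ) (_ : Fact p.Prime),
    ∀ q ∈ T, q < 0 → ∀ t : ℚ_[p], t ^ 2 ≠ q := by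
  classical
  set N : ℕ := ∏ q ∈ T.filter (· < 0), q.num.natAbs * q.den with hN
  have hpos : ∀ q : ℚ, q < 0 → 0 < q.num.natAbs * q.den := fun q hq =>
    Nat.mul_pos (Int.natAbs_pos.2 (Rat.num_ne_zero.2 hq.ne)) q.pos
  have hN0 : 0 < N := Finset.prod_pos fun q hq => hpos q (Finset.mem_filter.1 hq).2
  obtain ⟨p, -, hp, hmod⟩ := Nat.forall_exists_prime_gt_and_zmodEq 0 (q := 4 * N) (a := -1)
    (by omega) isCoprime_one_left.neg_left
  have hdv : 4 * N ∣ p + 1 := by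
    have := hmod.symm.dvd
    rw [sub_neg_eq_add] at this
    exact_mod_cast this
  have : Fact p.Prime := ⟨hp⟩
  refine ⟨p, inferInstance, fun q hq hq0 t ht => ?_⟩
  set m : ℕ := q.num.natAbs * q.den with hm
  have hmN : m ∣ N := Finset.dvd_prod_of_mem (fun q : ℚ => q.num.natAbs * q.den)
    (Finset.mem_filter.2 ⟨hq, hq0⟩)
  have hj := Pos_jac (hpos q hq0) ((Nat.mul_dvd_mul_left 4 hmN).trans hdv)
  have hnum : (-(m : ℤ)) = q.num * q.den := by
    have : q.num < 0 := Rat.num_neg.2 hq0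
    rw [hm]
    push_cast
    rw [abs_of_neg this]
    ring
  have hs : (t * q.den) ^ 2 = ((-(m : ℤ) : ℤ) : ℚ_[p]) := by
    have h1 : (q : ℚ_[p]) * q.den = q.num := by exact_mod_cast Rat.mul_den_eq_num q
    rw [hnum, mul_pow, ht]
    push_cast
    rw [← h1]
    ring
  have hn : ‖t * q.den‖ ≤ 1 := by
    have h1 : ‖t * q.den‖ ^ 2 ≤ 1 := by
      rw [← norm_pow, hs]
      exact Padic.norm_int_le_one _
    exact (pow_le_one_iff_of_nonneg (norm_nonneg _) two_ne_zero).1 h1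
  let s : ℤ_[p] := ⟨t * q.den, hn⟩
  have hs' : s ^ 2 = ((-(m : ℤ) : ℤ) : ℤ_[p]) := by
    refine Subtype.ext ?_
    rw [PadicInt.coe_pow, PadicInt.coe_intCast]
    exact hs
  refine ZMod.nonsquare_of_jacobiSym_eq_neg_one hj ⟨PadicInt.toZMod s, ?_⟩
  rw [← sq, ← map_pow, hs', map_intCast]

end Pool.Agent.Lib.MP_a5a405_co.PR.G
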