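import Pool.Agent.Lib.MP_a5a405_co.G.Main
import Pool.Agent.Lib.MP_a5a405_co.G.Local
import Pool.Agent.Lib.MP_a5a405_co.G.Pos
import Pool.Agent.Lib.MP_a5a405_co.G.Nec

/-!
The local conditions suffice for partition regularity.
-/

open Finset

namespace Pool.Agent.Lib.MP_a5a405_co.PR.G

theorem local_data' {ι : Type} [Fintype ι] {n : ℕ} (hn : 0 < n) (α β : ι → ℚ)
    (hα : ∀ i, α i ≠ 0) (hβ : ∀ i, β i ≠ 0) (hγ : ∀ i, α i + β i ≠ 0)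
    (h : ∀ (p : ℕ) [Fact p.Prime], ∃ q : ℚ, (∃ t : ℚ_[p], t ^ n = q) ∧
      ∀ i, q = α i ∨ q = β i ∨ q = α i + β i) :
    ∃ (l₁ l₂ E : ℕ) (A B : ι → ℤ), 0 < l₁ ∧ 0 < l₂ ∧ 0 < E ∧
      (∀ i, (A i : ℚ) * l₁ ^ n = E * α i * l₂ ^ n ∧ (B i : ℚ) * l₁ ^ n = E * β i * l₂ ^ n) ∧
      ∀ Q : ℕ, 0 < Q → ∃ g : ℕ, g.Coprime Q ∧ ∀ i, ∃ D₁ D₂ : ℕ, 0 < D₁ ∧ 0 < D₂ ∧
        D₁.Coprime D₂ ∧ ∀ j j' : ℕ, 0 < j → 0 < j' →
          A i * D₁ ^ j + B i * D₂ ^ j' ≡ E * g ^ n [ZMOD Q] := by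
  rcases isEmpty_or_nonempty ι with hι | hι
  · exact ⟨1, 1, 1, fun _ => 0, fun _ => 0, one_pos, one_pos, one_pos, fun i => hι.elim i,
      fun Q _ => ⟨1, Nat.coprime_one_left Q, fun i => hι.elim i⟩⟩
  · exact local_data hn α β hα hβ hγ h

theorem suff_pos {ι : Type} [Fintype ι] {n : ℕ} (hn : 0 < n) (a b c : ι → ℤ)
    (ha : ∀ i, a i ≠ 0) (hb : ∀ i, b i ≠ 0) (hc : ∀ i, c i ≠ 0)
    (hloc : ∀ (p : ℕ) [Fact p.Prime], ∃ q : ℚ, (∃ t : ℚ_[p], t ^ n = q) ∧ ∀ i, a i + b i ≠ 0 →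
      (q = (a i : ℚ) / c i ∨ q = (b i : ℚ) / c i ∨ q = ((a i : ℚ) + b i) / c i))
    {q₀ : ℚ} (hq₀ : 0 < q₀) (hq : ∀ i, a i + b i ≠ 0 →
      (q₀ = (a i : ℚ) / c i ∨ q₀ = (b i : ℚ) / c i ∨ q₀ = ((a i : ℚ) + b i) / c i))
    {r : ℕ} (χ : ℕ → Fin r) : ∃ (x y w z : ι → ℕ) (κ : Fin r), ∀ i, 0 < x i ∧ 0 < y i ∧ 0 < w i ∧
      0 < z i ∧ a i * x i + b i * y i = c i * w i * z i ^ n ∧
      χ (x i) = κ ∧ χ (y i) = κ ∧ χ (w i) = κ ∧ χ (z i) = κ := by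
  classical
  have ha' : ∀ i, (a i : ℚ) ≠ 0 := fun i => by exact_mod_cast ha i
  have hb' : ∀ i, (b i : ℚ) ≠ 0 := fun i => by exact_mod_cast hb i
  have hc' : ∀ i, (c i : ℚ) ≠ 0 := fun i => by exact_mod_cast hc i
  obtain ⟨l₁, l₂, E, A, B, hl₁, hl₂, hE, hAB, hcong⟩ :=
    local_data' (ι := {i // a i + b i ≠ 0}) hn (fun i => (a i : ℚ) / c i) (fun i => (b i : ℚ) / c i)
      (fun i => div_ne_zero (ha' i) (hc' i)) (fun i => div_ne_zero (hb' i) (hc' i))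
      (fun i => by
        rw [← add_div]
        exact div_ne_zero (by exact_mod_cast i.2) (hc' i))
      (fun p _ => by
        obtain ⟨q, h1, h2⟩ := hloc p
        exact ⟨q, h1, fun i => by rw [← add_div]; exact h2 i i.2⟩)
  have hl₁' : (0 : ℚ) < (l₁ : ℚ) ^ n := by positivity
  have hl₂' : (0 : ℚ) < (l₂ : ℚ) ^ n := by positivity
  have hE' : (0 : ℚ) < E := by positivity
  obtain ⟨ρ₁, ρ₂, hρ₁, hρ₂, hρ⟩ : ∃ ρ₁ ρ₂ : ℕ, 0 < ρ₁ ∧ 0 < ρ₂ ∧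
      (ρ₁ : ℚ) * l₁ ^ n = ρ₂ * (q₀ * l₂ ^ n) := by
    have h1 : 0 < q₀.num := Rat.num_pos.2 hq₀
    refine ⟨q₀.num.natAbs * l₂ ^ n, q₀.den * l₁ ^ n, mul_pos (Int.natAbs_pos.2 h1.ne') (by positivity),
      mul_pos q₀.den_pos (by positivity), ?_⟩
    have h2 : ((q₀.num.natAbs : ℕ) : ℚ) = q₀ * q₀.den := by
      rw [Rat.mul_den_eq_num, ← Int.cast_natCast, Int.natAbs_of_nonneg h1.le]
    push_cast
    rw [h2]
    ring
  have key : ∀ (u : ℤ) (v : ℚ), (u : ℚ) * l₁ ^ n = E * v * l₂ ^ n → q₀ = v → ρ₂ * u = ρ₁ * E := by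
    intro u v h1 h2
    have h3 : (ρ₂ : ℚ) * u = ρ₁ * E := by
      refine mul_right_cancel₀ hl₁'.ne' ?_
      rw [← h2] at h1
      linear_combination ρ₂ * h1 - E * hρ
    exact_mod_cast h3
  have hne : ∀ (u : ℤ) (v : ℚ), (u : ℚ) * l₁ ^ n = E * v * l₂ ^ n → v ≠ 0 → u ≠ 0 := by
    rintro _ v h1 h2 rfl
    rw [Int.cast_zero, zero_mul] at h1
    exact mul_ne_zero (mul_ne_zero hE'.ne' h2) hl₂'.ne' h1.symm
  obtain ⟨κ, hrich, hsol⟩ := core hn hE hρ₁ hρ₂ hl₁ hl₂ A B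
    (fun i => hne _ _ (hAB i).1 (div_ne_zero (ha' i) (hc' i)))
    (fun i => hne _ _ (hAB i).2 (div_ne_zero (hb' i) (hc' i)))
    (fun i => (hq i i.2).imp (key _ _ (hAB i).1) (Or.imp (key _ _ (hAB i).2) (key _ _ (by
      push_cast
      linear_combination (hAB i).1 + (hAB i).2)))) hcong χ
  have h : ∀ i, ∃ x y w z : ℕ, 0 < x ∧ 0 < y ∧ 0 < w ∧ 0 < z ∧
      a i * x + b i * y = c i * w * z ^ n ∧ χ x = κ ∧ χ y = κ ∧ χ w = κ ∧ χ z = κ := by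
    intro i
    by_cases hi : a i + b i = 0
    · obtain ⟨z, -, hz, -, hzκ, -⟩ := hrich 1 0 one_pos
      obtain ⟨y, d, hy, hd, h1, h2, h3⟩ := hrich (a i).natAbs ((c i).natAbs * z ^ n)
        (Int.natAbs_pos.2 (ha i))
      have hbi : b i = - a i := by linarith
      have hw : 0 < (a i).natAbs * d := mul_pos (Int.natAbs_pos.2 (ha i)) hd
      have h4 : a i * |c i| = c i * |a i| ∨ -(a i * |c i|) = c i * |a i| := by
        rcases abs_choice (a i) with p | p <;> rcases abs_choice (c i) with q | q <;>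
          rw [p, q] <;> first | (left; ring1) | (right; ring1)
      rcases h4 with h4 | h4
      · refine ⟨_, y, _, z, by positivity, hy, hw, hz, ?_, h2, h1, h3, hzκ⟩
        rw [hbi]
        push_cast
        linear_combination (z ^ n * d : ℤ) * h4
      · refine ⟨y, _, _, z, hy, by positivity, hw, hz, ?_, h1, h2, h3, hzκ⟩
        rw [hbi]
        push_cast
        linear_combination (z ^ n * d : ℤ) * h4
    · obtain ⟨s, z, X, Y, t, hz, h1, h2, h3, h4, h5, h6⟩ := hsol ⟨i, hi⟩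
      refine ⟨_, _, _, _, h3.1, h4.1, h5, mul_pos hl₁ hz, ?_, h3.2, h4.2, h6, h2⟩
      obtain ⟨p, q⟩ := hAB ⟨i, hi⟩
      have h7 : ((A ⟨i, hi⟩ : ℤ) : ℚ) * X + B ⟨i, hi⟩ * Y = E * t := by exact_mod_cast h1
      have p' : (a i : ℚ) * (E * l₂ ^ n) = c i * (A ⟨i, hi⟩ * l₁ ^ n) := by
        rw [p]; field_simp [hc' i]
      have q' : (b i : ℚ) * (E * l₂ ^ n) = c i * (B ⟨i, hi⟩ * l₁ ^ n) := by
        rw [q]; field_simp [hc' i]
      have h8 : (a i : ℚ) * (s * (l₂ * z) ^ n * X) + b i * (s * (l₂ * z) ^ n * Y)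
          = c i * (s * t) * (l₁ * z) ^ n := by
        refine mul_left_cancel₀ hE'.ne' ?_
        rw [mul_pow, mul_pow]
        linear_combination (s * z ^ n * X : ℚ) * p' + (s * z ^ n * Y : ℚ) * q'
          + (c i * s * l₁ ^ n * z ^ n : ℚ) * h7
      exact_mod_cast h8
  choose x y w z h using h
  exact ⟨x, y, w, z, κ, h⟩

theorem sufficient {ι : Type} [Fintype ι] {n : ℕ} (hn : 0 < n) (a b c : ι → ℤ)
    (ha : ∀ i, a i ≠ 0) (hb : ∀ i, b i ≠ 0) (hc : ∀ i, c i ≠ 0)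
    (hloc : ∀ (p : ℕ) [Fact p.Prime], ∃ q : ℚ, (∃ t : ℚ_[p], t ^ n = q) ∧ ∀ i, a i + b i ≠ 0 →
      (q = (a i : ℚ) / c i ∨ q = (b i : ℚ) / c i ∨ q = ((a i : ℚ) + b i) / c i))
    {r : ℕ} (χ : ℤ → Fin r) : ∃ (x y w z : ι → ℤ) (κ : Fin r), ∀ i, x i ≠ 0 ∧ y i ≠ 0 ∧ w i ≠ 0 ∧
      z i ≠ 0 ∧ a i * x i + b i * y i = c i * w i * z i ^ n ∧
      χ (x i) = κ ∧ χ (y i) = κ ∧ χ (w i) = κ ∧ χ (z i) = κ := by
  classical
  have hq : ∃ q : ℚ, q ≠ 0 ∧ (q < 0 → Odd n) ∧ ∀ i, a i + b i ≠ 0 →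
      (q = (a i : ℚ) / c i ∨ q = (b i : ℚ) / c i ∨ q = ((a i : ℚ) + b i) / c i) := by
    by_cases h0 : ∃ i, a i + b i ≠ 0
    swap
    · exact ⟨1, one_ne_zero, fun h => absurd h (by norm_num), fun i hi => absurd ⟨i, hi⟩ h0⟩
    obtain ⟨i, hi⟩ := h0
    obtain ⟨p, _, hp⟩ := exists_prime_nonsquare
      {(a i : ℚ) / c i, (b i : ℚ) / c i, ((a i : ℚ) + b i) / c i}
    obtain ⟨q, ⟨t, ht⟩, h1⟩ := hloc p
    have hc' : (c i : ℚ) ≠ 0 := by exact_mod_cast hc i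
    refine ⟨q, ?_, fun h => ?_, h1⟩
    · rcases h1 i hi with h | h | h <;> rw [h] <;> refine div_ne_zero ?_ hc'
      exacts [by exact_mod_cast ha i, by exact_mod_cast hb i, by exact_mod_cast hi]
    · rw [← Nat.not_even_iff_odd]
      rintro ⟨m, rfl⟩
      exact hp q (by simpa using h1 i hi) h (t ^ m) (by rw [← ht]; ring)
  obtain ⟨q, hq0, hodd, hq⟩ := hq
  rcases lt_or_gt_of_ne hq0 with h | h
  · have hneg : ∀ u : ℚ, (∀ i, a i + b i ≠ 0 →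
        (u = (a i : ℚ) / c i ∨ u = (b i : ℚ) / c i ∨ u = ((a i : ℚ) + b i) / c i)) →
        ∀ i, -a i + -b i ≠ 0 → (-u = ((-a i : ℤ) : ℚ) / c i ∨ -u = ((-b i : ℤ) : ℚ) / c i ∨
          -u = (((-a i : ℤ) : ℚ) + (-b i : ℤ)) / c i) := by
      intro u hu i hi
      push_cast
      rw [← neg_add, neg_div, neg_div, neg_div]
      simpa only [neg_inj] using hu i fun h => hi (by linarith)
    obtain ⟨x, y, w, z, κ, h1⟩ := suff_pos hn (fun i => -a i) (fun i => -b i) c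
      (fun i => neg_ne_zero.2 (ha i)) (fun i => neg_ne_zero.2 (hb i)) hc
      (fun p _ => by
        obtain ⟨u, ⟨t, ht⟩, h1⟩ := hloc p
        exact ⟨-u, ⟨-t, by rw [(hodd h).neg_pow, ht, Rat.cast_neg]⟩, hneg u h1⟩)
      (neg_pos.2 h) (hneg q hq) fun m => χ (-m)
    refine ⟨fun i => -x i, fun i => -y i, fun i => -w i, fun i => -z i, κ, fun i => ?_⟩
    obtain ⟨p1, p2, p3, p4, p5, p6⟩ := h1 i
    refine ⟨by simpa using p1.ne', by simpa using p2.ne', by simpa using p3.ne',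
      by simpa using p4.ne', ?_, p6⟩
    rw [(hodd h).neg_pow]
    linear_combination p5
  · obtain ⟨x, y, w, z, κ, h1⟩ := suff_pos hn a b c ha hb hc hloc h hq fun m => χ m
    refine ⟨fun i => x i, fun i => y i, fun i => w i, fun i => z i, κ, fun i => ?_⟩
    obtain ⟨p1, p2, p3, p4, p5⟩ := h1 i
    exact ⟨by simpa using p1.ne', by simpa using p2.ne', by simpa using p3.ne',
      by simpa using p4.ne', p5⟩

end Pool.Agent.Lib.MP_a5a405_co.PR.G
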