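import Pool.Agent.Lib.MP_a5a405_co.InvMean
import Pool.Agent.Lib.MP_a5a405_co.Brauer

/-!
A dilation invariant mean all of whose large sets contain Brauer configurations.
-/

open Finset Filter Topology
open scoped Classical

namespace Pool.Agent.Lib.MP_a5a405_co.PR.G

lemma Rich_brauer {κ : Type} [Finite κ] (J : ℕ) {α : ℕ} (hα : 0 < α) (T : Finset κ) :
    ∀ χ : ℕ → κ, (∀ n, 0 < n → χ n ∈ T) →
      ∃ y d, 0 < y ∧ 0 < d ∧ ∀ j, j ≤ J → χ (y + j * d) = χ (α * d) := by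
  induction T using Finset.strongInduction with
  | H T ih =>
    intro χ hχ
    by_contra hno
    have key : ∀ N : ℕ, ∃ (a : ℕ) (c : κ), 0 < a ∧ c ∈ T ∧
        ∀ j, 0 < j → j ≤ N → χ (a * α * j) ≠ c := by
      intro N
      obtain ⟨a, ha, b, c, h⟩ := Combinatorics.exists_mono_homothetic_copy
        (Finset.range (J * N + 1)) (fun n : ℕ => χ (n + 1))
      have h0 : χ (b + 1) = c := by simpa using h 0 (by simp)
      refine ⟨a, c, ha, h0 ▸ hχ _ b.succ_pos, fun j hj hjN hjc => hno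
        ⟨b + 1, a * j, b.succ_pos, by positivity, fun i hi => ?_⟩⟩
      have h1 := h (i * j) (mem_range.2 (Nat.lt_succ_of_le (Nat.mul_le_mul hi hjN)))
      rw [show α * (a * j) = a * α * j by ring, hjc, ← h1]
      congr 1
      simp only [smul_eq_mul]
      ring
    choose a c ha hcT hc using key
    let U : Ultrafilter ℕ := hyperfilter ℕ
    obtain ⟨c₀, hc₀⟩ := exists_lim U c
    have hψ : ∀ j : ℕ, ∃ d, ∀ᶠ N in (U : Filter ℕ), χ (a N * α * j) = d :=
      fun j => exists_lim U _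
    choose ψ hψ using hψ
    have hU : ∀ j : ℕ, ∀ᶠ N in (U : Filter ℕ), j ≤ N := fun j =>
      (Nat.hyperfilter_le_atTop) (eventually_ge_atTop j)
    have hc₀T : c₀ ∈ T := by
      obtain ⟨N, hN⟩ := hc₀.exists
      exact hN ▸ hcT N
    have hψT : ∀ j, 0 < j → ψ j ∈ T.erase c₀ := by
      intro j hj
      obtain ⟨N, h1, h2, h3⟩ := (hc₀.and ((hψ j).and (hU j))).exists
      have := ha N
      rw [Finset.mem_erase, ← h2, ← h1]
      exact ⟨hc N j hj h3, hχ _ (by positivity)⟩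
    obtain ⟨y, d, hy, hd, h1⟩ := ih (T.erase c₀) (Finset.erase_ssubset hc₀T) ψ hψT
    obtain ⟨N, e1, e2⟩ := ((hψ (α * d)).and ((eventually_all_finset (range (J + 1))).2
      fun j _ => hψ (y + j * d))).exists
    have := ha N
    refine hno ⟨a N * α * y, a N * α * d, by positivity, by positivity, fun j hj => ?_⟩
    rw [show a N * α * y + j * (a N * α * d) = a N * α * (y + j * d) by ring,
      show α * (a N * α * d) = a N * α * (α * d) by ring, e1,
      e2 j (mem_range.2 (Nat.lt_succ_of_le hj)), h1 j hj]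

/-- a set that contains all three term Brauer configurations -/
def RichSet (A : Set ℕ) : Prop :=
  ∀ α m : ℕ, 0 < α → ∃ y d, 0 < y ∧ 0 < d ∧ y ∈ A ∧ y + m * d ∈ A ∧ α * d ∈ A

lemma Rich_colour {κ : Type} [Finite κ] (χ : ℕ → κ) : ∃ c, RichSet {n | χ n = c} := by
  have := Fintype.ofFinite κ
  by_contra hno
  simp only [RichSet, not_exists, not_forall] at hno
  choose α m hα h using hno
  have hp : 0 < ∏ c, α c := prod_pos fun c _ => hα c
  obtain ⟨y, d, hy, hd, h1⟩ := Rich_brauer ((∑ c, m c) * ∏ c, α c) hp univ χ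
    fun _ _ => mem_univ _
  set c := χ ((∏ c, α c) * d) with hc
  obtain ⟨β, hβ⟩ : α c ∣ ∏ c, α c := dvd_prod_of_mem _ (mem_univ c)
  have hβ0 : 0 < β := Nat.pos_of_mul_pos_left (hβ ▸ hp)
  refine h c y (β * d) ⟨hy, by positivity, by simpa using h1 0 (Nat.zero_le _), ?_, ?_⟩
  · have h2 := h1 (m c * β) (Nat.mul_le_mul (single_le_sum (fun _ _ => Nat.zero_le _) (mem_univ c))
      (Nat.le_of_dvd hp (Dvd.intro_left _ hβ.symm)))
    rwa [mul_assoc] at h2
  · change χ (α c * (β * d)) = c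
    rw [← mul_assoc, ← hβ]

lemma Rich_ultra : ∃ U : Ultrafilter ℕ, ∀ A ∈ U, RichSet A := by
  obtain ⟨U, hU⟩ := Ultrafilter.exists_ultrafilter_of_finite_inter_nonempty
    {A : Set ℕ | ¬ RichSet Aᶜ} (by
      intro T hT
      by_contra hne
      rw [Set.not_nonempty_iff_eq_empty] at hne
      have hcov : ∀ n : ℕ, ∃ A : T, n ∉ (A : Set ℕ) := by
        intro n
        by_contra h
        push Not at h
        have : n ∈ ⋂₀ (T : Set (Set ℕ)) := fun A hA => h ⟨A, hA⟩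
        rw [hne] at this
        exact this
      choose χ hχ using hcov
      obtain ⟨c, hc⟩ := Rich_colour χ
      refine hT c.2 fun α m hα => ?_
      obtain ⟨y, d, hy, hd, h1, h2, h3⟩ := hc α m hα
      have k : ∀ n, χ n = c → n ∈ (c : Set ℕ)ᶜ := fun n hn => hn ▸ hχ n
      exact ⟨y, d, hy, hd, k _ h1, k _ h2, k _ h3⟩)
  refine ⟨U, fun A hA => ?_⟩
  by_contra h
  have : Aᶜ ∈ U := hU (by simpa using h)
  exact (Ultrafilter.compl_mem_iff_notMem.1 this) hA

lemma Rich_lim (U : Ultrafilter ℕ) :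
    ∃ E : Mean ℕ, ∀ f, Bdd f → Tendsto f U (𝓝 (E.m f)) := by
  have ex : ∀ f : bddSub, ∃ a, Tendsto (f : ℕ → ℝ) U (𝓝 a) := fun ⟨f, C, hC⟩ => by
    obtain ⟨a, -, ha⟩ := (isCompact_Icc (a := -C) (b := C)).ultrafilter_le_nhds (U.map f)
      (by rw [le_principal_iff]; exact mem_map.2 (univ_mem' fun n => abs_le.1 (hC n)))
    exact ⟨a, ha⟩
  choose lim hlim using ex
  let L : bddSub →ₗ[ℝ] ℝ :=
    { toFun := lim
      map_add' := fun f g => tendsto_nhds_unique (hlim (f + g)) ((hlim f).add (hlim g))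
      map_smul' := fun c f => tendsto_nhds_unique (hlim (c • f)) ((hlim f).const_mul c) }
  obtain ⟨m, hm⟩ := L.exists_extend
  have hm' : ∀ f, Bdd f → Tendsto f U (𝓝 (m f)) := by
    intro f hf
    have h1 : m f = lim ⟨f, hf⟩ := LinearMap.congr_fun hm ⟨f, hf⟩
    rw [h1]
    exact hlim ⟨f, hf⟩
  exact ⟨⟨m, fun f hf h0 => ge_of_tendsto' (hm' f hf) h0,
    tendsto_nhds_unique (hm' _ (Bdd.const 1)) tendsto_const_nhds⟩, hm'⟩

theorem exists_richMean : ∃ E : Mean ℕ, (∀ d, 0 < d → E.Pres (fun n => d * n)) ∧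
    (∀ f : ℕ → ℝ, Bdd f → (∀ n, 0 < n → 0 ≤ f n) → 0 ≤ E.m f) ∧
    ∀ A : ℕ → Prop, 0 < E.m (fun y => if A y then 1 else 0) → ∀ α m : ℕ, 0 < α →
      ∃ y d, 0 < y ∧ 0 < d ∧ A y ∧ A (y + m * d) ∧ A (α * d) := by
  obtain ⟨U, hU⟩ := Rich_ultra
  obtain ⟨L, hL⟩ := Rich_lim U
  have hpos : ∀ᶠ u in (U : Filter ℕ), 0 < u := by
    by_contra h
    obtain ⟨y, -, hy, -, h1, -⟩ := hU _ (Ultrafilter.eventually_not.2 h) 1 0 one_pos
    exact h1 hy
  let E : Mean ℕ :=
    { m := (L.prod EE).m ∘ₗ LinearMap.funLeft ℝ ℝ fun p : ℕ × ℕ => p.2 * p.1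
      nonneg := fun f hf h0 => (L.prod EE).nonneg _ (hf.comp _) fun _ => h0 _
      one := (L.prod EE).one }
  have hE : ∀ f, E.m f = EE.m fun s => L.m fun u => f (s * u) := fun f => rfl
  have hb : ∀ f, Bdd f → Bdd fun s => L.m fun u => f (s * u) := fun f hf =>
    L.bdd_inner (f := fun p : ℕ × ℕ => f (p.2 * p.1)) (hf.comp _)
  refine ⟨E, fun d hd f hf => ?_, fun f hf h0 => ?_, fun A hA α m hα => ?_⟩
  · rw [hE, hE, ← EE_dil hd (hb f hf)]
    simp only [mul_assoc]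
  · rw [hE, ← EE.const 0]
    refine EE_mono one_pos (Bdd.const 0) (hb f hf) fun s hs _ => ?_
    exact ge_of_tendsto (hL _ (hf.comp _)) (hpos.mono fun u hu => h0 _ (by positivity))
  · have hf : Bdd fun y => if A y then (1 : ℝ) else 0 :=
      ⟨1, fun y => by by_cases h : A y <;> simp [h]⟩
    obtain ⟨s, hs, h1⟩ : ∃ s, 0 < s ∧ ∀ᶠ u in (U : Filter ℕ), A (s * u) := by
      by_contra h
      refine hA.not_ge ?_
      rw [hE]
      refine (EE_mono one_pos (hb _ hf) (Bdd.const 0) fun s hs _ => ?_).trans_eq (EE.const 0)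
      refine le_of_tendsto (hL _ (hf.comp _))
        ((Ultrafilter.eventually_not.2 fun k => h ⟨s, hs, k⟩).mono fun u hu => ?_)
      rw [if_neg hu]
    obtain ⟨y, d, hy, hd, h2, h3, h4⟩ := hU _ h1 α m hα
    refine ⟨s * y, s * d, by positivity, by positivity, h2, ?_, ?_⟩
    · rw [show s * y + m * (s * d) = s * (y + m * d) by ring]
      exact h3
    · rw [mul_left_comm]
      exact h4

end Pool.Agent.Lib.MP_a5a405_co.PR.G
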