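import Pool.Agent.Lib.MP_a5a405_co.Energy
import Pool.Agent.Lib.MP_a5a405_co.G.Rich

/-!
The lemmas on invariant means, for the mean whose large sets are rich.
-/

open Finset Filter Topology
open scoped Classical

namespace Pool.Agent.Lib.MP_a5a405_co.PR.G

/-- A fixed dilation invariant mean. -/
noncomputable def EE : Mean ℕ := exists_richMean.choose

lemma EE_pres {d : ℕ} (hd : 0 < d) : EE.Pres (fun n => d * n) := exists_richMean.choose_spec.1 d hd

lemma EE_rich {A : ℕ → Prop} (hA : 0 < EE.m (fun y => if A y then 1 else 0)) {α : ℕ} (hα : 0 < α)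
    (m : ℕ) : ∃ y d, 0 < y ∧ 0 < d ∧ A y ∧ A (y + m * d) ∧ A (α * d) :=
  exists_richMean.choose_spec.2.2 A hA α m hα

lemma EE_dil {d : ℕ} (hd : 0 < d) {f : ℕ → ℝ} (hf : Bdd f) : EE.m (fun n => f (d * n)) = EE.m f :=
  EE_pres hd f hf

lemma EE_mono {L : ℕ} (hL : 0 < L) {f g : ℕ → ℝ} (hf : Bdd f) (hg : Bdd g)
    (h : ∀ n, 0 < n → L ∣ n → f n ≤ g n) : EE.m f ≤ EE.m g := by
  have h1 := exists_richMean.choose_spec.2.1 (fun n => g (L * n) - f (L * n))
    ((hg.comp _).sub (hf.comp _))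
    (fun n hn => sub_nonneg.2 (h _ (by positivity) (dvd_mul_right _ _)))
  change 0 ≤ EE.m _ at h1
  rw [EE.sub, EE_dil hL hf, EE_dil hL hg] at h1
  linarith

/-- The mean on pairs (multiplier, scale). -/
noncomputable def MM : Mean (ℕ × ℕ) := EE.prod EE

lemma MM_pres {a b : ℕ} (ha : 0 < a) (hb : 0 < b) : MM.Pres (fun x => (a * x.1, b * x.2)) := by
  intro f hf
  simp only [MM, Mean.prod_m]
  have h1 : ∀ y, EE.m (fun x => f (a * x, b * y)) = EE.m (fun x => f (x, b * y)) := fun y =>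
    EE_dil ha (f := fun x => f (x, b * y)) (hf.comp _)
  simp only [h1]
  exact EE_dil hb (f := fun y => EE.m (fun x => f (x, y))) (EE.bdd_inner hf)

lemma MM_mono' {L : ℕ} (hL : 0 < L) {f g : ℕ × ℕ → ℝ} (hf : Bdd f) (hg : Bdd g)
    (h : ∀ N, 0 < N → L ∣ N → EE.m (fun s => f (s, N)) ≤ EE.m (fun s => g (s, N))) :
    MM.m f ≤ MM.m g :=
  EE_mono hL (EE.bdd_inner hf) (EE.bdd_inner hg) h

lemma MM_mono {L : ℕ} (hL : 0 < L) {f g : ℕ × ℕ → ℝ} (hf : Bdd f) (hg : Bdd g)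
    (h : ∀ s N, 0 < s → 0 < N → L ∣ N → f (s, N) ≤ g (s, N)) : MM.m f ≤ MM.m g :=
  MM_mono' hL hf hg fun N hN hLN =>
    EE_mono one_pos (hf.comp _) (hg.comp _) fun s hs _ => h s N hs hN hLN

lemma MM_div {a b : ℕ} (ha : 0 < a) (hb : 0 < b) {f : ℕ × ℕ → ℝ} (hf : Bdd f) :
    MM.m (fun x => f (a * x.1, x.2 / b)) = MM.m f := by
  have h1 := MM_pres one_pos hb (fun x => f (a * x.1, x.2 / b)) (hf.comp _)
  have h2 := MM_pres ha one_pos f hf
  simp only [one_mul, Nat.mul_div_cancel_left _ hb] at h1 h2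
  rw [← h1, h2]

lemma exists_chain {R : ℕ → Prop} (hR : EE.m (fun y => if R y then 1 else 0) ≤ 0) (J : ℕ) :
    ∃ y : ℕ → ℕ, (∀ j, 0 < y j) ∧ ∀ j j', j < j' → j' < J → ∃ t, ¬ R t ∧ y j' = t * y j := by
  induction J with
  | zero => exact ⟨fun _ => 1, fun _ => one_pos, fun _ _ _ h => absurd h (Nat.not_lt_zero _)⟩
  | succ J ih =>
    obtain ⟨y, hy, hc⟩ := ih
    set Y := ∏ j ∈ range J, y j with hY
    have hY0 : 0 < Y := prod_pos fun j _ => hy j
    have hd : ∀ j ∈ range J, y j ∣ Y := fun j hj => dvd_prod_of_mem _ hj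
    obtain ⟨t, ht, h1⟩ : ∃ t, 0 < t ∧ ∀ j ∈ range J, ¬ R (Y / y j * t) := by
      by_contra hcon
      push Not at hcon
      have h2 := EE_mono one_pos (Bdd.const 1) (Bdd.sum (range J) fun j =>
        bdd_ind fun t => R (Y / y j * t)) fun t ht _ => by
          obtain ⟨j, hj, h3⟩ := hcon t ht
          refine le_trans ?_ (single_le_sum (f := fun j => if R (Y / y j * t) then (1 : ℝ) else 0)
            (fun j _ => by split_ifs <;> simp) hj)
          rw [if_pos h3]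
      rw [EE.const, EE.sum] at h2
      have h3 : ∀ j ∈ range J, EE.m (fun t => if R (Y / y j * t) then (1 : ℝ) else 0) ≤ 0 := by
        intro j hj
        rw [EE_dil (Nat.div_pos (Nat.le_of_dvd hY0 (hd j hj)) (hy j)) (bdd_ind R)]
        exact hR
      linarith [sum_nonpos h3]
    refine ⟨Function.update y J (t * Y), fun j => ?_, fun j j' hj hj' => ?_⟩
    · by_cases h : j = J
      · subst h; simp [ht, hY0]
      · simp [h, hy j]
    · rw [Function.update_of_ne (by omega : j ≠ J)]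
      by_cases h : j' = J
      · subst h
        refine ⟨_, h1 j (mem_range.2 hj), ?_⟩
        rw [Function.update_self, mul_right_comm, Nat.div_mul_cancel (hd j (mem_range.2 hj)),
          mul_comm]
      · rw [Function.update_of_ne h]
        exact hc j j' hj (by omega)

theorem recurrence {Ω ι : Type} (E : Mean Ω) (w : ι → ℕ → Ω → ℝ)
    (hw : ∀ i y x, 0 ≤ w i y x ∧ w i y x ≤ 1) (I : Finset ι) (μ : ι → ℝ) (hμ : ∀ i ∈ I, 0 < μ i)
    (hm : ∀ i ∈ I, ∀ y, 0 < y → μ i ≤ E.m (w i y))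
    (hinv : ∀ i t c, 0 < c →
      E.m (fun x => w i (t * c) x * w i c x) = E.m (fun x => w i t x * w i 1 x)) (R : ℕ → Prop)
    (hR : ∀ y, (∀ i ∈ I, (∏ i ∈ I, μ i) ^ 2 / 2 ≤ E.m (fun x => w i y x * w i 1 x)) → R y) :
    0 < EE.m (fun y => if R y then 1 else 0) := by
  by_contra hcon
  have hb : ∀ i y, Bdd (w i y) := fun i y => Bdd.of_mem (hw i y)
  set e := (∏ i ∈ I, μ i) ^ 2 / 2 with he
  have he0 : 0 < e := by have := prod_pos hμ; positivity
  obtain ⟨J, hJ⟩ := exists_nat_gt (1 / e)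
  obtain ⟨y, hy, hc⟩ := exists_chain (not_lt.1 hcon) J
  obtain ⟨Ω', E', X, hX, h1, h2⟩ := exists_tensor E w hb I
  have hc01 : ∀ i a b, 0 ≤ E.m (fun x => w i a x * w i b x) ∧ E.m (fun x => w i a x * w i b x) ≤ 1 :=
    fun i a b => ⟨E.const_le ((hb _ _).mul (hb _ _)) fun x => mul_nonneg (hw _ _ _).1 (hw _ _ _).1,
      E.le_const ((hb _ _).mul (hb _ _)) fun x => mul_le_one₀ (hw _ _ _).2 (hw _ _ _).1 (hw _ _ _).2⟩
  have h3 : ∀ j j', j < j' → j' < J → E'.m (fun x => X (y j') x * X (y j) x) ≤ e := by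
    intro j j' hj hj'
    obtain ⟨t, ht, h4⟩ := hc j j' hj hj'
    replace ht := mt (hR t) ht
    push Not at ht
    obtain ⟨i, hi, ht⟩ := ht
    rw [h1, ← mul_prod_erase I _ hi, h4, hinv i t _ (hy j)]
    exact (mul_le_of_le_one_right (hc01 _ _ _).1
      (prod_le_one (fun i _ => (hc01 _ _ _).1) fun i _ => (hc01 _ _ _).2)).trans ht.le
  have h4 : ∀ j ∈ range J, ∑ j' ∈ range J, E'.m (fun x => X (y j) x * X (y j') x) ≤ 1 + J * e := by
    intro j hj
    have h5 : ∀ j' ∈ range J, E'.m (fun x => X (y j) x * X (y j') x)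
        ≤ (if j = j' then 1 else 0) + e := by
      intro j' hj'
      rcases lt_trichotomy j j' with h | h | h
      · rw [if_neg h.ne, zero_add]
        simpa only [mul_comm] using h3 j j' h (mem_range.1 hj')
      · rw [if_pos h, h1]
        linarith [prod_le_one (s := I) (fun i _ => (hc01 i (y j) (y j')).1)
          fun i _ => (hc01 i (y j) (y j')).2]
      · rw [if_neg h.ne', zero_add]
        exact h3 j' j h (mem_range.1 hj)
    simpa [sum_add_distrib, mem_range.1 hj] using sum_le_sum h5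
  have h5 := E'.cs (Bdd.sum (range J) fun j => hX (y j)) (Bdd.const 1)
  simp only [mul_one, E'.one, sq, sum_mul_sum, E'.sum] at h5
  have h6 : ∀ j ∈ range J, ∏ i ∈ I, μ i ≤ E'.m (X (y j)) := fun j _ => by
    rw [h2]
    exact prod_le_prod (fun i hi => (hμ i hi).le) fun i hi => hm i hi _ (hy j)
  have h7 := sum_le_sum h6
  have h8 := sum_le_sum h4
  simp only [sum_const, card_range, nsmul_eq_mul] at h7 h8
  rw [← sum_mul_sum] at h5
  have h9 : (0 : ℝ) < J := (by positivity : 0 < 1 / e).trans hJ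
  have h10 := mul_self_le_mul_self (mul_pos h9 (prod_pos hμ)).le h7
  rw [div_lt_iff₀ he0] at hJ
  have h11 : (J : ℝ) * (∏ i ∈ I, μ i) * (J * ∏ i ∈ I, μ i) = J * (J * (2 * e)) := by
    rw [he]; ring
  nlinarith

theorem pick {A : ℕ → Prop} (hA : 0 < EE.m (fun y => if A y then 1 else 0)) (Λ : ℝ) :
    ∃ z, 0 < z ∧ ∃ S : Finset ℕ, (∀ p ∈ S, p.Prime ∧ A (p * z)) ∧ Λ ≤ ∑ p ∈ S, 1 / (p : ℝ) := by
  set ρ := EE.m (fun y => if A y then 1 else 0) with hρ
  obtain ⟨u, hu⟩ : ∃ u : Finset ℕ,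
      Λ / ρ < ∑ p ∈ u, Set.indicator {p | p.Prime} (fun n : ℕ => (1 : ℝ) / n) p := by
    by_contra hcon
    push Not at hcon
    exact not_summable_one_div_on_primes (summable_of_sum_le
      (fun p => Set.indicator_nonneg (fun _ _ => by positivity) p) hcon)
  set S := u.filter Nat.Prime with hS
  have h1 : Λ < ρ * ∑ p ∈ S, 1 / (p : ℝ) := by
    rw [div_lt_iff₀ hA, mul_comm] at hu
    rw [hS, sum_filter]
    simpa [Set.indicator_apply] using hu
  by_contra hcon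
  push Not at hcon
  have h2 := EE_mono one_pos (Bdd.sum S fun p => (bdd_ind fun z => A (p * z)).div_const (p : ℝ))
    (Bdd.const Λ) fun z hz _ => by
      refine le_trans (le_of_eq ?_) (hcon z hz (S.filter fun p => A (p * z))
        fun p hp => ⟨(mem_filter.1 (mem_filter.1 hp).1).2, (mem_filter.1 hp).2⟩).le
      rw [sum_filter (fun p => A (p * z))]
      exact sum_congr rfl fun p _ => by split_ifs <;> simp
  rw [EE.const, EE.sum] at h2
  have h3 : ∀ p ∈ S, EE.m (fun z => (if A (p * z) then (1 : ℝ) else 0) / p) = ρ * (1 / p) := by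
    intro p hp
    rw [EE.div_const, EE_dil (mem_filter.1 hp).2.pos (bdd_ind A), mul_one_div]
  rw [sum_congr rfl h3, ← mul_sum] at h2
  linarith

noncomputable def OM (M : ℕ) [NeZero M] : Mean (Om M) :=
  (Mean.avg (cells M) (cells_nonempty M)).prod MM

lemma OM_m (M : ℕ) [NeZero M] (f : Om M → ℝ) :
    (OM M).m f = MM.m (fun y => (∑ c ∈ cells M, f (c, y)) / (cells M).card) := rfl

lemma OM_pres {M : ℕ} [NeZero M] {u a b : ℕ} (hu : u.Coprime M) (ha : 0 < a) (hb : 0 < b) :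
    (OM M).Pres (act u a b) := by
  intro f hf
  have hu' : IsUnit (u : ZMod M) := (ZMod.isUnit_iff_coprime u M).2 hu
  refine Eq.trans ?_ (MM_pres ha hb _ ((Mean.avg (cells M) (cells_nonempty M)).bdd_inner hf))
  rw [OM_m]
  congr 1
  ext y
  rw [Mean.avg_m]
  congr 1
  unfold cells
  rw [sum_product, sum_product]
  exact Equiv.sum_comp hu'.unit.mulLeft fun r => ∑ j ∈ range M, f ((r, j), (a * y.1, b * y.2))

lemma OM_mono {M : ℕ} [NeZero M] {L : ℕ} (hL : 0 < L) {f g : Om M → ℝ} (hf : Bdd f) (hg : Bdd g)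
    (h : ∀ r j s N, j < M → 0 < s → 0 < N → L ∣ N → f ((r, j), (s, N)) ≤ g ((r, j), (s, N))) :
    (OM M).m f ≤ (OM M).m g :=
  MM_mono hL ((Mean.avg (cells M) (cells_nonempty M)).bdd_inner hf)
    ((Mean.avg (cells M) (cells_nonempty M)).bdd_inner hg) fun s N hs hN hLN =>
      div_le_div_of_nonneg_right (sum_le_sum fun c hc =>
        h c.1 c.2 s N (mem_range.1 (mem_product.1 hc).2) hs hN hLN) (Nat.cast_nonneg _)

lemma ww_tk {M : ℕ} [NeZero M] (hM : 2 ∣ M) {F : ℕ → ℝ} (hF : ∀ n, 0 ≤ F n ∧ F n ≤ 1)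
    (P : Finset ℕ) (hP : ∀ p ∈ P, p.Prime ∧ p.Coprime M) :
    ∑ p ∈ P, (OM M).m (fun x => (ww F (act 1 p 1 x) - ww F (act p 1 p x)) ^ 2) / p ≤ 1 := by
  have hM0 : 0 < M := Nat.pos_of_ne_zero (NeZero.ne M)
  set c : ℕ → Om M → ℝ := fun p x => cav M x.2.2 (fun t => F (x.2.1 * t) * dv p t) x.1 with hc
  have hcb : ∀ p, Bdd (c p) := fun p => ⟨p + 1, fun x => abs_ce_le' _ _ (by positivity) (fun t => by
    rw [abs_mul]
    refine (mul_le_of_le_one_left (abs_nonneg _) (abs_of_mem hF _)).trans ?_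
    unfold dv
    refine (abs_sub _ _).trans ?_
    split_ifs <;> simp) _⟩
  have hwb : Bdd (ww (M := M) F) := Bdd.of_mem (ww_mem hF)
  have h1 : ∀ p ∈ P, (OM M).m (fun x => (ww F (act 1 p 1 x) - ww F (act p 1 p x)) ^ 2) / p
      ≤ (OM M).m (fun x => c p x ^ 2 / p) := by
    intro p hp
    have hp0 := (hP p hp).1.pos
    rw [Mean.div_const, ← OM_pres (hP p hp).2 one_pos hp0 _ ((hcb p).pow 2)]
    refine div_le_div_of_nonneg_right ?_ (Nat.cast_nonneg _)
    refine OM_mono (L := M ^ 2) (by positivity) (((hwb.comp _).sub (hwb.comp _)).pow 2)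
      (((hcb p).comp _).pow 2) ?_
    rintro r j s _ hj hs hN ⟨k, rfl⟩
    have hk : 0 < k := Nat.pos_of_mul_pos_left hN
    have h2 := cav_dil hk hp0 ((ZMod.isUnit_iff_coprime p M).2 (hP p hp).2) r hj
      (fun t => F (s * t))
    simp only [ww, act, hc, od_mul hM (hP p hp).2, Nat.cast_one, one_mul]
    rw [← h2, ← mul_sub, mul_pow]
    simp only [mul_left_comm s p, mul_assoc]
    exact mul_le_of_le_one_left (sq_nonneg _) (pow_le_one₀ (od_mem _).1 (od_mem _).2)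
  refine (sum_le_sum h1).trans ?_
  rw [← Mean.sum, ← (OM M).const 1]
  have hD : 0 < ∏ p ∈ P, p := prod_pos fun p hp => (hP p hp).1.pos
  refine OM_mono (L := M ^ 2 * ((∏ p ∈ P, p) * ∏ p ∈ P, p)) (by positivity)
    (Bdd.sum _ fun p => ((hcb p).pow 2).div_const _) (Bdd.const _) ?_
  rintro r j s _ hj hs hN ⟨k, rfl⟩
  have hk : 0 < k := Nat.pos_of_mul_pos_left hN
  simp only [hc, mul_assoc (M ^ 2)]
  exact tk_fib (by positivity) P
    (fun p hp => ⟨(hP p hp).1, (ZMod.isUnit_iff_coprime p M).2 (hP p hp).2⟩)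
    (fun p hp q hq => (mul_dvd_mul (dvd_prod_of_mem _ hp) (dvd_prod_of_mem _ hq)).mul_right _)
    r hj fun t => abs_of_mem hF _

lemma ww_close {M : ℕ} [NeZero M] {F : ℕ → ℝ} (hF : ∀ n, 0 ≤ F n ∧ F n ≤ 1) (u c : ℕ) {a b : ℕ}
    (ha : 0 < a) (hab : a ≤ b) {η : ℝ} (hη : 0 ≤ η) (hb : (b : ℝ) ≤ (1 + η) * a) :
    (OM M).nrm (fun x => ww F (act u c a x) - ww F (act u c b x)) ≤ (2 * M + 1) * η := by
  have hM0 : 0 < M := Nat.pos_of_ne_zero (NeZero.ne M)
  have hwb : Bdd (ww (M := M) F) := Bdd.of_mem (ww_mem hF)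
  rw [Mean.nrm, Real.sqrt_le_left (by positivity), ← (OM M).const (_ ^ 2)]
  refine OM_mono (L := M ^ 2) (by positivity) (((hwb.comp _).sub (hwb.comp _)).pow 2)
    (Bdd.const _) ?_
  rintro r j s _ hj hs hN ⟨k, rfl⟩
  have hk : 0 < k := Nat.pos_of_mul_pos_left hN
  have h := cav_close (a := a * k) (b := b * k) (η := η) (by positivity) (Nat.mul_le_mul_right _ hab)
    (by push_cast; rw [← mul_assoc]; exact mul_le_mul_of_nonneg_right hb (Nat.cast_nonneg _))
    ((u : ZMod M) * r) hj (f := fun t => F (c * s * t)) fun t => abs_of_mem hF _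
  simp only [ww, act, mul_left_comm _ (M ^ 2)]
  rw [← mul_sub, mul_pow]
  refine (mul_le_of_le_one_left (sq_nonneg _) (pow_le_one₀ (od_mem _).1 (od_mem _).2)).trans ?_
  exact sq_le_sq' (abs_le.1 h).1 (abs_le.1 h).2

lemma ww_mean {M : ℕ} [NeZero M] (hM : 2 ∣ M) {F : ℕ → ℝ} (hF : ∀ n, 0 ≤ F n ∧ F n ≤ 1) :
    EE.m F / 2 ≤ (OM M).m (ww F) := by
  have hM0 : 0 < M := Nat.pos_of_ne_zero (NeZero.ne M)
  have hwb : Bdd (ww (M := M) F) := Bdd.of_mem (ww_mem hF)
  rw [OM_m, ← MM.const (EE.m F / 2)]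
  refine MM_mono' (L := M ^ 2) (by positivity) (Bdd.const _)
    ((Mean.avg (cells M) (cells_nonempty M)).bdd_inner hwb) ?_
  rintro _ hN ⟨k, rfl⟩
  have hk : 0 < k := Nat.pos_of_mul_pos_left hN
  have h1 : ∀ s, (∑ c ∈ cells M, ww F (c, (s, M ^ 2 * k))) / (cells M).card
      = (∑ n ∈ range (M ^ 2 * k), F (n * s) * od n) / (M ^ 2 * k : ℕ) := by
    intro s
    have h2 := avg_cells hk (fun t => F (s * t)) (fun c : ZMod M × ℕ => od c.1.val)
    simp only [cell, od_val hM] at h2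
    simp only [mul_comm _ s, ← h2, ww, mul_comm (od _)]
  simp only [h1]
  rw [EE.const, EE.div_const, EE.sum]
  have h2 : ∀ n ∈ range (M ^ 2 * k), EE.m (fun s => F (n * s) * od n) = EE.m F * od n := by
    intro n _
    rw [EE.mul_const]
    rcases Nat.eq_zero_or_pos n with rfl | hn
    · simp [od]
    · rw [EE_dil hn (Bdd.of_mem hF)]
  rw [sum_congr rfl h2, ← mul_sum]
  obtain ⟨l, hl⟩ : 2 ∣ M ^ 2 * k := (hM.trans (dvd_pow_self M two_ne_zero)).mul_right k
  have hl0 : (0 : ℝ) < l := by exact_mod_cast (by omega : 0 < l)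
  rw [hl, sum_od]
  push_cast
  exact le_of_eq (by field_simp)

theorem saturate {ι : Type} [Fintype ι] (F : ι → ℕ → ℝ) (hF : ∀ i n, 0 ≤ F i n ∧ F i n ≤ 1)
    {ε : ℝ} (hε : 0 < ε) : ∃ M : ℕ, 0 < M ∧ 2 ∣ M ∧ ∀ M', 0 < M' → ∀ i,
      MM.m (fun y => inc M M' (fun t => F i (y.1 * t)) y.2) ≤ ε := by
  set V : Set ℝ := {v | ∃ M : ℕ, 0 < M ∧ 2 ∣ M ∧ v = ∑ i, MM.m (en M (F i))} with hV
  have hne : V.Nonempty := ⟨_, 2, two_pos, dvd_rfl, rfl⟩
  have hbdd : BddAbove V := ⟨∑ _i : ι, 1, by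
    rintro _ ⟨M, -, -, rfl⟩
    exact sum_le_sum fun i _ => MM.le_const (Bdd.of_mem (en_mem M (hF i))) fun y =>
      (en_mem M (hF i) y).2⟩
  obtain ⟨_, ⟨M, hM, hM2, rfl⟩, hv⟩ := exists_lt_of_lt_csSup hne (sub_lt_self (sSup V) hε)
  refine ⟨M, hM, hM2, fun M' hM' i => ?_⟩
  have h1 := le_csSup hbdd ⟨M * M', mul_pos hM hM', hM2.mul_right _, rfl⟩
  have h2 : ∀ i, MM.m (fun y => inc M M' (fun t => F i (y.1 * t)) y.2)
      = MM.m (en (M * M') (F i)) - MM.m (en M (F i)) := fun i => by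
    simp only [inc_eq M hM', MM.sub]
  have h3 := single_le_sum (s := univ)
    (f := fun i => MM.m (fun y => inc M M' (fun t => F i (y.1 * t)) y.2))
    (fun i _ => MM.const_le (Bdd.of_mem fun y => inc_mem M M' (fun _ => hF i _) _)
      fun y => (inc_mem M M' (fun _ => hF i _) _).1) (mem_univ i)
  refine h3.trans ?_
  simp only [h2, sum_sub_distrib]
  linarith

end Pool.Agent.Lib.MP_a5a405_co.PR.G
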