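import Pool.Agent.Lib.MP_a5a405_co.G.Inv
import Pool.Agent.Lib.MP_a5a405_co.G.Couple

/-!
The transfer of the action of residue and scale to a dilation, and the choice of the colour.
-/

open Finset Filter Topology
open scoped Classical

namespace Pool.Agent.Lib.MP_a5a405_co.PR.G

theorem transfer {ι : Type} [Fintype ι] {M n ρ₁ ρ₂ : ℕ} [NeZero M] (hM : 2 ∣ M) (hn : 0 < n)
    (hρ₁ : 0 < ρ₁) (hρ₂ : 0 < ρ₂) (F : ι → ℕ → ℝ)
    (hF : ∀ i t, 0 ≤ F i t ∧ F i t ≤ 1) {g : ℕ} (hg : g.Coprime M) {γ : ℝ} (hγ : 0 < γ) :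
    ∃ a b : ℕ, 0 < a ∧ 0 < b ∧ ∀ i z, 0 < z →
      (OM M).m (fun x => ww (F i) (act 1 ((z * b) ^ n) 1 x) * ww (F i) (act 1 (a ^ n) 1 x)) - γ
        ≤ (OM M).m (fun x => ww (F i) (act 1 (z ^ n) ρ₂ x) * ww (F i) (act (g ^ n) 1 ρ₁ x)) := by
  have hM0 : 0 < M := Nat.pos_of_ne_zero (NeZero.ne M)
  have hwb : ∀ i, Bdd (ww (M := M) (F i)) := fun i => Bdd.of_mem (ww_mem (hF i))
  set V : ι → ℕ → ℕ → Om M → ℝ := fun i a b x => ww (F i) (act b a b x) with hV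
  have hVb : ∀ i a b, Bdd (V i a b) := fun i a b => (hwb i).comp _
  have hinv : ∀ i a b a' b' c d, 0 < c → 0 < d → d.Coprime M →
      (OM M).m (fun x => (V i (a * c) (b * d) x - V i (a' * c) (b' * d) x) ^ 2)
        = (OM M).m (fun x => (V i a b x - V i a' b' x) ^ 2) := by
    intro i a b a' b' c d hc hd hdM
    rw [← OM_pres hdM hc hd _ (((hVb i a b).sub (hVb i a' b')).pow 2)]
    simp only [hV, act_act]
  set η := γ / 2 / (2 * M + 1) with hη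
  have hη0 : 0 < η := by positivity
  have hn' : (0 : ℝ) < n := by exact_mod_cast hn
  have hr₁ : (0 : ℝ) < ρ₁ := by exact_mod_cast hρ₁
  have hr₂ : (0 : ℝ) < ρ₂ := by exact_mod_cast hρ₂
  obtain ⟨t, ht0, ht⟩ : ∃ t : ℝ, 0 < t ∧ ρ₂ * t ^ n = ρ₁ := by
    refine ⟨((ρ₁ : ℝ) / ρ₂) ^ (n : ℝ)⁻¹, by positivity, ?_⟩
    rw [Real.rpow_inv_natCast_pow (by positivity) hn.ne']
    field_simp
  obtain ⟨η', hη'0, hη'⟩ : ∃ η' : ℝ, 0 < η' ∧ (1 + η') ^ n = 1 + η := by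
    refine ⟨(1 + η) ^ (n : ℝ)⁻¹ - 1,
      sub_pos.2 (Real.one_lt_rpow (by linarith) (by positivity)), ?_⟩
    rw [add_sub_cancel, Real.rpow_inv_natCast_pow (by positivity) hn.ne']
  obtain ⟨a, b, ha, hb, hbM, hab, h12, h3⟩ := couple_mean (OM M) V hVb hM0 hinv
    (fun i P hP => ww_tk hM (hF i) P hP) hg ht0 hη'0 (by positivity : 0 < γ / (2 * n))
  have haM : a.Coprime M := by
    rw [Nat.coprime_iff_gcd_eq_one, hab.gcd_eq]
    exact Nat.Coprime.mul_left hg hbM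
  refine ⟨a, b, ha, hb, fun i z hz => ?_⟩
  have h4 : ∀ k : ℕ, (OM M).nrm (fun x => V i (a ^ k) (b ^ k) x - V i (b ^ k) (a ^ k) x)
      ≤ k * (γ / (2 * n)) := by
    intro k
    induction k with
    | zero => simp [Mean.nrm, Mean.const]
    | succ k ih =>
      have h5 := (OM M).nrm_sub_le (hVb i (a ^ (k + 1)) (b ^ (k + 1))) (hVb i (b * a ^ k) (a * b ^ k))
        (hVb i (b ^ (k + 1)) (a ^ (k + 1)))
      have h6 := hinv i a b b a (a ^ k) (b ^ k) (by positivity) (by positivity) (hbM.pow_left k)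
      have h7 := hinv i (a ^ k) (b ^ k) (b ^ k) (a ^ k) b a hb ha haM
      have h8 := h3 i
      simp only [← pow_succ'] at h6
      simp only [← pow_succ, mul_comm (a ^ k) b, mul_comm (b ^ k) a] at h7
      unfold Mean.nrm at h5 h8 ih ⊢
      rw [h6, h7] at h5
      push_cast
      linarith
  have ha' : (0 : ℝ) < a := by exact_mod_cast ha
  have hb' : (0 : ℝ) < b := by exact_mod_cast hb
  have htb : (ρ₂ : ℝ) * (t * b) ^ n = ρ₁ * (b : ℝ) ^ n := by rw [mul_pow, ← mul_assoc, ht]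
  have h5 : (OM M).nrm (fun x => ww (F i) (act (a ^ n) (b ^ n) (ρ₂ * a ^ n) x)
      - ww (F i) (act (a ^ n) (b ^ n) (ρ₁ * b ^ n) x)) ≤ (2 * M + 1) * η := by
    rcases h12 with ⟨h1, h2⟩ | ⟨h1, h2⟩
    · rw [Mean.nrm_sub_comm]
      have k1 := mul_le_mul_of_nonneg_left (pow_le_pow_left₀ (by positivity) h1 n) hr₂.le
      have k2 := mul_le_mul_of_nonneg_left (pow_le_pow_left₀ ha'.le h2 n) hr₂.le
      rw [htb] at k1
      rw [mul_pow, hη', mul_left_comm, htb] at k2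
      exact ww_close (hF i) _ _ (by positivity) (by exact_mod_cast k1) hη0.le
        (by exact_mod_cast k2)
    · have k1 := mul_le_mul_of_nonneg_left (pow_le_pow_left₀ ha'.le h1 n) hr₂.le
      have k2 := mul_le_mul_of_nonneg_left (pow_le_pow_left₀ (by positivity) h2 n) hr₂.le
      rw [htb] at k1
      rw [htb, mul_pow, hη', mul_left_comm] at k2
      exact ww_close (hF i) _ _ (by positivity) (by exact_mod_cast k1) hη0.le
        (by exact_mod_cast k2)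
  have h6 : (2 * M + 1) * η = γ / 2 := by rw [hη]; field_simp
  have h8 : (OM M).nrm (fun x => ww (F i) (act (b ^ n) (a ^ n) (ρ₂ * b ^ n) x)
      - ww (F i) (act (a ^ n) (b ^ n) (ρ₂ * a ^ n) x)) ≤ γ / 2 := by
    have k1 := (OM_pres (Nat.coprime_one_left M) one_pos hρ₂).nrm
      ((hVb i (a ^ n) (b ^ n)).sub (hVb i (b ^ n) (a ^ n)))
    simp only [hV, act_act, mul_one, mul_comm _ ρ₂] at k1
    rw [k1]
    refine (h4 n).trans (le_of_eq ?_)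
    field_simp
  have h7 := (OM M).nrm_sub_le ((hwb i).comp (act (b ^ n) (a ^ n) (ρ₂ * b ^ n)))
    ((hwb i).comp (act (a ^ n) (b ^ n) (ρ₂ * a ^ n)))
    ((hwb i).comp (act (a ^ n) (b ^ n) (ρ₁ * b ^ n)))
  rw [← OM_pres (hbM.pow_left n) one_pos (mul_pos hρ₂ (pow_pos hb n)) _
      (((hwb i).comp _).mul ((hwb i).comp _)),
    ← OM_pres (hbM.pow_left n) (pow_pos hb n) (pow_pos hb n)
      (fun x => ww (F i) (act 1 (z ^ n) ρ₂ x) * ww (F i) (act (g ^ n) 1 ρ₁ x))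
      (((hwb i).comp _).mul ((hwb i).comp _))]
  have h9 : ∀ x : Om M, act (g ^ n * b ^ n) (b ^ n) (ρ₁ * b ^ n) x
      = act (a ^ n) (b ^ n) (ρ₁ * b ^ n) x := by
    intro x
    unfold act
    rw [← mul_pow, (ZMod.natCast_eq_natCast_iff _ _ _).2 (hab.pow n)]
  simp only [act_act, one_mul, mul_one, mul_pow, h9]
  have h10 := (OM M).abs_mul_le ((hwb i).comp (act (b ^ n) (z ^ n * b ^ n) (ρ₂ * b ^ n)))
    (((hwb i).comp (act (b ^ n) (a ^ n) (ρ₂ * b ^ n))).sub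
      ((hwb i).comp (act (a ^ n) (b ^ n) (ρ₁ * b ^ n))))
  have h11 := (OM M).nrm_le_of_abs_le zero_le_one
    fun x => abs_of_mem (ww_mem (hF i)) (act (b ^ n) (z ^ n * b ^ n) (ρ₂ * b ^ n) x)
  simp only [mul_sub, Mean.sub] at h10
  have h12 := mul_le_of_le_one_left ((OM M).nrm_nonneg fun x =>
    ww (F i) (act (b ^ n) (a ^ n) (ρ₂ * b ^ n) x)
    - ww (F i) (act (a ^ n) (b ^ n) (ρ₁ * b ^ n) x)) h11
  have h13 := (abs_le.1 h10).2
  linarith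

theorem stage_one {ι : Type} [Fintype ι] {n ρ₁ ρ₂ l₁ l₂ : ℕ} (hn : 0 < n) (hρ₁ : 0 < ρ₁)
    (hρ₂ : 0 < ρ₂) (hl₁ : 0 < l₁) (hl₂ : 0 < l₂) (F : ι → ℕ → ℝ)
    (hF : ∀ i t, 0 ≤ F i t ∧ F i t ≤ 1) (P : ι → ℕ → Prop) (hP : ∀ i y, P i y → F i y = 1)
    (hP' : ∀ y, 0 < y → ∃ i, P i y) :
    ∃ e : ℝ, 0 < e ∧ ∀ (M : ℕ) [NeZero M], 2 ∣ M → ∀ g : ℕ, g.Coprime M →
      ∃ (i : ι) (A : ℕ → Prop), 0 < EE.m (fun y => if A y then 1 else 0) ∧ ∀ y, 0 < y → A y →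
        P i (l₁ * y) ∧ e ≤ (OM M).m (fun x => ww (F i) (act 1 ((l₂ * y) ^ n) ρ₂ x)
          * ww (F i) (act (g ^ n) 1 ρ₁ x)) := by
  have hFb : ∀ i, Bdd (F i) := fun i => Bdd.of_mem (hF i)
  obtain ⟨μ, hμ⟩ : ∃ μ : ι → ℝ, ∀ i, μ i = EE.m (F i) / 2 := ⟨_, fun _ => rfl⟩
  obtain ⟨I, hI⟩ : ∃ I : Finset ι, ∀ i, i ∈ I ↔ 0 < μ i :=
    ⟨univ.filter fun i => 0 < μ i, fun i => by simp⟩
  have hμI : ∀ i ∈ I, 0 < μ i := fun i hi => (hI i).1 hi
  obtain ⟨e, he⟩ : ∃ e, e = (∏ i ∈ I, μ i) ^ 2 / 2 := ⟨_, rfl⟩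
  have he0 : 0 < e := by have := prod_pos hμI; rw [he]; positivity
  refine ⟨e / 2, by positivity, fun M _ hM2 g hg => ?_⟩
  have hwb : ∀ i, Bdd (ww (M := M) (F i)) := fun i => Bdd.of_mem (ww_mem (hF i))
  obtain ⟨a, b, ha, hb, htr⟩ := transfer hM2 hn hρ₁ hρ₂ F hF hg (γ := e / 2) (by positivity)
  have hinv : ∀ i t c, 0 < c → (OM M).m (fun x => ww (F i) (act 1 ((t * c) ^ n) 1 x)
      * ww (F i) (act 1 (c ^ n) 1 x)) = (OM M).m (fun x => ww (F i) (act 1 (t ^ n) 1 x)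
      * ww (F i) (act 1 (1 ^ n) 1 x)) := by
    intro i t c hc
    rw [← OM_pres (Nat.coprime_one_left M) (pow_pos hc n) one_pos
      (fun x => ww (F i) (act 1 (t ^ n) 1 x) * ww (F i) (act 1 (1 ^ n) 1 x))
      (((hwb i).comp _).mul ((hwb i).comp _))]
    simp only [act_act, mul_pow, one_pow, one_mul]
  obtain ⟨R, hR⟩ : ∃ R : ℕ → Prop, ∀ y, R y ↔ ∀ i ∈ I, e ≤ (OM M).m (fun x =>
    ww (F i) (act 1 (y ^ n) 1 x) * ww (F i) (act 1 (1 ^ n) 1 x)) := ⟨_, fun _ => Iff.rfl⟩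
  obtain ⟨R', hR'⟩ : ∃ R' : ℕ → Prop, ∀ y, R' y ↔ ∀ i ∈ I, e ≤ (OM M).m (fun x =>
    ww (F i) (act 1 ((y * b) ^ n) 1 x) * ww (F i) (act 1 (a ^ n) 1 x)) := ⟨_, fun _ => Iff.rfl⟩
  have h1 := recurrence (OM M) (fun i y x => ww (F i) (act 1 (y ^ n) 1 x))
    (fun i y x => ww_mem (hF i) _) I μ hμI (fun i _ y hy => by
      rw [OM_pres (Nat.coprime_one_left M) (pow_pos hy n) one_pos _ (hwb i), hμ]
      exact ww_mean hM2 (hF i)) hinv R fun y hy => (hR y).2 (he ▸ hy)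
  have h2 : 0 < EE.m (fun y => if R' y then 1 else 0) := by
    rw [← EE_dil ha (bdd_ind R')]
    rw [← EE_dil hb (bdd_ind R)] at h1
    refine h1.trans_le (le_of_eq ?_)
    congr 1
    ext t
    congr 1
    simp only [hR, hR', ← hinv _ (b * t) a ha, show b * t * a = a * t * b by ring]
  rw [← EE_dil hl₂ (bdd_ind R')] at h2
  obtain ⟨A, hA⟩ : ∃ A : ι → ℕ → Prop, ∀ i y, A i y ↔ P i (l₁ * y) ∧ R' (l₂ * y) :=
    ⟨_, fun _ _ => Iff.rfl⟩
  obtain ⟨i, hi⟩ : ∃ i, 0 < EE.m (fun y => if A i y then 1 else 0) := by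
    by_contra h3
    push Not at h3
    have h4 := EE_mono one_pos (bdd_ind fun y => R' (l₂ * y))
      (Bdd.sum univ fun i => bdd_ind (A i)) fun y hy _ => by
        obtain ⟨i, hi⟩ := hP' (l₁ * y) (mul_pos hl₁ hy)
        refine le_trans ?_ (single_le_sum (f := fun i => if A i y then (1 : ℝ) else 0)
          (fun i _ => by split_ifs <;> simp) (mem_univ i))
        simp [hA, hi]
    rw [EE.sum] at h4
    linarith [sum_nonpos (s := univ) fun i _ => h3 i]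
  have hiI : i ∈ I := by
    rw [hI, hμ, ← EE_dil hl₁ (hFb i)]
    refine half_pos (hi.trans_le (EE.mono (bdd_ind _) ((hFb i).comp _) fun y => ?_))
    split_ifs with h
    · exact (hP i _ ((hA i y).1 h).1).ge
    · exact (hF i _).1
  refine ⟨i, A i, hi, fun y hy h => ⟨((hA i y).1 h).1, ?_⟩⟩
  linarith [htr i (l₂ * y) (mul_pos hl₂ hy), (hR' _).1 ((hA i y).1 h).2 i hiI]

end Pool.Agent.Lib.MP_a5a405_co.PR.G
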