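import Pool.Agent.Lib.MP_a5a405_co.G.Upper
import Pool.Agent.Lib.MP_a5a405_co.G.Transfer

/-!
Systems of equations A X + B Y = E t with dilated monochromatic solutions.
-/

open Finset Filter Topology
open scoped Classical

namespace Pool.Agent.Lib.MP_a5a405_co.PR.G

lemma point {s₁ s₂ w G c : ℝ} (hc : 0 ≤ c) (h₁ : 0 ≤ s₁) (h₂ : 0 ≤ s₂) (hw : 0 ≤ w ∧ w ≤ 1)
    (hG : 0 ≤ G ∧ G ≤ 1) :
    c ^ 2 * (w * G - w * (if s₁ < c then 1 else 0) - w * (if s₂ < c then 1 else 0))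
      ≤ s₁ * s₂ * G := by
  have h3 : 0 ≤ s₁ * s₂ * G := mul_nonneg (mul_nonneg h₁ h₂) hG.1
  have h4 : w * G ≤ w := mul_le_of_le_one_right hw.1 hG.2
  have h5 : w * G ≤ G := mul_le_of_le_one_left hG.1 hw.2
  split_ifs with p q q
  · exact le_trans (mul_nonpos_of_nonneg_of_nonpos (sq_nonneg _) (by linarith [hw.1])) h3
  · exact le_trans (mul_nonpos_of_nonneg_of_nonpos (sq_nonneg _) (by linarith)) h3
  · exact le_trans (mul_nonpos_of_nonneg_of_nonpos (sq_nonneg _) (by linarith)) h3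
  · rw [mul_zero, sub_zero, sub_zero, sq]
    exact mul_le_mul (mul_le_mul (not_lt.1 p) (not_lt.1 q) hc h₁) h5 (mul_nonneg hw.1 hG.1)
      (mul_nonneg h₁ h₂)

lemma stage_two {A B : ℤ} {n E M M₁ M₂ Q ρ₁ ρ₂ l₂ g C₀ D₁ D₂ : ℕ} [NeZero M] [NeZero Q]
    (hn : 0 < n) (hA : A ≠ 0) (hB : B ≠ 0) (hρ₁ : 0 < ρ₁) (hρ₂ : 0 < ρ₂)
    (hM₁ : M₁ = E * M₂) (hQ : Q = M * M₁) (hD₁ : 0 < D₁) (hD₂ : 0 < D₂) (hco : D₁.Coprime D₂)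
    (hg : g.Coprime Q)
    (hcong : ∀ j j' : ℕ, 0 < j → 0 < j' → A * D₁ ^ j + B * D₂ ^ j' ≡ E * g ^ n [ZMOD Q])
    (harch : ρ₂ * (A + B) = ρ₁ * E ∨ ρ₂ * A = ρ₁ * E) (hC₀ : (A.natAbs + B.natAbs) * ρ₂ ≤ C₀)
    {F : ℕ → ℝ} (hF : ∀ n, 0 ≤ F n ∧ F n ≤ 1) {θ ε : ℝ} (hθ : 0 < θ) (hε0 : 0 ≤ ε)
    (hM₁θ : 2 * (C₀ : ℝ) / M₁ ≤ θ ^ 3 / 2)
    (hε : (E * (2 * C₀ + 1) * C₀ * ρ₁ : ℕ) * ε ≤ θ ^ 6 / 2)
    (hsat : ∀ M', 0 < M' → MM.m (fun y => inc M M' (fun t => F (y.1 * t)) y.2) ≤ ε)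
    {P : ℕ → Prop} (hP0 : 0 < EE.m (fun y => if P y then 1 else 0))
    (hP : ∀ y, 0 < y → P y → 8 * θ ≤ (OM M).m (fun x => ww F (act 1 ((l₂ * y) ^ n) ρ₂ x)
      * ww F (act (g ^ n) 1 ρ₁ x)))
    (hno : ∀ y, 0 < y → P y → ∀ s X Y t : ℕ, A * X + B * Y = E * t →
      F (s * (l₂ * y) ^ n * X) * F (s * (l₂ * y) ^ n * Y) * F (s * t) = 0) : False := by
  have hM0 : 0 < M := Nat.pos_of_ne_zero (NeZero.ne M)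
  have hQ0 : 0 < Q := Nat.pos_of_ne_zero (NeZero.ne Q)
  obtain ⟨E₂, hE₂, harch'⟩ : ∃ E₂ : ℕ, 0 < E₂ ∧ ∀ j, 0 < j →
      (E₂ ^ j = D₂ ^ j ∧ ρ₂ * (A + B) = ρ₁ * E) ∨ (D₂ ^ j * Q ≤ E₂ ^ j ∧ ρ₂ * A = ρ₁ * E) := by
    rcases harch with h | h
    · exact ⟨D₂, hD₂, fun j _ => Or.inl ⟨rfl, h⟩⟩
    · refine ⟨D₂ * Q, mul_pos hD₂ hQ0, fun j hj => Or.inr ⟨?_, h⟩⟩
      rw [mul_pow]
      exact Nat.mul_le_mul_left _ (Nat.le_self_pow hj.ne' Q)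
  obtain ⟨J, hJ⟩ := exists_nat_ge (1 / θ)
  have hJ0 : (0 : ℝ) < J := (by positivity : 0 < 1 / θ).trans_le hJ
  have hJ0' : 0 < J := by exact_mod_cast hJ0
  have hJθ : 1 / (J : ℝ) ≤ θ := by
    rw [div_le_iff₀ hθ] at hJ
    rw [div_le_iff₀ hJ0]
    linarith
  obtain ⟨T, hT⟩ : ∃ T : ℝ, T = (ρ₁ * Q ^ 2 * (D₁ ^ J + E₂ ^ J) : ℕ) := ⟨_, rfl⟩
  have hT0 : 0 ≤ T := hT ▸ Nat.cast_nonneg _
  obtain ⟨δ, hδ0, hδ1, hδ2⟩ : ∃ δ : ℝ, 0 < δ ∧ δ ≤ 1 ∧ δ * T + δ / 2 ≤ θ ^ 3 / 2 := by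
    refine ⟨min 1 (θ ^ 3 / 2 / (T + 1)), lt_min one_pos (by positivity), min_le_left _ _, ?_⟩
    have h3 := min_le_right 1 (θ ^ 3 / 2 / (T + 1))
    have h4 : 0 < min 1 (θ ^ 3 / 2 / (T + 1)) := lt_min one_pos (by positivity)
    rw [le_div_iff₀ (by positivity)] at h3
    linarith
  obtain ⟨Λ, hΛ0, hΛ⟩ := major hn (δ := δ / 2) (by positivity) (by linarith)
  obtain ⟨z, hz, S, hS, hSΛ⟩ := pick hP0 Λ
  obtain ⟨D, hD0, hSD⟩ : ∃ D : ℕ, 0 < D ∧ ∀ p ∈ S, p ∣ D :=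
    ⟨∏ p ∈ S, p, prod_pos fun p hp => (hS p hp).1.pos, fun p hp => dvd_prod_of_mem _ hp⟩
  obtain ⟨Bd, hbad, hmaj⟩ := hΛ F (abs_of_mem hF) S D hD0
    (fun p hp => ⟨(hS p hp).1, hSD p hp⟩) hSΛ
  obtain ⟨C, hC1, hC2, hC3⟩ : ∃ C : ℕ, 14 * D ^ n ≤ C ∧ M ≤ C ∧ 4 * (M : ℝ) ^ 2 / δ ≤ C :=
    ⟨14 * D ^ n + M + ⌈4 * (M : ℝ) ^ 2 / δ⌉₊, by omega, by omega,
      (Nat.le_ceil _).trans (Nat.cast_le.2 (by omega))⟩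
  obtain ⟨K, hK⟩ : ∃ K : ℝ, K = (E * (2 * C₀ + 1) * C₀ * ρ₁ : ℕ) := ⟨_, rfl⟩
  have hK0 : 0 ≤ K := hK ▸ Nat.cast_nonneg _
  have hKB : ((E * (2 * C₀ + 1) * B.natAbs * ρ₁ : ℕ) : ℝ) ≤ K := by
    have h1 : B.natAbs ≤ C₀ :=
      ((Nat.le_add_left _ _).trans (Nat.le_mul_of_pos_right _ hρ₂)).trans hC₀
    rw [hK]
    exact_mod_cast Nat.mul_le_mul_right _ (Nat.mul_le_mul_left _ h1)
  obtain ⟨ρ, hρ⟩ : ∃ ρ, ρ = θ ^ 6 / 2 * δ ^ 2 / (K + 1) := ⟨_, rfl⟩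
  have hρ0 : 0 < ρ := by rw [hρ]; positivity
  obtain ⟨M', hM'0, hdvd, hCB⟩ : ∃ M' : ℕ, 0 < M' ∧ (∀ n, 1 ≤ n → n ≤ C → n ∣ M * M') ∧
      ((C : ℝ) / (M * M' : ℕ)) ^ 2 ≤ ρ := by
    obtain ⟨B, hB1⟩ := exists_nat_gt (C / √ρ)
    have hB0 : (0 : ℝ) < B := lt_of_le_of_lt (by positivity) hB1
    have hB0' : 0 < B := by exact_mod_cast hB0
    refine ⟨C.factorial * B, mul_pos (Nat.factorial_pos _) hB0',
      fun n h4 h5 => ((Nat.dvd_factorial h4 h5).mul_right _).mul_left _, ?_⟩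
    rw [← Real.sq_sqrt hρ0.le]
    refine pow_le_pow_left₀ (by positivity) ?_ 2
    have h3 : (B : ℝ) ≤ (M * (C.factorial * B) : ℕ) := by
      exact_mod_cast (Nat.le_mul_of_pos_left _ (Nat.factorial_pos _)).trans
        (Nat.le_mul_of_pos_left _ hM0)
    refine (div_le_div_of_nonneg_left (Nat.cast_nonneg _) hB0 h3).trans ?_
    rw [div_lt_iff₀ (Real.sqrt_pos.2 hρ0)] at hB1
    rw [div_le_iff₀ hB0]
    linarith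
  have hpz : ∀ p, l₂ * (p * z) = p * (l₂ * z) := fun p => mul_left_comm _ _ _
  obtain ⟨σ, hσ⟩ : ∃ σ, σ = (l₂ * z * D) ^ n := ⟨_, rfl⟩
  obtain ⟨G, hG⟩ : ∃ G : Om Q → ℝ, G = GG n M M₁ (g ^ n) (ρ₁ * (D₁ ^ J * E₂ ^ J)) F S D := ⟨_, rfl⟩
  have hG1 : ∀ x, 0 ≤ G x ∧ G x ≤ 1 := fun x => hG ▸ GG_mem _ _ _ _ _ hF _ _ x
  obtain ⟨u, hu⟩ : ∃ u : ℕ → Om Q → ℝ, u = fun j x =>
    vv F (act 1 (σ * D₁ ^ (j + 1)) (ρ₂ * E₂ ^ J * D₁ ^ (J - (j + 1))) x) := ⟨_, rfl⟩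
  obtain ⟨v, hv⟩ : ∃ v : ℕ → Om Q → ℝ, v = fun j x =>
    vv F (act 1 (σ * D₂ ^ (j + 1)) (ρ₂ * D₁ ^ J * E₂ ^ (J - (j + 1))) x) := ⟨_, rfl⟩
  have hu1 : ∀ j x, 0 ≤ u j x ∧ u j x ≤ 1 := fun j x => by rw [hu]; exact vv_mem hF _
  have hv1 : ∀ j x, 0 ≤ v j x ∧ v j x ≤ 1 := fun j x => by rw [hv]; exact vv_mem hF _
  have hup : ∀ j ∈ range J, ∀ j' ∈ range J,
      (OM Q).m (fun x => u j x * v j' x * G x) ≤ 5 / 2 * θ ^ 3 := by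
    intro j hj j' hj'
    obtain ⟨a, ha⟩ := Nat.exists_eq_add_of_le (mem_range.1 hj)
    obtain ⟨b, hb⟩ := Nat.exists_eq_add_of_le (mem_range.1 hj')
    have e1 : D₁ ^ J = D₁ ^ (j + 1) * D₁ ^ a := by rw [← pow_add, ha]
    have e2 : E₂ ^ J = E₂ ^ (j' + 1) * E₂ ^ b := by rw [← pow_add, hb]
    have h3 := upper (z := l₂ * z) (d₁ := D₁ ^ (j + 1)) (d₂ := D₂ ^ (j' + 1)) (e₂ := E₂ ^ (j' + 1))
      (w := D₁ ^ a * E₂ ^ b) (R₁ := ρ₂ * E₂ ^ J * D₁ ^ (J - (j + 1)))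
      (R₂ := ρ₂ * D₁ ^ J * E₂ ^ (J - (j' + 1))) (R := ρ₁ * (D₁ ^ J * E₂ ^ J)) (γ := g ^ n)
      hA hB hρ₁ hρ₂ hM₁ hQ (by positivity) (by positivity) (by positivity) (by positivity)
      (Nat.Coprime.pow _ _ hco) (Nat.Coprime.pow_left _ hg)
      (by push_cast; exact hcong _ _ j.succ_pos j'.succ_pos)
      (by rw [e2, show J - (j + 1) = a by omega]; ring)
      (by rw [e1, show J - (j' + 1) = b by omega]; ring) (by rw [e1, e2]; ring)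
      (harch' _ j'.succ_pos) hC₀ hM'0 hF hD0 hSD (hΛ0.trans_le hSΛ)
      (fun p hp s X Y t h => by
        rw [← hpz]
        exact hno _ (mul_pos (hS p hp).1.pos hz) (hS p hp).2 s X Y t h)
      hδ0 (pow_pos hθ 3) hC2 hC3 hdvd hC1 hbad hmaj (hsat _ hM'0)
    rw [← hσ, ← hG] at h3
    have h4 : ((E * (2 * C₀ + 1) * B.natAbs * ρ₁ : ℕ) : ℝ) / θ ^ 3
        * (((C : ℝ) / (M * M' : ℕ)) ^ 2 / δ ^ 2) ≤ θ ^ 3 / 2 := by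
      calc _ ≤ (K + 1) / θ ^ 3 * (ρ / δ ^ 2) := by gcongr; linarith
        _ = _ := by rw [hρ]; field_simp
    have h5 : ((E * (2 * C₀ + 1) * B.natAbs * ρ₁ : ℕ) : ℝ) / θ ^ 3 * ε ≤ θ ^ 3 / 2 := by
      calc _ ≤ K / θ ^ 3 * ε := by gcongr
        _ = K * ε / θ ^ 3 := by ring
        _ ≤ θ ^ 6 / 2 / θ ^ 3 := by rw [hK]; gcongr
        _ = _ := by field_simp
    have h6 : ((ρ₁ * Q ^ 2 * (D₁ ^ (j + 1) + E₂ ^ (j' + 1)) : ℕ) : ℝ) ≤ T := by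
      rw [hT]
      exact_mod_cast Nat.mul_le_mul_left _ (add_le_add
        (Nat.pow_le_pow_right hD₁ (mem_range.1 hj)) (Nat.pow_le_pow_right hE₂ (mem_range.1 hj')))
    have h7 := mul_le_mul_of_nonneg_left h6 hδ0.le
    simp only [hu, hv]
    linarith
  have hmain := mainterm (z := l₂ * z) (γ := g ^ n) (R := D₁ ^ J * E₂ ^ J) (ρ₁ := ρ₁) (n := n) hQ
    (by positivity) hρ₂ hF hD0 hSD (hΛ0.trans_le hSΛ) fun p hp => by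
      rw [← hpz]
      exact hP _ (mul_pos (hS p hp).1.pos hz) (hS p hp).2
  rw [← hσ, ← hG] at hmain
  have r1 := rec1 (Q := Q) (vv_mem hF) σ (ρ₂ * E₂ ^ J) hD₁ hD₁ hJ0' hθ.le
  have r2 := rec1 (Q := Q) (vv_mem hF) σ (ρ₂ * D₁ ^ J) hD₂ hE₂ hJ0' hθ.le
  rw [show ρ₂ * E₂ ^ J * D₁ ^ J = ρ₂ * (D₁ ^ J * E₂ ^ J) by ring] at r1
  rw [mul_assoc ρ₂ (D₁ ^ J) (E₂ ^ J)] at r2
  obtain ⟨w, hw⟩ : ∃ w : Om Q → ℝ, w = fun x => vv F (act 1 σ (ρ₂ * (D₁ ^ J * E₂ ^ J)) x) :=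
    ⟨_, rfl⟩
  have hw1 : ∀ x, 0 ≤ w x ∧ w x ≤ 1 := fun x => by rw [hw]; exact vv_mem hF _
  replace r1 : (OM Q).m (fun x => w x * if ∑ j ∈ range J, u j x < θ * J then 1 else 0)
      ≤ θ + 1 / J := by rw [hw, hu]; exact r1
  replace r2 : (OM Q).m (fun x => w x * if ∑ j ∈ range J, v j x < θ * J then 1 else 0)
      ≤ θ + 1 / J := by rw [hw, hv]; exact r2
  replace hmain : 8 * θ ≤ (OM Q).m (fun x => w x * G x) := by rw [hw]; exact hmain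
  have hwb : Bdd w := Bdd.of_mem hw1
  have hGb : Bdd G := Bdd.of_mem hG1
  have h1 := (OM Q).mono ((Bdd.const ((θ * J) ^ 2)).mul (((hwb.mul hGb).sub (hwb.mul
      (bdd_ind fun x => ∑ j ∈ range J, u j x < θ * J))).sub (hwb.mul
      (bdd_ind fun x => ∑ j ∈ range J, v j x < θ * J))))
    (((Bdd.sum (range J) fun j => Bdd.of_mem (hu1 j)).mul
      (Bdd.sum (range J) fun j => Bdd.of_mem (hv1 j))).mul hGb)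
    fun x => point (by positivity) (sum_nonneg fun j _ => (hu1 j x).1)
      (sum_nonneg fun j _ => (hv1 j x).1) (hw1 x) (hG1 x)
  rw [Mean.const_mul, Mean.sub, Mean.sub] at h1
  simp only [sum_mul_sum] at h1
  simp only [sum_mul, Mean.sum] at h1
  have h2 := sum_le_sum fun j hj => sum_le_sum (hup j hj)
  simp only [sum_const, card_range, nsmul_eq_mul] at h2
  have h3 := mul_le_mul_of_nonneg_left (show 4 * θ ≤ _ by linarith :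
    4 * θ ≤ (OM Q).m (fun x => w x * G x)
      - (OM Q).m (fun x => w x * if ∑ j ∈ range J, u j x < θ * J then 1 else 0)
      - (OM Q).m (fun x => w x * if ∑ j ∈ range J, v j x < θ * J then 1 else 0))
    (sq_nonneg (θ * J))
  have h4 := (h3.trans h1).trans h2
  have h5 : 0 < (J : ℝ) ^ 2 * θ ^ 3 := by positivity
  nlinarith

theorem core {ι : Type} [Fintype ι] {n E ρ₁ ρ₂ l₁ l₂ : ℕ} (hn : 0 < n) (hE : 0 < E)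
    (hρ₁ : 0 < ρ₁) (hρ₂ : 0 < ρ₂) (hl₁ : 0 < l₁) (hl₂ : 0 < l₂) (A B : ι → ℤ)
    (hA : ∀ i, A i ≠ 0) (hB : ∀ i, B i ≠ 0)
    (harch : ∀ i, ρ₂ * A i = ρ₁ * E ∨ ρ₂ * B i = ρ₁ * E ∨ ρ₂ * (A i + B i) = ρ₁ * E)
    (hloc : ∀ Q : ℕ, 0 < Q → ∃ g : ℕ, g.Coprime Q ∧ ∀ i, ∃ D₁ D₂ : ℕ, 0 < D₁ ∧ 0 < D₂ ∧
      D₁.Coprime D₂ ∧ ∀ j j' : ℕ, 0 < j → 0 < j' →
        A i * D₁ ^ j + B i * D₂ ^ j' ≡ E * g ^ n [ZMOD Q])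
    {r : ℕ} (χ : ℕ → Fin r) : ∃ κ, (∀ α m : ℕ, 0 < α → ∃ y d, 0 < y ∧ 0 < d ∧ χ y = κ ∧
      χ (y + m * d) = κ ∧ χ (α * d) = κ) ∧
      ∀ i, ∃ s z X Y t : ℕ, 0 < z ∧ A i * X + B i * Y = E * t ∧ χ (l₁ * z) = κ ∧
        (0 < s * (l₂ * z) ^ n * X ∧ χ (s * (l₂ * z) ^ n * X) = κ) ∧
        (0 < s * (l₂ * z) ^ n * Y ∧ χ (s * (l₂ * z) ^ n * Y) = κ) ∧ 0 < s * t ∧ χ (s * t) = κ := by
  obtain ⟨F, hFdef⟩ : ∃ F : Fin r → ℕ → ℝ, ∀ i n, F i n = if 0 < n ∧ χ n = i then 1 else 0 :=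
    ⟨_, fun _ _ => rfl⟩
  have hF : ∀ i n, 0 ≤ F i n ∧ F i n ≤ 1 := fun i n => by
    rw [hFdef]; split_ifs <;> simp
  obtain ⟨e, he, h1⟩ := stage_one hn hρ₁ hρ₂ hl₁ hl₂ F hF (fun i n => 0 < n ∧ χ n = i)
    (fun i y h => by rw [hFdef, if_pos h]) fun y hy => ⟨_, hy, rfl⟩
  obtain ⟨θ, hθ⟩ : ∃ θ, θ = e / 8 := ⟨_, rfl⟩
  have hθ0 : 0 < θ := by rw [hθ]; positivity
  obtain ⟨C₀, hC₀⟩ : ∃ C₀, ∀ i, ((A i).natAbs + (B i).natAbs) * ρ₂ ≤ C₀ :=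
    ⟨_, fun i => single_le_sum (f := fun i => ((A i).natAbs + (B i).natAbs) * ρ₂)
      (fun _ _ => Nat.zero_le _) (mem_univ i)⟩
  obtain ⟨M₂, hM₂⟩ := exists_nat_gt (2 * (C₀ : ℝ) / (θ ^ 3 / 2))
  have hM₂0 : (0 : ℝ) < M₂ := lt_of_le_of_lt (by positivity) hM₂
  have hM₂0' : 0 < M₂ := by exact_mod_cast hM₂0
  have hM₁θ : 2 * (C₀ : ℝ) / (E * M₂ : ℕ) ≤ θ ^ 3 / 2 := by
    have h2 : (M₂ : ℝ) ≤ (E * M₂ : ℕ) := by exact_mod_cast Nat.le_mul_of_pos_left _ hE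
    refine (div_le_div_of_nonneg_left (by positivity) hM₂0 h2).trans ?_
    rw [div_lt_iff₀ (by positivity)] at hM₂
    rw [div_le_iff₀ hM₂0]
    linarith
  obtain ⟨K, hK⟩ : ∃ K : ℝ, K = (E * (2 * C₀ + 1) * C₀ * ρ₁ : ℕ) := ⟨_, rfl⟩
  have hK0 : 0 ≤ K := hK ▸ Nat.cast_nonneg _
  have hε0 : 0 < θ ^ 6 / 2 / (K + 1) := by positivity
  have hε : K * (θ ^ 6 / 2 / (K + 1)) ≤ θ ^ 6 / 2 := by
    calc _ ≤ (K + 1) * (θ ^ 6 / 2 / (K + 1)) := by gcongr; linarith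
      _ = _ := by field_simp
  obtain ⟨M, hM0, hM2, hsat⟩ := saturate F hF hε0
  have : NeZero M := ⟨hM0.ne'⟩
  have hQ0 : 0 < M * (E * M₂) := by positivity
  have : NeZero (M * (E * M₂)) := ⟨hQ0.ne'⟩
  obtain ⟨g, hg, hloc⟩ := hloc _ hQ0
  obtain ⟨κ, P, hP0, hP⟩ := h1 M hM2 g (hg.coprime_dvd_right (dvd_mul_right _ _))
  refine ⟨κ, fun α m hα => ?_, fun i => ?_⟩
  · obtain ⟨y, d, hy, hd, h2, h3, h4⟩ := EE_rich hP0 hα m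
    refine ⟨l₁ * y, l₁ * d, by positivity, by positivity, (hP _ hy h2).1.2, ?_, ?_⟩
    · rw [mul_left_comm, ← mul_add]
      exact (hP _ (by positivity) h3).1.2
    · rw [mul_left_comm]
      exact (hP _ (by positivity) h4).1.2
  by_contra hcon
  obtain ⟨D₁, D₂, hD₁, hD₂, hco, hcong⟩ := hloc i
  have hno : ∀ y, 0 < y → P y → ∀ s X Y t : ℕ, A i * X + B i * Y = E * t →
      F κ (s * (l₂ * y) ^ n * X) * F κ (s * (l₂ * y) ^ n * Y) * F κ (s * t) = 0 := by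
    intro y hy h s X Y t h3
    by_contra h4
    obtain ⟨h5, h6⟩ := mul_ne_zero_iff.1 h4
    obtain ⟨h4, h5⟩ := mul_ne_zero_iff.1 h5
    simp only [hFdef, ne_eq, ite_eq_right_iff, one_ne_zero, imp_false, not_not] at h4 h5 h6
    exact hcon ⟨s, y, X, Y, t, hy, h3, (hP y hy h).1.2, h4, h5, h6⟩
  have hP' : ∀ y, 0 < y → P y → 8 * θ ≤ (OM M).m (fun x => ww (F κ) (act 1 ((l₂ * y) ^ n) ρ₂ x)
      * ww (F κ) (act (g ^ n) 1 ρ₁ x)) := fun y hy h => by linarith [(hP y hy h).2]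
  rw [hK] at hε hε0 hsat
  rcases harch i with h | h | h
  · exact stage_two hn (hA i) (hB i) hρ₁ hρ₂ rfl rfl hD₁ hD₂ hco hg hcong (Or.inr h) (hC₀ i) (hF κ)
      hθ0 hε0.le hM₁θ hε (fun M' h => hsat M' h κ) hP0 hP' hno
  · refine stage_two hn (hB i) (hA i) hρ₁ hρ₂ rfl rfl hD₂ hD₁ hco.symm hg
      (fun j j' hj hj' => add_comm (A i * D₁ ^ j') _ ▸ hcong j' j hj' hj) (Or.inr h)
      (add_comm (A i).natAbs _ ▸ hC₀ i) (hF κ) hθ0 hε0.le hM₁θ hε (fun M' h => hsat M' h κ) hP0 hP'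
      fun y hy h s X Y t h3 => ?_
    rw [mul_comm (F κ _) (F κ (s * (l₂ * y) ^ n * Y))]
    exact hno y hy h s Y X t (by rw [add_comm]; exact h3)
  · exact stage_two hn (hA i) (hB i) hρ₁ hρ₂ rfl rfl hD₁ hD₂ hco hg hcong (Or.inl h) (hC₀ i) (hF κ)
      hθ0 hε0.le hM₁θ hε (fun M' h => hsat M' h κ) hP0 hP' hno

end Pool.Agent.Lib.MP_a5a405_co.PR.G
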