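import Pool.Agent.Lib.MP_a5a405_co.G.Inv

/-!
Large Fourier coefficients of an average of dilates by powers of primes sit on major arcs.
-/

open Finset Complex
open scoped Classical

namespace Pool.Agent.Lib.MP_a5a405_co.PR.G

lemma pigeon {n : ℕ} (hn : 0 < n) {δ : ℝ} (hδ : 0 < δ) (hδ1 : δ ≤ 1) :
    ∃ Λ : ℝ, 0 ≤ Λ ∧ ∀ (f : ℕ → ℝ),
    (∀ t, |f t| ≤ 1) → ∀ L B : ℕ, 0 < L → ∀ S : Finset ℕ, (∀ p ∈ S, 0 < p ∧ p ≤ B ∧ p ^ n ∣ L) →
    Λ < ∑ p ∈ S, 1 / (p : ℝ) → ∀ ζ : ℂ, ‖ζ‖ = 1 →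
    (∀ p ∈ S, δ * (L / p ^ n : ℕ) ≤ ‖fs f (L / p ^ n) (ζ ^ p ^ n)‖) →
    ∃ m, 1 ≤ m ∧ m ≤ B ^ n ∧ ‖ζ ^ m - 1‖ ≤ 14 * (B : ℝ) ^ n / L := by
  set R : ℕ := ⌈28 / δ⌉₊ + 1 with hR
  have hR1 : 28 / δ ≤ R := by rw [hR]; push_cast; linarith [Nat.le_ceil (28 / δ)]
  have hR0 : (1 : ℝ) ≤ R := by rw [hR]; push_cast; linarith [Nat.cast_nonneg (α := ℝ) ⌈28 / δ⌉₊]
  have hn1 : (1 : ℝ) ≤ n := by exact_mod_cast hn
  set η := δ / (4 * n) with hη
  set J : ℝ := 4 * R / (δ / 2) ^ 2 with hJ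
  have hη0 : 0 < η := by positivity
  have hη1 : η ≤ 1 / 4 := by
    rw [hη, div_le_iff₀ (by positivity)]; linarith
  refine ⟨J * (1 + η) / (η * 1), by positivity, fun f hf L B hL S hS hΛ ζ hζ h => ?_⟩
  have hL' : (0 : ℝ) < L := by exact_mod_cast hL
  have h1 : ∃ p ∈ S, J < ((S.filter fun q : ℕ => p ≤ q ∧ (q : ℝ) ≤ (1 + η) * p).card : ℝ) := by
    by_contra hc
    push Not at hc
    have := sparse_mass hη0 (by positivity) S 1 one_pos
      (fun p hp => by exact_mod_cast (hS p hp).1) hc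
    linarith
  obtain ⟨p, hp, hcard⟩ := h1
  set T := S.filter fun q : ℕ => p ≤ q ∧ (q : ℝ) ≤ (1 + η) * p with hT
  have hp0 : (0 : ℝ) < p := by exact_mod_cast (hS p hp).1
  have hcast : ∀ q ∈ S, ((L / q ^ n : ℕ) : ℝ) = L / (q : ℝ) ^ n := by
    intro q hq
    have : (q : ℝ) ≠ 0 := by exact_mod_cast (hS q hq).1.ne'
    rw [Nat.cast_div (hS q hq).2.2 (by push_cast; positivity)]
    push_cast; rfl
  set L0 := L / p ^ n with hL0
  have hL0c : (L0 : ℝ) = L / (p : ℝ) ^ n := hcast p hp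
  have hL0p : (0 : ℝ) < L0 := by rw [hL0c]; positivity
  obtain ⟨K, hK, hK1, hK2⟩ := spec_cover hf (L := L0) (by exact_mod_cast hL0p) (δ := δ / 2)
    (R := R) (by positivity)
    (by
      refine le_trans (le_of_eq ?_) hR1
      field_simp; norm_num) (by omega)
  have hbern : (1 + η) ^ n * (1 - δ / 4) ≤ 1 := by
    have h1 : 1 + (n : ℕ) * (-η) ≤ (1 + -η) ^ n := one_add_mul_le_pow (by linarith) n
    have h2 : (1 + η) ^ n * (1 + -η) ^ n ≤ 1 := by
      rw [← mul_pow]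
      exact pow_le_one₀ (by nlinarith) (by nlinarith)
    have h3 : (1 - δ / 4) = 1 + (n : ℕ) * (-η) := by rw [hη]; field_simp; ring
    rw [h3]
    exact le_trans (mul_le_mul_of_nonneg_left h1 (by positivity)) h2
  have h2 : ∀ q ∈ T, ∃ ξ ∈ K, ‖ζ ^ q ^ n - ξ‖ ≤ 7 / (R * L0) := by
    intro q hq
    obtain ⟨hqS, hpq, hq2⟩ := mem_filter.1 hq
    have hq0 : (0 : ℝ) < q := by exact_mod_cast (hS q hqS).1
    have hζq : ‖ζ ^ q ^ n‖ = 1 := by rw [norm_pow, hζ, one_pow]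
    refine hK2 _ hζq ?_
    have h3 : L / q ^ n ≤ L0 :=
      Nat.div_le_div_left (Nat.pow_le_pow_left hpq n) (pow_pos (hS p hp).1 n)
    have h4 := fs_sub_le hf h3 hζq
    have h5 := h q hqS
    have h6 : (1 - δ / 4) * L0 ≤ ((L / q ^ n : ℕ) : ℝ) := by
      rw [hcast q hqS, hL0c, ← mul_div_assoc, div_le_div_iff₀ (by positivity) (by positivity)]
      have h7 : (q : ℝ) ^ n ≤ ((1 + η) * p) ^ n := pow_le_pow_left₀ hq0.le hq2 n
      have h8 : (1 - δ / 4) * (q : ℝ) ^ n ≤ (p : ℝ) ^ n := by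
        calc _ ≤ (1 - δ / 4) * ((1 + η) * p) ^ n := mul_le_mul_of_nonneg_left h7 (by linarith)
          _ = (1 + η) ^ n * (1 - δ / 4) * (p : ℝ) ^ n := by rw [mul_pow]; ring
          _ ≤ 1 * (p : ℝ) ^ n := mul_le_mul_of_nonneg_right hbern (by positivity)
          _ = _ := one_mul _
      nlinarith
    have h7 := norm_sub_norm_le (fs f (L / q ^ n) (ζ ^ q ^ n)) (fs f L0 (ζ ^ q ^ n))
    rw [norm_sub_rev] at h7
    nlinarith [mul_le_mul_of_nonneg_left h6 hδ.le, mul_nonneg hδ.le hL0p.le,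
      mul_le_mul_of_nonneg_right hδ1 (mul_nonneg hδ.le hL0p.le)]
  choose! ξ hξ hξ' using h2
  obtain ⟨a, ha, b, hb, hab, hξab⟩ := exists_ne_map_eq_of_card_lt_of_maps_to (s := T) (t := K)
    (by exact_mod_cast hK.trans_lt hcard) hξ
  have key : ∀ a ∈ T, ∀ b ∈ T, a < b → ξ a = ξ b →
      ∃ m, 1 ≤ m ∧ m ≤ B ^ n ∧ ‖ζ ^ m - 1‖ ≤ 14 * (B : ℝ) ^ n / L := by
    intro a ha b hb hab hξab
    have h3 : a ^ n < b ^ n := Nat.pow_lt_pow_left hab hn.ne'
    have hbB := (hS b (mem_filter.1 hb).1).2.1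
    refine ⟨b ^ n - a ^ n, by omega, (Nat.sub_le _ _).trans (Nat.pow_le_pow_left hbB n), ?_⟩
    have h4 : ζ ^ b ^ n - ζ ^ a ^ n = ζ ^ a ^ n * (ζ ^ (b ^ n - a ^ n) - 1) := by
      rw [mul_sub, ← pow_add, Nat.add_sub_cancel' h3.le, mul_one]
    have h5 : ‖ζ ^ (b ^ n - a ^ n) - 1‖ = ‖ζ ^ b ^ n - ζ ^ a ^ n‖ := by
      rw [h4, norm_mul, norm_pow, hζ, one_pow, one_mul]
    have h6 := norm_sub_le_norm_sub_add_norm_sub (ζ ^ b ^ n) (ξ b) (ζ ^ a ^ n)
    have h7 := hξ' a ha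
    have h8 := hξ' b hb
    rw [hξab, norm_sub_rev] at h7
    have h9 : 7 / (R * L0 : ℝ) ≤ 7 * (B : ℝ) ^ n / L := by
      have h10 : (p : ℝ) ^ n ≤ (B : ℝ) ^ n :=
        pow_le_pow_left₀ hp0.le (by exact_mod_cast (hS p hp).2.1) n
      calc 7 / (R * L0 : ℝ) ≤ 7 / (1 * L0) := by gcongr
        _ = 7 * (p : ℝ) ^ n / L := by rw [hL0c]; field_simp
        _ ≤ _ := by gcongr
    have h10 : 14 * (B : ℝ) ^ n / L = 2 * (7 * (B : ℝ) ^ n / L) := by ring
    rw [h5, h10]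
    linarith
  rcases lt_or_gt_of_ne hab with h3 | h3
  · exact key a ha b hb h3 hξab
  · exact key b hb a ha h3 hξab.symm

lemma chain {n : ℕ} {δ ε : ℝ} (hε : 0 < ε) (hεδ : n * ε ≤ δ) (F : ℕ → ℝ) {σ p L : ℕ}
    (hp : 0 < p) (hL : p ^ n ∣ L)
    (hb : ∀ j < n, ¬ badp ε (fun t => F (σ * p ^ j * t)) (L / p ^ j) p) {ζ : ℂ} (hζ : ‖ζ‖ = 1)
    (h0 : δ / 2 * L ≤ ‖fs (fun t => F (σ * t)) L ζ‖) (j : ℕ) (hj : j ≤ n) :
    (δ / 2 - j * (ε / 64)) * (L / p ^ j : ℕ)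
      ≤ ‖fs (fun t => F (σ * p ^ j * t)) (L / p ^ j) (ζ ^ p ^ j)‖ := by
  induction j with
  | zero => simpa using h0
  | succ j ih =>
    have h1 := ih (by omega)
    have h2 : L / p ^ j = p * (L / p ^ (j + 1)) := by
      rw [pow_succ, ← Nat.div_div_eq_div_mul, Nat.mul_div_cancel']
      refine Nat.dvd_div_of_mul_dvd ?_
      rw [← pow_succ]
      exact (pow_dvd_pow p hj).trans hL
    have hζj : ‖ζ ^ p ^ j‖ = 1 := by rw [norm_pow, hζ, one_pow]
    have hj' : (j : ℝ) + 1 ≤ n := by exact_mod_cast hj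
    have hj0 : (0 : ℝ) ≤ j := Nat.cast_nonneg j
    have hj1 : ((j : ℝ) + 1) * ε ≤ δ := (mul_le_mul_of_nonneg_right hj' hε.le).trans hεδ
    have hj2 : 0 ≤ (j : ℝ) * ε := by positivity
    have h3 : ‖fs (fun t => F (σ * p ^ j * t) * dv p t) (L / p ^ j) (ζ ^ p ^ j)‖
        ≤ ε / 64 * (L / p ^ j : ℕ) := by
      by_contra hc
      refine hb j (by omega) ⟨_, hζj, le_trans ?_ h1, not_le.1 hc⟩
      refine mul_le_mul_of_nonneg_right (by nlinarith) (Nat.cast_nonneg _)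
    rw [h2] at h1 h3
    rw [fs_dv hp] at h3
    have h4 : (fun u => F (σ * p ^ j * (p * u))) = fun u => F (σ * p ^ (j + 1) * u) := by
      ext u; congr 1; ring
    rw [h4, ← pow_mul, ← pow_succ] at h3
    have h5 := norm_sub_norm_le (fs (fun t => F (σ * p ^ j * t)) (p * (L / p ^ (j + 1))) (ζ ^ p ^ j))
      (p * fs (fun u => F (σ * p ^ (j + 1) * u)) (L / p ^ (j + 1)) (ζ ^ p ^ (j + 1)))
    rw [norm_sub_rev, norm_mul, norm_natCast] at h5
    have hp' : (0 : ℝ) < p := by exact_mod_cast hp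
    refine le_of_mul_le_mul_left ?_ hp'
    push_cast at h1 h3 ⊢
    nlinarith

/-- The average of dilates. -/
noncomputable def gAv (n : ℕ) (F : ℕ → ℝ) (S : Finset ℕ) (D s t : ℕ) : ℝ :=
  (∑ p ∈ S, F (s * (D / p) ^ n * t) / p) / ∑ p ∈ S, 1 / (p : ℝ)

def Bad (n : ℕ) (δ : ℝ) (F : ℕ → ℝ) (S : Finset ℕ) (D : ℕ) (x : ℕ × ℕ) : Prop :=
  δ / 4 * ∑ p ∈ S, 1 / (p : ℝ) < ∑ p ∈ S,
    (if ∃ j < n, badp (δ / n) (fun t => F (x.1 * (D / p) ^ n * p ^ j * t)) (x.2 / p ^ j) p then 1 else 0)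
      / (p : ℝ)

theorem major {n : ℕ} (hn : 0 < n) {δ : ℝ} (hδ : 0 < δ) (hδ1 : δ ≤ 1) :
    ∃ Λ : ℝ, 0 < Λ ∧ ∀ (F : ℕ → ℝ), (∀ t, |F t| ≤ 1) → ∀ (S : Finset ℕ) (D : ℕ), 0 < D →
    (∀ p ∈ S, p.Prime ∧ p ∣ D) → Λ ≤ ∑ p ∈ S, 1 / (p : ℝ) → ∃ Bd : ℕ × ℕ → Prop,
    MM.m (fun x => if Bd x then 1 else 0) ≤ δ ∧
    ∀ s L, 0 < L → D ^ n ∣ L → ¬ Bd (s, L) → ∀ ζ : ℂ, ‖ζ‖ = 1 →
      δ * L ≤ ‖fs (gAv n F S D s) L ζ‖ →
      ∃ m, 1 ≤ m ∧ m ≤ D ^ n ∧ ‖ζ ^ m - 1‖ ≤ 14 * (D : ℝ) ^ n / L := by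
  have hn0 : (0 : ℝ) < n := by exact_mod_cast hn
  obtain ⟨C, hC0, hC⟩ := tk_spec (δ := δ / n) (by positivity)
  obtain ⟨Λ1, hΛ0, hΛ1⟩ := pigeon hn (δ := δ / 4) (by positivity) (by linarith)
  refine ⟨4 * n * C / δ ^ 2 + 4 * Λ1 / δ + 1, by positivity, fun F hF S D hD hS hΛ => ?_⟩
  set Λ := ∑ p ∈ S, 1 / (p : ℝ) with hΛdef
  have hA : 0 ≤ 4 * n * C / δ ^ 2 := by positivity
  have hB : 0 ≤ 4 * Λ1 / δ := by positivity
  have hΛp : 0 < Λ := by linarith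
  refine ⟨Bad n δ F S D, ?_, ?_⟩
  · set b : ℕ → ℕ × ℕ → ℝ := fun p x => if badp (δ / n) (fun t => F (x.1 * t)) x.2 p then 1 else 0
      with hb
    have hbb : ∀ p, Bdd (b p) := fun p => bdd_ind _
    have h1 : MM.m (fun x => if Bad n δ F S D x then 1 else 0) ≤ MM.m (fun x =>
        4 / (δ * Λ) * ∑ j ∈ range n, ∑ p ∈ S, b p ((D / p) ^ n * p ^ j * x.1, x.2 / p ^ j) / p) := by
      refine MM.mono (bdd_ind _) ((Bdd.const _).mul (Bdd.sum _ fun j => Bdd.sum _ fun p =>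
        ((hbb p).comp _).div_const _)) fun x => ?_
      have hnn : ∀ p y, 0 ≤ b p y := fun p y => by rw [hb]; dsimp only; split_ifs <;> simp
      split_ifs with hx
      · have h2 : δ / 4 * Λ
            ≤ ∑ j ∈ range n, ∑ p ∈ S, b p ((D / p) ^ n * p ^ j * x.1, x.2 / p ^ j) / p := by
          refine hx.le.trans ?_
          rw [sum_comm]
          refine sum_le_sum fun p _ => ?_
          rw [← sum_div]
          refine div_le_div_of_nonneg_right ?_ (Nat.cast_nonneg _)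
          split_ifs with h3
          · obtain ⟨j, hj, h3⟩ := h3
            refine le_trans ?_ (single_le_sum (f := fun j =>
              b p ((D / p) ^ n * p ^ j * x.1, x.2 / p ^ j)) (fun _ _ => hnn _ _) (mem_range.2 hj))
            rw [hb]
            dsimp only
            rw [if_pos]
            convert h3 using 4
            ring
          · exact sum_nonneg fun _ _ => hnn _ _
        calc (1 : ℝ) = 4 / (δ * Λ) * (δ / 4 * Λ) := by field_simp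
          _ ≤ _ := mul_le_mul_of_nonneg_left h2 (by positivity)
      · exact mul_nonneg (by positivity) (sum_nonneg fun _ _ => sum_nonneg fun _ _ =>
          div_nonneg (hnn _ _) (Nat.cast_nonneg _))
    refine h1.trans ?_
    rw [MM.const_mul, MM.sum]
    have h2 : ∀ j ∈ range n,
        MM.m (fun x => ∑ p ∈ S, b p ((D / p) ^ n * p ^ j * x.1, x.2 / p ^ j) / p) ≤ C := by
      intro j _
      have h3 : MM.m (fun x => ∑ p ∈ S, b p ((D / p) ^ n * p ^ j * x.1, x.2 / p ^ j) / p)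
          = MM.m (fun x => ∑ p ∈ S, b p x / p) := by
        rw [MM.sum, MM.sum]
        refine sum_congr rfl fun p hp => ?_
        have hp0 := (hS p hp).1.pos
        have h4 : 0 < D / p := Nat.div_pos (Nat.le_of_dvd hD (hS p hp).2) hp0
        rw [MM.div_const, MM.div_const, MM_div (by positivity) (by positivity) (hbb p)]
      rw [h3, ← MM.const C]
      refine MM_mono (L := D * D) (by positivity) (Bdd.sum _ fun p => (hbb p).div_const _)
        (Bdd.const _) fun s N _ hN hDN => ?_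
      exact hC (fun t => F (s * t)) (fun t => hF _) N hN S (fun p hp => (hS p hp).1)
        fun p hp q hq => (mul_dvd_mul (hS p hp).2 (hS q hq).2).trans hDN
    have h3 := sum_le_sum h2
    simp only [sum_const, card_range, nsmul_eq_mul] at h3
    refine (mul_le_mul_of_nonneg_left h3 (by positivity)).trans ?_
    rw [div_mul_eq_mul_div, div_le_iff₀ (by positivity)]
    have h4 : 4 * n * C / δ ^ 2 ≤ Λ := by linarith
    rw [div_le_iff₀ (by positivity)] at h4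
    nlinarith
  · intro s L hL hDL hbad ζ hζ hlarge
    have hL' : (0 : ℝ) < L := by exact_mod_cast hL
    set φ : ℕ → ℕ → ℝ := fun p t => F (s * (D / p) ^ n * t) with hφ
    set T := S.filter fun p => δ / 2 * L ≤ ‖fs (φ p) L ζ‖ ∧
      ¬ ∃ j < n, badp (δ / n) (fun t => F (s * (D / p) ^ n * p ^ j * t)) (L / p ^ j) p with hT
    have h1 : fs (gAv n F S D s) L ζ = (∑ p ∈ S, fs (φ p) L ζ / p) / Λ := by
      simp only [fs_def, gAv, ← hΛdef, hφ, sum_div]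
      rw [sum_comm]
      refine sum_congr rfl fun t _ => ?_
      push_cast
      rw [sum_mul]
      exact sum_congr rfl fun p _ => by ring
    have h2 : δ * L * Λ ≤ ∑ p ∈ S, ‖fs (φ p) L ζ‖ / p := by
      rw [h1, norm_div, norm_real, Real.norm_of_nonneg hΛp.le, le_div_iff₀ hΛp] at hlarge
      refine hlarge.trans ((norm_sum_le _ _).trans (le_of_eq ?_))
      exact sum_congr rfl fun p _ => by rw [norm_div, norm_natCast]
    have h3 : ∑ p ∈ S, ‖fs (φ p) L ζ‖ / p ≤ ∑ p ∈ S, (δ / 2 * L * (1 / p) + L *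
        ((if ∃ j < n, badp (δ / n) (fun t => F (s * (D / p) ^ n * p ^ j * t)) (L / p ^ j) p then 1 else 0)
          / (p : ℝ)) + L * (if p ∈ T then 1 / (p : ℝ) else 0)) := by
      refine sum_le_sum fun p hp => ?_
      have hp0 : (0 : ℝ) < p := by exact_mod_cast (hS p hp).1.pos
      have h4 : ‖fs (φ p) L ζ‖ ≤ L := norm_fs_le (fun t => hF _) L hζ
      have h5 : ‖fs (φ p) L ζ‖ / p ≤ L * (1 / p) := by
        rw [mul_one_div]; exact div_le_div_of_nonneg_right h4 hp0.le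
      have h6 : 0 ≤ δ / 2 * L * (1 / p) := by positivity
      have h7 : 0 ≤ (L : ℝ) * (1 / p) := by positivity
      split_ifs with h8 h9 h9
      · linarith
      · linarith
      · simp only [zero_div]; linarith
      · have h10 : ‖fs (φ p) L ζ‖ < δ / 2 * L := by
          by_contra hc
          exact h9 (mem_filter.2 ⟨hp, not_lt.1 hc, h8⟩)
        simp only [zero_div, mul_zero, add_zero, mul_one_div]
        exact div_le_div_of_nonneg_right h10.le hp0.le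
    rw [sum_add_distrib, sum_add_distrib, ← mul_sum, ← mul_sum, ← mul_sum, sum_ite_mem,
      inter_eq_right.2 (filter_subset _ _), ← hΛdef] at h3
    have h4 := not_lt.1 hbad
    rw [← hΛdef] at h4
    dsimp only at h4
    have h5 : δ / 4 * Λ ≤ ∑ p ∈ T, 1 / (p : ℝ) := by
      refine le_of_mul_le_mul_left ?_ hL'
      nlinarith [mul_le_mul_of_nonneg_left h4 hL'.le]
    have h6 : Λ1 < δ / 4 * Λ := by
      have h7 : 4 * Λ1 / δ < Λ := by linarith
      rw [div_lt_iff₀ hδ] at h7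
      linarith
    refine hΛ1 (fun t => F (s * D ^ n * t)) (fun t => hF _) L D hL T (fun p hp => ?_)
      (h6.trans_le h5) ζ hζ fun p hp => ?_
    · have hp' := hS p (mem_filter.1 hp).1
      exact ⟨hp'.1.pos, Nat.le_of_dvd hD hp'.2, (pow_dvd_pow_of_dvd hp'.2 n).trans hDL⟩
    · obtain ⟨hpS, hp1, hp2⟩ := mem_filter.1 hp
      have hp' := hS p hpS
      have h7 := chain (δ := δ) (ε := δ / n) (by positivity) (le_of_eq (by field_simp)) F (σ := s * (D / p) ^ n) hp'.1.pos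
        ((pow_dvd_pow_of_dvd hp'.2 n).trans hDL) (fun j hj hb => hp2 ⟨j, hj, hb⟩) hζ hp1 n le_rfl
      have h8 : s * (D / p) ^ n * p ^ n = s * D ^ n := by
        rw [mul_assoc, ← mul_pow, Nat.div_mul_cancel hp'.2]
      rw [h8] at h7
      refine le_trans (mul_le_mul_of_nonneg_right ?_ (Nat.cast_nonneg _)) h7
      have h9 : (n : ℝ) * (δ / n / 64) = δ / 64 := by field_simp
      rw [h9]
      linarith

end Pool.Agent.Lib.MP_a5a405_co.PR.G
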