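import Pool.Agent.Lib.MP_a5a405_co.G.Final

/-!
The system 16 x + 17 y = w z ^ 8, 33 x' - 17 y' = w' z' ^ 8 satisfies the local condition.
-/

open Polynomial

namespace Pool.Agent.Lib.MP_a5a405_co.PR.G

lemma Named_hensel {p : ℕ} [Fact p.Prime] (n : ℕ) (a u : ℤ)
    (h : ‖((a ^ n - u : ℤ) : ℤ_[p])‖ < ‖((n * a ^ (n - 1) : ℤ) : ℤ_[p])‖ ^ 2) :
    ∃ t : ℚ_[p], t ^ n = u := by
  obtain ⟨z, hz, -⟩ := hensels_lemma (F := (X ^ n - C (u : ℤ_[p]) : ℤ_[p][X])) (a := (a : ℤ_[p]))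
    (by
      push_cast at h
      simpa [derivative_X_pow] using h)
  have h5 : z ^ n = u := by simpa [sub_eq_zero] using hz
  exact ⟨z, by rw [← PadicInt.coe_pow, h5]; simp⟩

lemma Named_sq {p : ℕ} [Fact p.Prime] (hp : p ≠ 2) (u : ℤ) (hu : u ∣ 2)
    (h : IsSquare (u : ZMod p)) : ∃ t : ℚ_[p], t ^ 2 = u := by
  obtain ⟨s, hs⟩ := h
  obtain ⟨a, rfl⟩ := ZMod.intCast_surjective s
  have h2 : ¬ (p : ℤ) ∣ 2 := fun h => hp ((Nat.prime_dvd_prime_iff_eq Fact.out Nat.prime_two).1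
    (by exact_mod_cast h))
  have h1 : (p : ℤ) ∣ a ^ 2 - u := by
    rw [← ZMod.intCast_zmod_eq_zero_iff_dvd]
    push_cast
    rw [hs]
    ring
  have hP : Prime (p : ℤ) := Nat.prime_iff_prime_int.1 Fact.out
  have h3 : ¬ (p : ℤ) ∣ (2 : ℕ) * a ^ (2 - 1) := fun h => by
    rcases hP.dvd_or_dvd h with h | h
    · exact h2 h
    · have := dvd_sub (h.mul_left a) h1
      rw [show a * a ^ (2 - 1) - (a ^ 2 - u) = u by ring] at this
      exact h2 (this.trans hu)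
  refine Named_hensel 2 a u ?_
  rw [le_antisymm (PadicInt.norm_le_one _)
    (not_lt.1 fun h => h3 ((PadicInt.norm_int_lt_one_iff_dvd _).1 h)), one_pow]
  exact (PadicInt.norm_int_lt_one_iff_dvd _).2 h1

lemma Named_local (p : ℕ) [Fact p.Prime] :
    ∃ q : ℚ, (∃ t : ℚ_[p], t ^ 8 = q) ∧ (q = 16 ∨ q = 33) := by
  by_cases hp : p = 2
  · subst hp
    obtain ⟨t, ht⟩ := Named_hensel (p := 2) 8 3 33 (by
      have h1 := (PadicInt.norm_int_le_pow_iff_dvd (p := 2) (k := 3 ^ 8 - 33) (n := 7)).2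
        (by norm_num)
      have h2 := mt (PadicInt.norm_int_le_pow_iff_dvd (p := 2) (k := (8 : ℕ) * 3 ^ (8 - 1))
        (n := 4)).1 (by norm_num)
      have h3 := (PadicInt.norm_le_pow_iff_norm_lt_pow_add_one
        (((8 : ℕ) * 3 ^ (8 - 1) : ℤ) : ℤ_[2]) (-4)).not.1 (by simpa using h2)
      refine h1.trans_lt (lt_of_lt_of_le ?_ (pow_le_pow_left₀ (by positivity) (not_lt.1 h3) 2))
      norm_num)
    exact ⟨33, ⟨t, by simpa using ht⟩, Or.inr rfl⟩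
  refine ⟨16, ?_, Or.inl rfl⟩
  have h0 := (Nat.Prime.mod_two_eq_one_iff_ne_two (Fact.out : p.Prime)).2 hp
  have h1 : (p % 8 = 1 ∨ p % 8 = 7) ∨ (p % 8 = 1 ∨ p % 8 = 3) ∨ p % 4 ≠ 3 := by omega
  rcases h1 with h | h | h
  · obtain ⟨t, ht⟩ := Named_sq hp 2 dvd_rfl (by simpa using (ZMod.exists_sq_eq_two_iff hp).2 h)
    exact ⟨t, by rw [show t ^ 8 = (t ^ 2) ^ 4 by ring, ht]; norm_num⟩
  · obtain ⟨t, ht⟩ := Named_sq hp (-2) (by norm_num)
      (by simpa using (ZMod.exists_sq_eq_neg_two_iff hp).2 h)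
    exact ⟨t, by rw [show t ^ 8 = (t ^ 2) ^ 4 by ring, ht]; norm_num⟩
  · obtain ⟨t, ht⟩ := Named_sq hp (-1) (by norm_num)
      (by simpa using ZMod.exists_sq_eq_neg_one_iff.2 h)
    refine ⟨1 + t, ?_⟩
    push_cast at ht ⊢
    rw [show (1 + t) ^ 8 = (((1 + t ^ 2 + 2 * t) ^ 2) ^ 2) by ring, ht, add_neg_cancel, zero_add,
      mul_pow, ht]
    norm_num

/-- The system of two equations named in the problem is partition regular. -/
theorem Named_system (r : ℕ) (χ : ℤ → Fin r) : ∃ (x y w z : Fin 2 → ℤ) (κ : Fin r), ∀ i,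
    x i ≠ 0 ∧ y i ≠ 0 ∧ w i ≠ 0 ∧ z i ≠ 0 ∧
      ![16, 33] i * x i + ![17, -17] i * y i = ![1, 1] i * w i * z i ^ 8 ∧
      χ (x i) = κ ∧ χ (y i) = κ ∧ χ (w i) = κ ∧ χ (z i) = κ := by
  refine sufficient (by norm_num) _ _ _ (fun i => by fin_cases i <;> simp)
    (fun i => by fin_cases i <;> simp) (fun i => by fin_cases i <;> simp) (fun p _ => ?_) χ
  obtain ⟨q, h1, h2⟩ := Named_local p
  refine ⟨q, h1, fun i _ => ?_⟩
  rcases h2 with rfl | rfl <;> fin_cases i <;> norm_num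

end Pool.Agent.Lib.MP_a5a405_co.PR.G
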