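import Pool.Agent.Lib.MP_a5a405_co.G.Det
import Pool.Agent.Lib.MP_a5a405_co.G.Major

/-!
The main term, its upper bound in the absence of solutions, and a recurrence lemma.
-/

open Finset Filter Topology
open scoped Classical

namespace Pool.Agent.Lib.MP_a5a405_co.PR.G

lemma gAv_mem (n : ℕ) {F : ℕ → ℝ} (hF : ∀ n, 0 ≤ F n ∧ F n ≤ 1) (S : Finset ℕ) (D s t : ℕ) :
    0 ≤ gAv n F S D s t ∧ gAv n F S D s t ≤ 1 := by
  unfold gAv
  refine ⟨div_nonneg (sum_nonneg fun p _ => div_nonneg (hF _).1 (Nat.cast_nonneg _))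
    (sum_nonneg fun p _ => by positivity), div_le_one_of_le₀ (sum_le_sum fun p _ =>
      div_le_div_of_nonneg_right (hF _).2 (Nat.cast_nonneg _)) (sum_nonneg fun p _ => by positivity)⟩

lemma cav_gAv (n M L : ℕ) (F : ℕ → ℝ) (S : Finset ℕ) (D s : ℕ) (c : ZMod M × ℕ) :
    cav M L (gAv n F S D s) c = (∑ p ∈ S, cav M L (fun t => F (s * (D / p) ^ n * t)) c / p)
      / ∑ p ∈ S, 1 / (p : ℝ) :=
  ce_sum (range L) (cell M L) S (fun p t => F (s * (D / p) ^ n * t)) (fun p => (p : ℝ)) _ c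

lemma inc_gAv (n M M' L : ℕ) (F : ℕ → ℝ) (S : Finset ℕ) (D s : ℕ)
    (hS : 0 < ∑ p ∈ S, 1 / (p : ℝ)) :
    inc M M' (gAv n F S D s) L ≤ (∑ p ∈ S, inc M M' (fun t => F (s * (D / p) ^ n * t)) L / p)
      / ∑ p ∈ S, 1 / (p : ℝ) := by
  set Λ := ∑ p ∈ S, 1 / (p : ℝ) with hΛ
  set x : ℕ → ℕ → ℝ := fun p t =>
    cav (M * M') L (fun t => F (s * (D / p) ^ n * t)) (cell (M * M') L t)
      - cav M L (fun t => F (s * (D / p) ^ n * t)) (cell M L t) with hx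
  have h1 : ∀ t ∈ range L, (cav (M * M') L (gAv n F S D s) (cell (M * M') L t)
      - cav M L (gAv n F S D s) (cell M L t)) ^ 2 ≤ (∑ p ∈ S, x p t ^ 2 / p) / Λ := by
    intro t _
    rw [cav_gAv, cav_gAv, ← sub_div, ← sum_sub_distrib, div_pow, ← hΛ,
      div_le_div_iff₀ (by positivity) hS]
    have h2 := sum_sq_le_sum_mul_sum_of_sq_le_mul S (r := fun p => x p t / p)
      (f := fun p => x p t ^ 2 / p) (g := fun p => 1 / (p : ℝ)) (fun p _ => by positivity)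
      (fun p _ => by positivity) fun p _ => le_of_eq (by ring)
    simp only [← sub_div]
    rw [sq Λ, ← mul_assoc]
    exact mul_le_mul_of_nonneg_right h2 hS.le
  refine (div_le_div_of_nonneg_right (sum_le_sum h1) (Nat.cast_nonneg _)).trans (le_of_eq ?_)
  rw [← sum_div, sum_comm, div_right_comm, sum_div]
  congr 1
  refine sum_congr rfl fun p _ => ?_
  rw [← sum_div, div_right_comm]
  rfl

/-- The average of a dilate on a cell. -/
noncomputable def vv {Q : ℕ} (F : ℕ → ℝ) (x : Om Q) : ℝ :=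
  cav Q x.2.2 (fun t => F (x.2.1 * t)) x.1

lemma vv_mem {Q : ℕ} {F : ℕ → ℝ} (hF : ∀ n, 0 ≤ F n ∧ F n ≤ 1) (x : Om Q) :
    0 ≤ vv F x ∧ vv F x ≤ 1 := ce_mem _ _ (fun _ => hF _) _

/-- The averaged third function on the predicted cell. -/
noncomputable def GG (n M M₁ γ R : ℕ) (F : ℕ → ℝ) (S : Finset ℕ) (D : ℕ) {Q : ℕ} (x : Om Q) : ℝ :=
  cav M (R * x.2.2) (gAv n F S D x.2.1) (prd M M₁ γ x.1)

lemma GG_mem (n M M₁ γ R : ℕ) {F : ℕ → ℝ} (hF : ∀ n, 0 ≤ F n ∧ F n ≤ 1) (S : Finset ℕ) (D : ℕ)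
    {Q : ℕ} (x : Om Q) : 0 ≤ GG n M M₁ γ R F S D x ∧ GG n M M₁ γ R F S D x ≤ 1 :=
  ce_mem _ _ (gAv_mem n hF S D _) _

lemma greedy {y : ℕ → ℝ} (hy : ∀ i, 0 ≤ y i ∧ y i ≤ 1) {c : ℝ} (hc : 0 ≤ c) (J : ℕ) :
    ∑ i ∈ range J, y i * (if ∑ j ∈ range J, y (i + j + 1) < c then 1 else 0) ≤ 1 + c := by
  by_cases h : ∃ i, ∑ j ∈ range J, y (i + j + 1) < c
  swap
  · push Not at h
    rw [sum_eq_zero fun i _ => by rw [if_neg (h i).not_gt, mul_zero]]
    positivity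
  have h1 := Nat.find_spec h
  have h2 := fun m => @Nat.find_min _ _ h m
  generalize Nat.find h = i₀ at h1 h2
  calc _ ≤ ∑ i ∈ range J, (if i₀ ≤ i then y i else 0) := sum_le_sum fun i _ => by
          by_cases h3 : i₀ ≤ i
          · rw [if_pos h3]
            split_ifs
            · simp
            · simpa using (hy i).1
          · rw [if_neg h3, if_neg (h2 i (not_le.1 h3)), mul_zero]
    _ = ∑ i ∈ (range J).filter (i₀ ≤ ·), y i := (sum_filter _ _).symm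
    _ ≤ ∑ i ∈ Ico i₀ (i₀ + (J + 1)), y i :=
        sum_le_sum_of_subset_of_nonneg (fun i hi => by
          simp only [mem_filter, mem_range, mem_Ico] at hi ⊢
          omega) fun i _ _ => (hy i).1
    _ = ∑ j ∈ range J, y (i₀ + (j + 1)) + y (i₀ + 0) := by
        rw [sum_Ico_eq_sum_range, Nat.add_sub_cancel_left, sum_range_succ']
    _ ≤ 1 + c := by
        simp only [← add_assoc]
        linarith [(hy (i₀ + 0)).2]

lemma rec1 {Q : ℕ} [NeZero Q] {W : Om Q → ℝ} (hW : ∀ x, 0 ≤ W x ∧ W x ≤ 1) (a b : ℕ) {D E J : ℕ}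
    (hD : 0 < D) (hE : 0 < E) (hJ : 0 < J) {θ : ℝ} (hθ : 0 ≤ θ) :
    (OM Q).m (fun x => W (act 1 a (b * E ^ J) x) * if ∑ j ∈ range J,
      W (act 1 (a * D ^ (j + 1)) (b * E ^ (J - (j + 1))) x) < θ * J then 1 else 0)
      ≤ θ + 1 / J := by
  set Ψ : Om Q → ℝ := fun x => W (act 1 a (b * E ^ J) x) * if ∑ j ∈ range J,
    W (act 1 (a * D ^ (j + 1)) (b * E ^ (J - (j + 1))) x) < θ * J then 1 else 0 with hΨ
  have hWb : Bdd W := Bdd.of_mem hW
  have hb : Bdd Ψ := (hWb.comp _).mul (bdd_ind _)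
  set y : Om Q → ℕ → ℝ := fun x i => W (act 1 (a * D ^ i) (b * E ^ (2 * J - i)) x) with hy
  have h1 : ∀ i ∈ range J, (OM Q).m (fun x => y x i *
      if ∑ j ∈ range J, y x (i + j + 1) < θ * J then 1 else 0) = (OM Q).m Ψ := by
    intro i hi
    have hi' := mem_range.1 hi
    rw [← OM_pres (Nat.coprime_one_left Q) (pow_pos hD i) (pow_pos hE (J - i)) Ψ hb]
    congr 1
    ext x
    simp only [hΨ, hy, act_act, mul_one, mul_assoc, ← pow_add]
    have h3 : ∀ j ∈ range J, W (act 1 (a * D ^ (i + j + 1)) (b * E ^ (2 * J - (i + j + 1))) x)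
        = W (act 1 (a * D ^ (j + 1 + i)) (b * E ^ (J - (j + 1) + (J - i))) x) := fun j hj => by
      have := mem_range.1 hj
      rw [show i + j + 1 = j + 1 + i by ring, show 2 * J - (j + 1 + i) = J - (j + 1) + (J - i) by
        omega]
    rw [sum_congr rfl h3, show 2 * J - i = J + (J - i) by omega]
  have h2 := (OM Q).le_const (Bdd.sum (range J) fun i => (hWb.comp fun x =>
      act 1 (a * D ^ i) (b * E ^ (2 * J - i)) x).mul
      (bdd_ind fun x => ∑ j ∈ range J, y x (i + j + 1) < θ * J))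
    fun x => greedy (y := y x) (fun i => hW _) (by positivity : 0 ≤ θ * J) J
  rw [Mean.sum] at h2
  have h3 := (sum_congr rfl h1).symm.trans_le h2
  have hJ' : (0 : ℝ) < J := by exact_mod_cast hJ
  rw [sum_const, card_range, nsmul_eq_mul] at h3
  refine le_of_mul_le_mul_left (h3.trans_eq ?_) hJ'
  field_simp
  ring

lemma prd_cell {M M₁ : ℕ} [NeZero (M * M₁)] (hM₁ : 0 < M₁) (γ N t : ℕ) :
    prd M M₁ γ (cell (M * M₁) N t) = ((γ : ZMod M) * (cell M N t).1, (cell M N t).2) := by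
  rw [cell_nest (M := M) hM₁ N t]
  refine Prod.ext ?_ rfl
  simp only [prd, Nat.cast_mul, ZMod.natCast_val, ZMod.castHom_apply]

lemma mainterm {n M M₁ Q R ρ₁ ρ₂ z D γ : ℕ} [NeZero M] [NeZero Q] (hQ : Q = M * M₁) (hR : 0 < R)
    (hρ₂ : 0 < ρ₂) {F : ℕ → ℝ} (hF : ∀ n, 0 ≤ F n ∧ F n ≤ 1) {S : Finset ℕ} (hD : 0 < D)
    (hS : ∀ p ∈ S, p ∣ D) (hΛ : 0 < ∑ p ∈ S, 1 / (p : ℝ)) {e : ℝ}
    (he : ∀ p ∈ S, e ≤ (OM M).m (fun x => ww F (act 1 ((p * z) ^ n) ρ₂ x)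
      * ww F (act γ 1 ρ₁ x))) :
    e ≤ (OM Q).m (fun x => vv F (act 1 ((z * D) ^ n) (ρ₂ * R) x)
      * GG n M M₁ γ (ρ₁ * R) F S D x) := by
  subst hQ
  have hQ0 : 0 < M * M₁ := Nat.pos_of_ne_zero (NeZero.ne _)
  have hM₁ : 0 < M₁ := Nat.pos_of_mul_pos_left hQ0
  set Λ := ∑ p ∈ S, 1 / (p : ℝ) with hΛdef
  have hwb : Bdd (ww (M := M) F) := Bdd.of_mem (ww_mem hF)
  set φ : ℕ → Om M → ℝ := fun p x => ww F (act 1 ((z * D) ^ n) (ρ₂ * R) x)
    * ww F (act γ ((D / p) ^ n) (ρ₁ * R) x) with hφ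
  have hφb : ∀ p, Bdd (φ p) := fun p => (hwb.comp _).mul (hwb.comp _)
  have hb : Bdd fun x => (∑ p ∈ S, φ p x / p) / Λ :=
    (Bdd.sum _ fun p => (hφb p).div_const _).div_const _
  have h1 : e ≤ (OM M).m (fun x => (∑ p ∈ S, φ p x / p) / Λ) := by
    rw [Mean.div_const, Mean.sum, le_div_iff₀ hΛ, mul_sum]
    refine sum_le_sum fun p hp => ?_
    have hp0 : 0 < p := Nat.pos_of_dvd_of_pos (hS p hp) hD
    have h3 : 0 < D / p := Nat.div_pos (Nat.le_of_dvd hD (hS p hp)) hp0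
    rw [Mean.div_const, mul_one_div]
    refine div_le_div_of_nonneg_right ((he p hp).trans (le_of_eq ?_)) (Nat.cast_nonneg _)
    rw [← OM_pres (Nat.coprime_one_left M) (pow_pos h3 n) hR _ ((hwb.comp _).mul (hwb.comp _))]
    have h7 : (p * z) ^ n * (D / p) ^ n = (z * D) ^ n := by
      rw [← mul_pow, mul_right_comm, Nat.mul_div_cancel' (hS p hp), mul_comm]
    simp only [act_act, mul_one, one_mul, h7, hφ]
  refine h1.trans ?_
  rw [OM_m, OM_m]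
  refine MM_mono (L := (M * M₁) ^ 2) (by positivity)
    ((Mean.avg (cells M) (cells_nonempty M)).bdd_inner hb)
    ((Mean.avg (cells (M * M₁)) (cells_nonempty _)).bdd_inner
      (((Bdd.of_mem (vv_mem hF)).comp _).mul (Bdd.of_mem (GG_mem n M M₁ γ _ hF S D)))) ?_
  rintro s _ hs hN ⟨k, rfl⟩
  have hk : 0 < k := Nat.pos_of_mul_pos_left hN
  set N := (M * M₁) ^ 2 * k with hNdef
  have h2 := avg_cells (M := M) (k := M₁ ^ 2 * (ρ₂ * R * k)) (by positivity)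
    (fun t => F ((z * D) ^ n * s * t))
    (fun c : ZMod M × ℕ => cav M (ρ₁ * R * N) (gAv n F S D s) (γ * c.1, c.2))
  have h3 := avg_cells (M := M * M₁) (k := ρ₂ * R * k) (by positivity)
    (fun t => F ((z * D) ^ n * s * t))
    (fun c => cav M (ρ₁ * R * N) (gAv n F S D s) (prd M M₁ γ c))
  rw [show M ^ 2 * (M₁ ^ 2 * (ρ₂ * R * k)) = ρ₂ * R * N by rw [hNdef]; ring] at h2
  rw [show (M * M₁) ^ 2 * (ρ₂ * R * k) = ρ₂ * R * N by rw [hNdef]; ring] at h3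
  simp only [prd_cell hM₁] at h3
  simp only [vv, GG, act, Nat.cast_one, one_mul]
  rw [h3, ← h2]
  refine div_le_div_of_nonneg_right (sum_le_sum fun c _ => ?_) (Nat.cast_nonneg _)
  rw [cav_gAv, ← mul_div_assoc, mul_sum]
  refine div_le_div_of_nonneg_right (sum_le_sum fun p _ => ?_) hΛ.le
  rw [← mul_div_assoc]
  refine div_le_div_of_nonneg_right ?_ (Nat.cast_nonneg _)
  simp only [hφ, ww, act, Nat.cast_one, one_mul, mul_comm _ s]
  refine mul_le_mul (mul_le_of_le_one_left ?_ (od_mem _).2) (mul_le_of_le_one_left ?_ (od_mem _).2)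
    ?_ ?_
  · exact (ce_mem _ _ (fun _ => hF _) _).1
  · exact (ce_mem _ _ (fun _ => hF _) _).1
  · exact mul_nonneg (od_mem _).1 (ce_mem _ _ (fun _ => hF _) _).1
  · exact (ce_mem _ _ (fun _ => hF _) _).1

lemma upper {A B : ℤ} {n E M M₁ M₂ M' Q d₁ d₂ e₂ w ρ₁ ρ₂ γ C₀ C z D R₁ R₂ R : ℕ} [NeZero M]
    [NeZero Q] (hA : A ≠ 0) (hB : B ≠ 0) (hρ₁ : 0 < ρ₁) (hρ₂ : 0 < ρ₂) (hM₁ : M₁ = E * M₂)
    (hQ : Q = M * M₁) (hd₁ : 0 < d₁) (hd₂ : 0 < d₂) (he₂ : 0 < e₂) (hw : 0 < w)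
    (hco : d₁.Coprime d₂) (hγ : γ.Coprime Q) (hcong : A * d₁ + B * d₂ ≡ E * γ [ZMOD Q])
    (hR₁ : R₁ = ρ₂ * (e₂ * w)) (hR₂ : R₂ = ρ₂ * (d₁ * w)) (hR : R = ρ₁ * (d₁ * e₂ * w))
    (harch : (e₂ = d₂ ∧ ρ₂ * (A + B) = ρ₁ * E) ∨ (d₂ * Q ≤ e₂ ∧ ρ₂ * A = ρ₁ * E))
    (hC₀ : (A.natAbs + B.natAbs) * ρ₂ ≤ C₀) (hM' : 0 < M')
    {F : ℕ → ℝ} (hF : ∀ n, 0 ≤ F n ∧ F n ≤ 1) {S : Finset ℕ} (hD : 0 < D) (hS : ∀ p ∈ S, p ∣ D)
    (hΛ : 0 < ∑ p ∈ S, 1 / (p : ℝ))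
    (hno : ∀ p ∈ S, ∀ s X Y t : ℕ, A * X + B * Y = E * t →
      F (s * (p * z) ^ n * X) * F (s * (p * z) ^ n * Y) * F (s * t) = 0)
    {δ τ ε : ℝ} (hδ : 0 < δ) (hτ : 0 < τ) (hMC : M ≤ C) (hδC : 4 * (M : ℝ) ^ 2 / δ ≤ C)
    (hdvd : ∀ m, 1 ≤ m → m ≤ C → m ∣ M * M') (hC : 14 * D ^ n ≤ C) {Bd : ℕ × ℕ → Prop}
    (hbad : MM.m (fun x => if Bd x then 1 else 0) ≤ δ / 2)
    (hmaj : ∀ s L, 0 < L → D ^ n ∣ L → ¬ Bd (s, L) → ∀ ζ : ℂ, ‖ζ‖ = 1 →
      δ / 2 * L ≤ ‖fs (gAv n F S D s) L ζ‖ →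
      ∃ m, 1 ≤ m ∧ m ≤ D ^ n ∧ ‖ζ ^ m - 1‖ ≤ 14 * (D : ℝ) ^ n / L)
    (hinc : MM.m (fun y => inc M M' (fun t => F (y.1 * t)) y.2) ≤ ε) :
    (OM Q).m (fun x => vv F (act 1 ((z * D) ^ n * d₁) R₁ x) * vv F (act 1 ((z * D) ^ n * d₂) R₂ x)
      * GG n M M₁ γ R F S D x) ≤ 2 * C₀ / M₁ + τ / 2
      + (E * (2 * C₀ + 1) * B.natAbs * ρ₁ : ℕ) / τ * ((C / (M * M' : ℕ)) ^ 2 / δ ^ 2)
      + δ * (ρ₁ * Q ^ 2 * (d₁ + e₂) : ℕ) + (E * (2 * C₀ + 1) * B.natAbs * ρ₁ : ℕ) / τ * ε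
      + δ / 2 := by
  have hM : 0 < M := Nat.pos_of_ne_zero (NeZero.ne M)
  have hQ0 : 0 < Q := Nat.pos_of_ne_zero (NeZero.ne Q)
  have hR0 : 0 < R := by rw [hR]; positivity
  set K : ℝ := (E * (2 * C₀ + 1) * B.natAbs * ρ₁ : ℕ) / τ with hK
  have hK0 : 0 ≤ K := by positivity
  set c : ℝ := 2 * C₀ / M₁ + τ / 2 + K * ((C / (M * M' : ℕ)) ^ 2 / δ ^ 2)
    + δ * (ρ₁ * Q ^ 2 * (d₁ + e₂) : ℕ) with hc
  set Λ := ∑ p ∈ S, 1 / (p : ℝ) with hΛdef
  have hib : Bdd (fun y : ℕ × ℕ => inc M M' (fun t => F (y.1 * t)) y.2) :=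
    Bdd.of_mem fun y => inc_mem M M' (fun _ => hF _) _
  set f : Om Q → ℝ := fun x => vv F (act 1 ((z * D) ^ n * d₁) R₁ x)
    * vv F (act 1 ((z * D) ^ n * d₂) R₂ x) * GG n M M₁ γ R F S D x with hf
  have hf1 : ∀ x, 0 ≤ f x ∧ f x ≤ 1 := fun x =>
    ⟨mul_nonneg (mul_nonneg (vv_mem hF _).1 (vv_mem hF _).1) (GG_mem _ _ _ _ _ hF _ _ _).1,
      mul_le_one₀ (mul_le_one₀ (vv_mem hF _).2 (vv_mem hF _).1 (vv_mem hF _).2)
        (GG_mem _ _ _ _ _ hF _ _ _).1 (GG_mem _ _ _ _ _ hF _ _ _).2⟩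
  rw [OM_m]
  have h1 := MM_mono (L := Q ^ 2 * D ^ n) (by positivity)
    ((Mean.avg (cells Q) (cells_nonempty Q)).bdd_inner (Bdd.of_mem hf1))
    (g := fun y => c + K * ((∑ p ∈ S, inc M M' (fun t => F ((D / p) ^ n * y.1 * t))
      (R * y.2) / p) / Λ) + if Bd (1 * y.1, R * y.2) then 1 else 0)
    (((Bdd.const _).add ((Bdd.const _).mul ((Bdd.sum _ fun p => (hib.comp fun y : ℕ × ℕ =>
      ((D / p) ^ n * y.1, R * y.2)).div_const _).div_const _))).add (bdd_ind _)) (by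
      rintro s _ hs hN ⟨k, rfl⟩
      have hk : 0 < k := Nat.pos_of_mul_pos_left hN
      set N := Q ^ 2 * D ^ n * k with hNdef
      have h2 := inc_gAv n M M' (R * N) F S D s hΛ
      have h3 := (inc_mem M M' (gAv_mem n hF S D s) (R * N)).1
      simp only [mul_comm s] at h2
      have h4 := mul_le_mul_of_nonneg_left h2 hK0
      dsimp only
      split_ifs with hb
      · have h5 := (Mean.avg (cells Q) (cells_nonempty Q)).le_const
          ((Bdd.of_mem hf1).comp fun x => (x, (s, N))) fun x => (hf1 _).2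
        have h6 : 0 ≤ c := by positivity
        have h7 := mul_nonneg hK0 h3
        linarith
      · rw [one_mul] at hb
        have hL0 : 0 < R * N := by positivity
        have h5 := det2 (k₁ := R₁ * (D ^ n * k)) (k₂ := R₂ * (D ^ n * k))
          (k' := ρ₂ * w * (D ^ n * k)) (l := R * Q * (D ^ n * k)) (L := R * N)
          hA hB hρ₁ hρ₂ hM₁ hQ hd₁ hd₂ hco hγ hcong
          (by rw [hR₁]; positivity) (by positivity) (by rw [hR₂]; ring) (by rw [hR₁, hR₂]; ring)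
          (by rw [hR₁, hR]; ring) (by rw [hNdef]; ring) harch hC₀ hM'
          (by rw [hNdef, hQ]; exact ⟨R * M₁ ^ 2 * D ^ n * k, by ring⟩)
          (a := fun t => F ((z * D) ^ n * d₁ * s * t)) (b := fun t => F ((z * D) ^ n * d₂ * s * t))
          (g := gAv n F S D s) (fun _ => hF _) (fun _ => hF _) (gAv_mem n hF S D s)
          (fun u v t h => by
            unfold gAv
            rw [← mul_div_assoc, mul_sum, sum_eq_zero, zero_div]
            intro p hp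
            have h6 := hno p hp (s * (D / p) ^ n) (d₁ * u) (d₂ * v) t (by push_cast; linarith)
            have h7 : s * (D / p) ^ n * (p * z) ^ n = (z * D) ^ n * s := by
              rw [mul_assoc, ← mul_pow, ← mul_assoc, Nat.div_mul_cancel (hS p hp)]; ring
            rw [h7, show (z * D) ^ n * s * (d₁ * u) = (z * D) ^ n * d₁ * s * u by ring,
              show (z * D) ^ n * s * (d₂ * v) = (z * D) ^ n * d₂ * s * v by ring] at h6
            rw [← mul_div_assoc, h6, zero_div])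
          hδ hτ hMC hδC hdvd (fun ζ hζ hl => by
            obtain ⟨m, h6, h7, h8⟩ := hmaj s _ hL0
              (by rw [hNdef]; exact ⟨R * Q ^ 2 * k, by ring⟩) hb ζ hζ hl
            refine ⟨m, h6, by omega, h8.trans (div_le_div_of_nonneg_right ?_ (Nat.cast_nonneg _))⟩
            exact_mod_cast hC)
        rw [show Q ^ 2 * (R₁ * (D ^ n * k)) = R₁ * N by rw [hNdef]; ring,
          show Q ^ 2 * (R₂ * (D ^ n * k)) = R₂ * N by rw [hNdef]; ring, ← hK] at h5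
        rw [Mean.avg_m]
        simp only [hf, vv, GG, act, Nat.cast_one, one_mul]
        refine le_trans h5 ?_
        rw [hc]
        linarith)
  refine h1.trans ?_
  rw [MM.add, MM.add, MM.const, MM.const_mul, MM.div_const, MM.sum,
    MM_pres one_pos hR0 _ (bdd_ind Bd)]
  have h2 : ∀ p ∈ S, MM.m (fun y => inc M M' (fun t => F ((D / p) ^ n * y.1 * t))
      (R * y.2) / p) ≤ ε * (1 / p) := by
    intro p hp
    have hp0 : 0 < p := Nat.pos_of_dvd_of_pos (hS p hp) hD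
    have h3 : 0 < D / p := Nat.div_pos (Nat.le_of_dvd hD (hS p hp)) hp0
    rw [MM.div_const, MM_pres (a := (D / p) ^ n) (b := R) (by positivity) hR0 _ hib, mul_one_div]
    exact div_le_div_of_nonneg_right hinc (Nat.cast_nonneg _)
  have h3 := sum_le_sum h2
  rw [← mul_sum, ← div_le_iff₀ hΛ] at h3
  linarith [mul_le_mul_of_nonneg_left h3 hK0]

end Pool.Agent.Lib.MP_a5a405_co.PR.G
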